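import Pool.Agent.H365Z.Nor.Master2

/-! From first moments on short windows to blocks (an approachability argument). -/

set_option autoImplicit false

open Filter Topology MeasureTheory Set

namespace Pool.Agent.H365Z.Nor

/-- a window of length `w` carries a weight with the right first moments -/
def Win (β : ℝ) (g : ℤ) (ω : ℂ) (c α : ℝ) (H : Finset ℤ) (ε w : ℝ) : Prop :=
  ∀ s, 0 ≤ s → ∀ x : ℝ, ∃ φ : ℝ → ℝ, Continuous φ ∧ (∀ ξ, 0 ≤ φ ξ) ∧
    ∫ ξ in x..(x + Real.exp (-s)), φ ξ = 1 ∧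
    c * w ≤ (ω * ∫ ξ in x..(x + Real.exp (-s)), SS β g s (s + w) ξ * (φ ξ : ℂ)).re ∧
    ∀ h ∈ H, ‖∫ ξ in x..(x + Real.exp (-s)), SS α h s (s + w) ξ * (φ ξ : ℂ)‖ ≤ ε * w

lemma nest {x a b ξ₀ : ℝ} (hb : 0 ≤ b) (hab : b ≤ a) (h1 : x ≤ ξ₀) (h2 : ξ₀ ≤ x + a) :
    ∃ x', x ≤ x' ∧ x' + b ≤ x + a ∧ ∀ ξ, x' ≤ ξ → ξ ≤ x' + b → |ξ - ξ₀| ≤ b := by
  refine ⟨min ξ₀ (x + a - b), le_min h1 (by linarith), by linarith [min_le_right ξ₀ (x + a - b)],
    fun ξ g1 g2 => ?_⟩
  rw [abs_le]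
  rcases le_total ξ₀ (x + a - b) with h | h
  · rw [min_eq_left h] at g1 g2
    constructor <;> linarith
  · rw [min_eq_right h] at g1 g2
    constructor <;> linarith

lemma SS_add {β : ℝ} (hβ : 1 < |β|) (h : ℤ) {s s' s'' : ℝ} (h1 : s ≤ s') (h2 : s' ≤ s'') (ξ : ℝ) :
    SS β h s s'' ξ = SS β h s s' ξ + SS β h s' s'' ξ :=
  (Finset.sum_Ico_consecutive _ (NN_mono hβ h1) (NN_mono hβ h2)).symm

lemma pick {x a : ℝ} (ha : 0 ≤ a) {φ : ℝ → ℝ} (hφ : Continuous φ) (h0 : ∀ ξ, 0 ≤ φ ξ)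
    (h1 : ∫ ξ in x..(x + a), φ ξ = 1) {F : ℝ → ℂ} (hF : Continuous F)
    (h2 : ∫ ξ in x..(x + a), F ξ * (φ ξ : ℂ) = 0) : ∃ ξ, x ≤ ξ ∧ ξ ≤ x + a ∧ (F ξ).re ≤ 1 := by
  by_contra hcon
  push Not at hcon
  have c1 : Continuous fun ξ => F ξ * (φ ξ : ℂ) := hF.mul (Complex.continuous_ofReal.comp hφ)
  have h3 := Complex.reCLM.intervalIntegral_comp_comm (μ := volume) (a := x) (b := x + a)
    (c1.intervalIntegrable _ _)
  simp only [Complex.reCLM_apply, h2, Complex.zero_re, Complex.re_mul_ofReal] at h3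
  have h4 : ∫ ξ in x..(x + a), φ ξ ≤ ∫ ξ in x..(x + a), (F ξ).re * φ ξ :=
    intervalIntegral.integral_mono_on (by linarith) (hφ.intervalIntegrable _ _)
      (((Complex.continuous_re.comp hF).mul hφ).intervalIntegrable _ _) fun ξ hξ =>
        le_mul_of_one_le_left (h0 ξ) (hcon ξ hξ.1 hξ.2).le
  linarith

lemma mean_le {x a C : ℝ} (ha : 0 ≤ a) {φ : ℝ → ℝ} (hφ : Continuous φ) (h0 : ∀ ξ, 0 ≤ φ ξ)
    {F : ℝ → ℂ} (hC : ∀ ξ, ‖F ξ‖ ≤ C) :
    ‖∫ ξ in x..(x + a), F ξ * (φ ξ : ℂ)‖ ≤ C * ∫ ξ in x..(x + a), φ ξ := by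
  rw [← intervalIntegral.integral_const_mul]
  refine intervalIntegral.norm_integral_le_of_norm_le (by linarith)
    (Eventually.of_forall fun ξ _ => ?_) ((continuous_const.mul hφ).intervalIntegrable _ _)
  rw [norm_mul, Complex.norm_real, Real.norm_of_nonneg (h0 ξ)]
  exact mul_le_mul_of_nonneg_right (hC ξ) (h0 ξ)

lemma sq_add (v d : ℂ) : ‖v + d‖ ^ 2 = ‖v‖ ^ 2 + 2 * ((starRingEnd ℂ) v * d).re + ‖d‖ ^ 2 := by
  simp only [Complex.sq_norm, Complex.normSq_apply, Complex.add_re, Complex.add_im, Complex.mul_re,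
    Complex.conj_re, Complex.conj_im]
  ring

theorem blk_of_win {α β : ℝ} (hα : 1 < |α|) (hβ : 1 < |β|) {g : ℤ} (hg : g ≠ 0) {ω : ℂ}
    (hω : ‖ω‖ ≤ 1) {c : ℝ} (hc : 0 < c)
    (hW : ∀ H : Finset ℤ, (∀ h ∈ H, h ≠ 0) → ∀ ε : ℝ, 0 < ε →
      ∃ᶠ w in atTop, Win β g ω c α H ε w) : Blk β fun δ => δ = α := by
  classical
  refine ⟨g, ω, c / 2, hg, hω, by positivity, fun B hB ε hε => ?_⟩
  set e := min ε c / 8 with he
  have he0 : 0 < e := by positivity
  have he1 : e ≤ ε / 8 := by linarith [min_le_left ε c]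
  have he2 : e ≤ c / 8 := by linarith [min_le_right ε c]
  set P := insert (β, g) B with hP
  have hP1 : ∀ p ∈ P, 1 < |p.1| := fun p hp => by
    rcases Finset.mem_insert.1 hp with rfl | hp
    exacts [hβ, (hB p hp).1]
  have hL : ∀ᶠ w : ℝ in atTop, ∀ p ∈ P, 7 * |(p.2 : ℝ)| * (|p.1| / (|p.1| - 1)) / e ≤ w :=
    (Filter.eventually_all_finset P).2 fun p _ => eventually_ge_atTop _
  obtain ⟨v, hv, hv1, hv2⟩ := ((hW (B.image Prod.snd) (fun h hh => by
    obtain ⟨p, hp, rfl⟩ := Finset.mem_image.1 hh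
    exact (hB p hp).2.1) e he0).and_eventually (hL.and (eventually_ge_atTop 1))).exists
  have hv0 : 0 < v := by linarith
  set C := (1 / Real.log |α| + 1 / Real.log |β| + 1) * v with hC
  have la := Real.log_pos hα
  have lb := Real.log_pos hβ
  have hC0 : 0 < C := by positivity
  have hSC : ∀ p ∈ P, ∀ s, 0 ≤ s → ∀ r, 0 ≤ r → r ≤ v → ∀ ξ, ‖SS p.1 p.2 s (s + r) ξ‖ ≤ C := by
    intro p hp s hs r hr hrv ξ
    refine (SS_le _ _ _ _ _).trans ((NN_len (hP1 p hp) hs hr).2.trans ?_)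
    have h1 : 1 / Real.log |p.1| ≤ 1 / Real.log |α| + 1 / Real.log |β| := by
      rcases Finset.mem_insert.1 hp with rfl | hp
      · exact le_add_of_nonneg_left (by positivity)
      · rw [(hB p hp).2.2]; exact le_add_of_nonneg_right (by positivity)
    have h2 := Real.log_pos (hP1 p hp)
    have h3 : r / Real.log |p.1| ≤ 1 / Real.log |p.1| * v := by
      rw [one_div, mul_comm, ← div_eq_mul_inv]; exact div_le_div_of_nonneg_right hrv h2.le
    have h4 := mul_le_mul_of_nonneg_right h1 hv0.le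
    rw [hC, add_mul]
    linarith
  set E := 2 + P.card * (2 * C) ^ 2 with hE
  have hE0 : 0 < E := by positivity
  have key : ∀ s, 0 ≤ s → ∀ x : ℝ, ∀ i : ℕ, ∃ x', x ≤ x' ∧
      x' + Real.exp (-(s + i * v)) ≤ x + Real.exp (-s) ∧ ∃ U M : ℝ × ℤ → ℂ,
        ∑ p ∈ P, ‖U p - M p‖ ^ 2 ≤ i * E ∧
        (∀ p ∈ P, ∀ ξ, x' ≤ ξ → ξ ≤ x' + Real.exp (-(s + i * v)) →
          ‖SS p.1 p.2 s (s + i * v) ξ - U p‖ ≤ i * (e * v)) ∧
        (∀ p ∈ B, ‖M p‖ ≤ i * (e * v)) ∧ i * (c * v) ≤ (ω * M (β, g)).re := by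
    intro s hs x i
    induction i with
    | zero => exact ⟨x, le_rfl, by simp, 0, 0, by simp, fun p _ ξ _ _ => by simp [SS], by simp,
        by simp⟩
    | succ i ih =>
      obtain ⟨x', i1, i2, U, M, i3, i4, i5, i6⟩ := ih
      have hi0 : (0 : ℝ) ≤ i * v := by positivity
      set s' := s + i * v with hs'
      have hs0 : 0 ≤ s' := by linarith
      have es : s + ((i + 1 : ℕ) : ℝ) * v = s' + v := by rw [hs']; push_cast; ring
      obtain ⟨φ, c1, c2, c3, c4, c5⟩ := hv s' hs0 x'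
      have ha := (Real.exp_pos (-s')).le
      let m : ℝ × ℤ → ℂ := fun p =>
        ∫ ξ in x'..(x' + Real.exp (-s')), SS p.1 p.2 s' (s' + v) ξ * (φ ξ : ℂ)
      have hm : ∀ p ∈ P, ‖m p‖ ≤ C := fun p hp => by
        simpa only [c3, mul_one] using
          mean_le (x := x') ha c1 c2 (hSC p hp s' hs0 v hv0.le le_rfl)
      have cφ : Continuous fun ξ => (φ ξ : ℂ) := Complex.continuous_ofReal.comp c1
      obtain ⟨ξ₀, g1, g2, g3⟩ := pick ha c1 c2 c3
        (F := fun ξ => ∑ p ∈ P, (starRingEnd ℂ) (U p - M p) * (SS p.1 p.2 s' (s' + v) ξ - m p))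
        (continuous_finset_sum _ fun p _ => continuous_const.mul
          ((SS_cont _ _ _ _).sub continuous_const)) (by
          simp only [Finset.sum_mul]
          have cS : ∀ p : ℝ × ℤ, Continuous fun ξ => SS p.1 p.2 s' (s' + v) ξ :=
            fun p => SS_cont _ _ _ _
          rw [intervalIntegral.integral_finset_sum fun p _ =>
            Continuous.intervalIntegrable (by have := cS p; fun_prop) _ _]
          refine Finset.sum_eq_zero fun p _ => ?_
          have := cS p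
          simp only [mul_assoc, sub_mul]
          rw [intervalIntegral.integral_const_mul, intervalIntegral.integral_sub
            (Continuous.intervalIntegrable (by fun_prop) _ _)
            (Continuous.intervalIntegrable (by fun_prop) _ _),
            intervalIntegral.integral_const_mul, intervalIntegral.integral_ofReal, c3]
          simp [m])
      obtain ⟨x'', n1, n2, n3⟩ := nest (Real.exp_pos (-(s' + v))).le
        (Real.exp_le_exp.2 (show -(s' + v) ≤ -s' by linarith)) g1 g2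
      rw [es]
      refine ⟨x'', i1.trans n1, n2.trans i2, fun p => U p + SS p.1 p.2 s' (s' + v) ξ₀,
        fun p => M p + m p, ?_, fun p hp ξ k1 k2 => ?_, fun p hp => ?_, ?_⟩
      · have e1 : ∀ p, U p + SS p.1 p.2 s' (s' + v) ξ₀ - (M p + m p) =
            (U p - M p) + (SS p.1 p.2 s' (s' + v) ξ₀ - m p) := fun p => by ring
        simp only [e1, sq_add]
        rw [Finset.sum_add_distrib, Finset.sum_add_distrib, ← Finset.mul_sum, ← Complex.re_sum]
        have : ∑ p ∈ P, ‖SS p.1 p.2 s' (s' + v) ξ₀ - m p‖ ^ 2 ≤ P.card * (2 * C) ^ 2 := by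
          rw [← nsmul_eq_mul]
          refine Finset.sum_le_card_nsmul _ _ _ fun p hp =>
            pow_le_pow_left₀ (norm_nonneg _) ((norm_sub_le _ _).trans ?_) 2
          linarith [hSC p hp s' hs0 v hv0.le le_rfl ξ₀, hm p hp]
        push_cast
        linarith
      · rw [SS_add (hP1 p hp) p.2 (show s ≤ s' by linarith) (show s' ≤ s' + v by linarith)]
        have l1 := SS_lip (hP1 p hp) p.2 s' (show 0 ≤ s' + v by linarith) (n3 ξ k1 k2)
        have l2 := hv1 p hp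
        rw [div_le_iff₀ he0] at l2
        have l3 := i4 p hp ξ (n1.trans k1) (k2.trans n2)
        have e1 : SS p.1 p.2 s s' ξ + SS p.1 p.2 s' (s' + v) ξ - (U p + SS p.1 p.2 s' (s' + v) ξ₀) =
            (SS p.1 p.2 s s' ξ - U p) + (SS p.1 p.2 s' (s' + v) ξ - SS p.1 p.2 s' (s' + v) ξ₀) := by
          ring
        rw [e1]
        refine (norm_add_le _ _).trans ?_
        push_cast
        linarith
      · have l1 := c5 p.2 (Finset.mem_image_of_mem _ hp)
        rw [← (hB p hp).2.2] at l1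
        refine (norm_add_le _ _).trans ?_
        push_cast
        linarith [i5 p hp]
      · rw [mul_add, Complex.add_re]
        push_cast
        linarith
  filter_upwards [eventually_ge_atTop (8 * v), eventually_ge_atTop (C / e),
    eventually_ge_atTop (E / e ^ 2)] with w w1 w2 w3 s hs x
  have hw0 : 0 < w := by linarith
  set i := ⌊w / v⌋₊ with hi
  have i1 : (i : ℝ) * v ≤ w := by
    rw [← le_div_iff₀ hv0]; exact Nat.floor_le (by positivity)
  have i2 : w < (i + 1) * v := by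
    rw [← div_lt_iff₀ hv0]; exact Nat.lt_floor_add_one _
  obtain ⟨x', k1, k2, U, M, k3, k4, k5, k6⟩ := key s hs x i
  have hx : Real.exp (-(s + w)) ≤ Real.exp (-(s + i * v)) := Real.exp_le_exp.2 (by linarith)
  have hi0 : (0 : ℝ) ≤ i := Nat.cast_nonneg i
  have hiv : (0 : ℝ) ≤ i * v := by positivity
  rw [div_le_iff₀ he0] at w2
  rw [div_le_iff₀ (by positivity)] at w3
  have main : ∀ p ∈ P, ∀ ξ, x' ≤ ξ → ξ ≤ x' + Real.exp (-(s + w)) →
      ‖SS p.1 p.2 s (s + w) ξ - M p‖ ≤ 3 * (e * w) := by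
    intro p hp ξ g1 g2
    rw [SS_add (hP1 p hp) p.2 (show s ≤ s + i * v by linarith) (show s + i * v ≤ s + w by linarith)]
    have l1 := k4 p hp ξ g1 (by linarith)
    have l2 := hSC p hp (s + i * v) (by linarith) (w - i * v) (by linarith) (by linarith) ξ
    rw [show s + i * v + (w - i * v) = s + w by ring] at l2
    have l3 : ‖U p - M p‖ ^ 2 ≤ (e * w) ^ 2 := by
      refine (Finset.single_le_sum (f := fun p => ‖U p - M p‖ ^ 2) (fun _ _ => by positivity)
        hp).trans (k3.trans ?_)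
      have : (i : ℝ) ≤ w := by nlinarith
      nlinarith
    have l4 := (pow_le_pow_iff_left₀ (norm_nonneg _) (by positivity) two_ne_zero).1 l3
    have e1 : SS p.1 p.2 s (s + i * v) ξ + SS p.1 p.2 (s + i * v) (s + w) ξ - M p =
        (SS p.1 p.2 s (s + i * v) ξ - U p) + (U p - M p) + SS p.1 p.2 (s + i * v) (s + w) ξ := by
      ring
    rw [e1]
    refine (norm_add₃_le).trans ?_
    nlinarith
  refine ⟨x', k1, by linarith, fun ξ g1 g2 => ⟨?_, fun p hp => ?_⟩⟩
  · have l1 := main (β, g) (Finset.mem_insert_self _ _) ξ g1 g2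
    have l2 := Complex.abs_re_le_norm (ω * (SS β g s (s + w) ξ - M (β, g)))
    rw [norm_mul, mul_sub, Complex.sub_re] at l2
    have l3 := mul_le_of_le_one_left (norm_nonneg (SS β g s (s + w) ξ - M (β, g))) hω
    have l4 := (abs_le.1 (l2.trans (l3.trans l1))).1
    nlinarith
  · have l1 := main p (Finset.mem_insert_of_mem hp) ξ g1 g2
    have l2 := norm_sub_norm_le (SS p.1 p.2 s (s + w) ξ) (M p)
    have l3 := k5 p hp
    nlinarith

end Pool.Agent.H365Z.Nor
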