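import Pool.Agent.H365Z.Nor.Desc

/-! Logarithmic independence of integers; unions and intersections over countable families. -/

set_option autoImplicit false

open Filter Topology Set TopologicalSpace

namespace Pool.Agent.H365Z.Nor

lemma ind_of_indep {a b : ℕ} (ha : 1 < a) (hb : 1 < b)
    (h : ∀ m n : ℕ, 0 < m → 0 < n → a ^ m ≠ b ^ n) : Ind a b := by
  rintro ⟨r, hr⟩
  have ha' : (1 : ℝ) < a := by exact_mod_cast ha
  have hb' : (1 : ℝ) < b := by exact_mod_cast hb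
  rw [abs_of_pos (show (0 : ℝ) < a by linarith), abs_of_pos (show (0 : ℝ) < b by linarith)] at hr
  have la := Real.log_pos ha'
  have lb := Real.log_pos hb'
  have r0 : 0 < r := by
    have : (0 : ℝ) < r := by rw [hr]; positivity
    exact_mod_cast this
  have n0 : 0 < r.num := Rat.num_pos.2 r0
  obtain ⟨n, hn⟩ := Int.eq_ofNat_of_zero_le n0.le
  refine h r.den n r.den_pos (by omega) ?_
  have d0 : (0 : ℝ) < r.den := by exact_mod_cast r.den_pos
  rw [Rat.cast_def, hn, div_eq_div_iff d0.ne' lb.ne'] at hr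
  have : (a : ℝ) ^ r.den = (b : ℝ) ^ n := by
    refine Real.log_injOn_pos (mem_Ioi.2 (by positivity)) (mem_Ioi.2 (by positivity)) ?_
    rw [Real.log_pow, Real.log_pow]
    push_cast at hr
    linarith
  exact_mod_cast this

lemma ind_prime {p q : ℕ} (hp : p.Prime) (hq : q.Prime) (h : p ≠ q) : Ind p q :=
  ind_of_indep hp.one_lt hq.one_lt fun m n hm _ e => h <|
    (Nat.prime_dvd_prime_iff_eq hp hq).1 (hp.dvd_of_dvd_pow (e ▸ dvd_pow_self p hm.ne'))

lemma not_ind_trans {a b c : ℝ} (hc : 1 < |c|) (h1 : ¬ Ind a c) (h2 : ¬ Ind b c) : ¬ Ind a b := by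
  unfold Ind Irrational at *
  rw [not_not] at *
  obtain ⟨r, hr⟩ := h1
  obtain ⟨s, hs⟩ := h2
  refine ⟨r / s, ?_⟩
  push_cast
  rw [hr, hs, div_div_div_cancel_right₀ (Real.log_pos hc).ne']

variable {Y : Type*} [TopologicalSpace Y] [SecondCountableTopology Y]

theorem inter_complete {S : Set ℝ} (hS : S.Countable) (hne : S.Nonempty) (h1 : ∀ α ∈ S, 1 < |α|) :
    Pi3 (⋂ α ∈ S, {ξ : ℝ | UD fun n => ξ * α ^ n}) ∧
      (IsTopologicalBasis {s : Set Y | IsClopen s} → ∀ B : Set Y, Pi3 B →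
        ∃ f : Y → ℝ, Continuous f ∧ B = f ⁻¹' ⋂ α ∈ S, {ξ : ℝ | UD fun n => ξ * α ^ n}) := by
  obtain ⟨α, rfl⟩ := hS.exists_eq_range hne
  rw [biInter_range]
  refine ⟨Pi3.iInter fun i => Pi3.ud (g := fun ξ n => ξ * α i ^ n) fun n => by fun_prop,
    fun hY B hB => ?_⟩
  obtain ⟨f, hf, g1, g2⟩ :=
    reduce_seq hY α (fun j => h1 _ (mem_range_self j)) (fun _ => B) fun _ => hB
  refine ⟨f, hf, Set.ext fun y => ?_⟩
  simp only [mem_preimage, mem_iInter, mem_setOf_eq]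
  exact ⟨fun hy i => g2 y i fun _ _ => hy, fun h => by_contra fun hy => g1 y 0 hy (h 0)⟩

theorem union_complete {S : Set ℝ} (hS : S.Countable) (h1 : ∀ α ∈ S, 1 < |α|)
    (hp : ∀ p : ℕ, p.Prime → (p : ℝ) ∈ S) :
    (∃ A : ℕ → Set ℝ, (∀ i, Pi3 (A i)) ∧ (⋃ α ∈ S, {ξ : ℝ | UD fun n => ξ * α ^ n}) = ⋃ i, A i) ∧
      (IsTopologicalBasis {s : Set Y | IsClopen s} → ∀ B : ℕ → Set Y, (∀ i, Pi3 (B i)) →
        ∃ f : Y → ℝ, Continuous f ∧
          ⋃ i, B i = f ⁻¹' ⋃ α ∈ S, {ξ : ℝ | UD fun n => ξ * α ^ n}) := by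
  obtain ⟨α, rfl⟩ := hS.exists_eq_range ⟨_, hp 2 Nat.prime_two⟩
  rw [biUnion_range]
  refine ⟨⟨_, fun i => Pi3.ud (g := fun ξ n => ξ * α i ^ n) fun n => by fun_prop, rfl⟩,
    fun hY B hB => ?_⟩
  have hα : ∀ j, 1 < |α j| := fun j => h1 _ (mem_range_self j)
  have hP : ∀ m, (Nat.nth Nat.Prime m).Prime := Nat.prime_nth_prime
  obtain ⟨f, hf, g1, g2⟩ := reduce_seq hY α hα
    (fun j => {y | ∃ m, ¬ Ind (Nat.nth Nat.Prime m) (α j) ∧ y ∈ B m}) fun j => by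
      by_cases h : ∃ m, ¬ Ind (Nat.nth Nat.Prime m) (α j)
      · obtain ⟨m, hm⟩ := h
        convert hB m using 1
        ext y
        refine ⟨?_, fun hy => ⟨m, hm, hy⟩⟩
        rintro ⟨m', hm', hy⟩
        have : Nat.nth Nat.Prime m = Nat.nth Nat.Prime m' := by_contra fun hne =>
          not_ind_trans (hα j) hm hm' (ind_prime (hP m) (hP m') hne)
        rwa [Nat.nth_injective Nat.infinite_setOf_prime this]
      · refine ⟨fun _ _ => ∅, fun _ _ => isClosed_empty, Set.ext fun y => ?_⟩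
        simp only [mem_setOf_eq, iUnion_empty, iInter_const, mem_empty_iff_false, iff_false]
        rintro ⟨m, hm, -⟩
        exact h ⟨m, hm⟩
  refine ⟨f, hf, Set.ext fun y => ?_⟩
  simp only [mem_preimage, mem_iUnion, mem_setOf_eq]
  constructor
  · rintro ⟨m, hm⟩
    obtain ⟨i, hi⟩ := hp _ (hP m)
    exact ⟨i, g2 y i fun j hj => ⟨m, hi ▸ hj, hm⟩⟩
  · rintro ⟨j, hj⟩
    by_contra hy
    exact g1 y j (fun ⟨m, _, hm⟩ => hy ⟨m, hm⟩) hj

end Pool.Agent.H365Z.Nor
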