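import Pool.Agent.H365Z.Nor.Parts

/-! The block lemma. -/

set_option autoImplicit false

open Filter Topology MeasureTheory Set

namespace Pool.Agent.H365Z.Nor

/-- the exponential sum over the block of scales `[s, s')` -/
noncomputable def SS (β : ℝ) (h : ℤ) (s s' : ℝ) (ξ : ℝ) : ℂ :=
  ∑ n ∈ Finset.Ico (NN β s) (NN β s'), ee (h * (ξ * β ^ n))

lemma SS_cont (β : ℝ) (h : ℤ) (s s' : ℝ) : Continuous (SS β h s s') := by
  unfold SS
  exact continuous_finset_sum _ fun n _ => ee_cont.comp (by fun_prop)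

lemma SS_le (β : ℝ) (h : ℤ) (s s' ξ : ℝ) : ‖SS β h s s' ξ‖ ≤ ((NN β s' - NN β s : ℕ) : ℝ) := by
  unfold SS
  refine (norm_sum_le _ _).trans ?_
  simp [norm_ee]

lemma SS_le' {β : ℝ} (hβ : 1 < |β|) (h : ℤ) {s w : ℝ} (hs : 0 ≤ s) (hw : 1 ≤ w) (ξ : ℝ) :
    ‖SS β h s (s + w) ξ‖ ≤ (1 / Real.log |β| + 1) * w := by
  refine (SS_le _ _ _ _ _).trans ((NN_len hβ hs (by linarith)).2.trans ?_)
  rw [add_mul, one_div, mul_comm _ w, ← div_eq_mul_inv]; linarith

lemma SS_lip {β : ℝ} (hβ : 1 < |β|) (h : ℤ) (s : ℝ) {s' : ℝ} (hs : 0 ≤ s') {ξ ξ' : ℝ}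
    (hξ : |ξ - ξ'| ≤ Real.exp (-s')) :
    ‖SS β h s s' ξ - SS β h s s' ξ'‖ ≤ 7 * |(h : ℝ)| * (|β| / (|β| - 1)) := by
  unfold SS
  rw [← Finset.sum_sub_distrib]
  refine (norm_sum_le _ _).trans ?_
  have h0 : 0 < |β| - 1 := by linarith
  have h1 : ∀ n ∈ Finset.Ico (NN β s) (NN β s'),
      ‖ee (h * (ξ * β ^ n)) - ee (h * (ξ' * β ^ n))‖ ≤
        7 * |(h : ℝ)| * Real.exp (-s') * |β| ^ n := by
    intro n _
    refine (ee_lip _ _).trans ?_
    rw [← mul_sub, ← sub_mul, abs_mul, abs_mul, abs_pow]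
    have : |ξ - ξ'| * |β| ^ n ≤ Real.exp (-s') * |β| ^ n :=
      mul_le_mul_of_nonneg_right hξ (by positivity)
    have := mul_le_mul_of_nonneg_left this (show 0 ≤ 7 * |(h : ℝ)| by positivity)
    linarith [mul_assoc 7 |(h : ℝ)| (|ξ - ξ'| * |β| ^ n),
      mul_assoc (7 * |(h : ℝ)|) (Real.exp (-s')) (|β| ^ n)]
  refine (Finset.sum_le_sum h1).trans ?_
  rw [← Finset.mul_sum, mul_assoc (7 * |(h : ℝ)|)]
  refine mul_le_mul_of_nonneg_left ?_ (by positivity)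
  have h2 : ∑ n ∈ Finset.Ico (NN β s) (NN β s'), |β| ^ n ≤
      ∑ n ∈ Finset.range (NN β s'), |β| ^ n :=
    Finset.sum_le_sum_of_subset_of_nonneg (fun n hn => Finset.mem_range.2 (Finset.mem_Ico.1 hn).2)
      fun n _ _ => by positivity
  rw [geom_sum_eq hβ.ne'] at h2
  have h3 : (|β| ^ NN β s' - 1) / (|β| - 1) ≤ Real.exp s' * |β| / (|β| - 1) :=
    div_le_div_of_nonneg_right (by linarith [NN_upper hβ hs]) h0.le
  refine (mul_le_mul_of_nonneg_left (h2.trans h3) (Real.exp_pos _).le).trans (le_of_eq ?_)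
  rw [Real.exp_neg]
  field_simp

section int
variable {x T lam A : ℝ} {K : ℕ}

lemma int_sum {ι : Type*} (I : Finset ι) (t : ι → ℝ) :
    (T : ℂ) * ∫ ξ in x..(x + 1 / T), (∑ i ∈ I, ee (t i * ξ)) * (rp lam A K ξ : ℂ) =
      ∑ i ∈ I, FF x T lam A K (t i) := by
  simp only [FF, Finset.sum_mul]
  rw [intervalIntegral.integral_finset_sum
    fun i _ => (integrand_cont lam A K (t i)).intervalIntegrable _ _, Finset.mul_sum]

lemma int_re (α s s' : ℝ) :
    T * ∫ ξ in x..(x + 1 / T), (SS α 1 s s' ξ).re * rp lam A K ξ =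
      ∑ n ∈ Finset.Ico (NN α s) (NN α s'), (FF x T lam A K (α ^ n)).re := by
  rw [← Complex.re_sum, ← int_sum, Complex.re_ofReal_mul]
  congr 1
  have hc : Continuous fun ξ : ℝ =>
      (∑ i ∈ Finset.Ico (NN α s) (NN α s'), ee (α ^ i * ξ)) * (rp lam A K ξ : ℂ) :=
    (continuous_finset_sum _ fun n _ => ee_cont.comp (by fun_prop)).mul
      (Complex.continuous_ofReal.comp (rp_cont lam A K))
  have := Complex.reCLM.intervalIntegral_comp_comm (μ := volume) (a := x) (b := x + 1 / T)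
    (hc.intervalIntegrable _ _)
  simp only [Complex.reCLM_apply] at this
  rw [← this]
  congr 1
  ext ξ
  rw [Complex.re_mul_ofReal]
  simp only [SS, Int.cast_one, one_mul, mul_comm ξ]

lemma int_sq (β : ℝ) (h : ℤ) (s s' : ℝ) :
    T * ∫ ξ in x..(x + 1 / T), ‖SS β h s s' ξ‖ ^ 2 * rp lam A K ξ ≤
      ∑ n ∈ Finset.Ico (NN β s) (NN β s'), ∑ m ∈ Finset.Ico (NN β s) (NN β s'),
        ‖FF x T lam A K (h * (β ^ n - β ^ m))‖ := by
  set I := Finset.Ico (NN β s) (NN β s') with hI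
  have e : ∀ ξ : ℝ, ((‖SS β h s s' ξ‖ ^ 2 * rp lam A K ξ : ℝ) : ℂ) =
      (∑ p ∈ I ×ˢ I, ee ((h * (β ^ p.1 - β ^ p.2)) * ξ)) * (rp lam A K ξ : ℂ) := by
    intro ξ
    rw [Complex.ofReal_mul, ← Complex.normSq_eq_norm_sq, ← Complex.mul_conj]
    congr 1
    rw [SS, map_sum, Finset.sum_mul_sum, Finset.sum_product]
    refine Finset.sum_congr rfl fun n _ => Finset.sum_congr rfl fun m _ => ?_
    rw [← ee_neg, ← ee_add]
    congr 1
    ring
  have h1 : ((T * ∫ ξ in x..(x + 1 / T), ‖SS β h s s' ξ‖ ^ 2 * rp lam A K ξ : ℝ) : ℂ) =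
      ∑ p ∈ I ×ˢ I, FF x T lam A K (h * (β ^ p.1 - β ^ p.2)) := by
    rw [← int_sum, Complex.ofReal_mul, ← intervalIntegral.integral_ofReal]
    simp only [e]
  refine (le_abs_self _).trans ?_
  rw [← Real.norm_eq_abs, ← Complex.norm_real, h1, ← Finset.sum_product']
  exact norm_sum_le _ _

end int

theorem block {α : ℝ} (hα : 1 < |α|) : ∃ c : ℝ, 0 < c ∧ ∀ B : Finset (ℝ × ℤ),
    (∀ p ∈ B, 1 < |p.1| ∧ p.2 ≠ 0 ∧ Irrational (Real.log |p.1| / Real.log |α|)) →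
    ∀ ε : ℝ, 0 < ε → ∀ᶠ w : ℝ in atTop, ∀ s, 0 ≤ s → ∀ x : ℝ, ∃ x' : ℝ, x ≤ x' ∧
      x' + Real.exp (-(s + w)) ≤ x + Real.exp (-s) ∧
      ∀ ξ, x' ≤ ξ → ξ ≤ x' + Real.exp (-(s + w)) →
        c * w ≤ (SS α 1 s (s + w) ξ).re ∧ ∀ p ∈ B, ‖SS p.1 p.2 s (s + w) ξ‖ ≤ ε * w := by
  obtain ⟨q, S⟩ := exists_step hα
  have hq : (0 : ℝ) < q := by exact_mod_cast S.hq
  have hl := Real.log_pos hα
  set c := 1 / (8 * q * Real.log |α|) with hc
  have hc0 : 0 < c := by positivity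
  refine ⟨c / 8, by positivity, fun B hB ε hε => ?_⟩
  set C := 1 / Real.log |α| + 1 with hC
  have hC0 : 0 < C := by positivity
  set κ := 4 * C / ε ^ 2 with hκ
  have hκ0 : 0 < κ := by positivity
  set η := c / (4 * κ * (B.card + 1)) with hη
  have hη0 : 0 < η := by positivity
  have hβ : ∀ᶠ u : ℕ in atTop, ∀ p ∈ B, ∀ᶠ w : ℝ in atTop, ∀ s, 0 ≤ s → ∀ (x : ℝ) (K : ℕ),
      ∑ n ∈ Finset.Ico (NN p.1 s) (NN p.1 (s + w)), ∑ m ∈ Finset.Ico (NN p.1 s) (NN p.1 (s + w)),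
        ‖FF x (Real.exp s) (α ^ (NN α s + u)) (α ^ q) K (p.2 * (p.1 ^ n - p.1 ^ m))‖ ≤
          η * w ^ 2 :=
    (Filter.eventually_all_finset B).2 fun p hp =>
      S.beta_part (hB p hp).1 (hB p hp).2.1 (hB p hp).2.2 hη0
  obtain ⟨u, ⟨hu1, hu2⟩, hu3⟩ :=
    ((S.alpha_part.and hβ).and (S.ev_E (E := 1 / 14) (by norm_num))).exists
  have hL : ∀ᶠ w : ℝ in atTop, ∀ p ∈ B,
      7 * |(p.2 : ℝ)| * (|p.1| / (|p.1| - 1)) / (ε / 2) ≤ w :=
    (Filter.eventually_all_finset B).2 fun p _ => eventually_ge_atTop _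
  filter_upwards [hu1, (Filter.eventually_all_finset B).2 hu2, hL, eventually_ge_atTop 1,
    eventually_ge_atTop (7 * |((1 : ℤ) : ℝ)| * (|α| / (|α| - 1)) / (c / 8))] with w hw1 hw2 hw3 hw4
    hw5 s hs x
  have hw0 : 0 < w := by linarith
  set T := Real.exp s with hT
  have hT0 : 0 < T := Real.exp_pos s
  set lam := α ^ (NN α s + u) with hlam
  set K := NN α (s + w) with hK
  set G : ℝ → ℝ := fun ξ => (SS α 1 s (s + w) ξ).re - c / 4 * w -
    κ / w * ∑ p ∈ B, ‖SS p.1 p.2 s (s + w) ξ‖ ^ 2 with hG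
  have hφ := rp_cont lam (α ^ q) K
  have c1 : Continuous fun ξ => (SS α 1 s (s + w) ξ).re * rp lam (α ^ q) K ξ :=
    (Complex.continuous_re.comp (SS_cont _ _ _ _)).mul hφ
  have c2 : ∀ p : ℝ × ℤ, Continuous fun ξ => ‖SS p.1 p.2 s (s + w) ξ‖ ^ 2 * rp lam (α ^ q) K ξ :=
    fun p => ((SS_cont _ _ _ _).norm.pow 2).mul hφ
  have hint : 0 < T * ∫ ξ in x..(x + 1 / T), G ξ * rp lam (α ^ q) K ξ := by
    have e : ∀ ξ, G ξ * rp lam (α ^ q) K ξ = (SS α 1 s (s + w) ξ).re * rp lam (α ^ q) K ξ -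
        c / 4 * w * rp lam (α ^ q) K ξ -
        κ / w * ∑ p ∈ B, ‖SS p.1 p.2 s (s + w) ξ‖ ^ 2 * rp lam (α ^ q) K ξ := by
      intro ξ
      rw [← Finset.sum_mul]
      simp only [hG]
      ring
    simp only [e]
    rw [intervalIntegral.integral_sub, intervalIntegral.integral_sub,
      intervalIntegral.integral_const_mul, intervalIntegral.integral_const_mul,
      intervalIntegral.integral_finset_sum fun p _ => (c2 p).intervalIntegrable _ _]
    · have a1 := hw1 s hs x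
      rw [← int_re] at a1
      have a2 := (abs_le.1 (mass_real (x := x) hT0 S.h8 (S.ne (NN α s + u)) K)).2
      have a3 := hu3 s
      have a4 : T * ∑ p ∈ B, ∫ ξ in x..(x + 1 / T),
          ‖SS p.1 p.2 s (s + w) ξ‖ ^ 2 * rp lam (α ^ q) K ξ ≤ B.card * (η * w ^ 2) := by
        rw [Finset.mul_sum, ← nsmul_eq_mul]
        exact Finset.sum_le_card_nsmul _ _ _ fun p hp =>
          (int_sq p.1 p.2 s (s + w)).trans (hw2 p hp s hs x K)
      have a5 : κ / w * (B.card * (η * w ^ 2)) ≤ c / 4 * w := by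
        have : κ / w * (B.card * (η * w ^ 2)) = c / 4 * w * (B.card / (B.card + 1)) := by
          rw [hη]; field_simp
        rw [this]
        refine mul_le_of_le_one_right (by positivity) ?_
        rw [div_le_one (by positivity)]; linarith
      have a6 := mul_le_mul_of_nonneg_left a4 (show 0 ≤ κ / w by positivity)
      have a7 : w / (8 * q * Real.log |α|) = c * w := by rw [hc]; ring
      have a8 : c / 4 * w * (T * ∫ ξ in x..(x + 1 / T), rp lam (α ^ q) K ξ) ≤ c / 4 * w * 2 :=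
        mul_le_mul_of_nonneg_left (by linarith) (by positivity)
      have a9 : 0 < c * w := by positivity
      rw [mul_sub, mul_sub]
      nlinarith
    · exact c1.intervalIntegrable _ _
    · exact (continuous_const.mul hφ).intervalIntegrable _ _
    · exact (c1.sub (continuous_const.mul hφ)).intervalIntegrable _ _
    · exact (continuous_const.mul (continuous_finset_sum _ fun p _ => c2 p)).intervalIntegrable _ _
  have hT1 : 1 / T = Real.exp (-s) := by rw [Real.exp_neg, one_div]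
  obtain ⟨ξ₀, ⟨h1, h2⟩, h3⟩ : ∃ ξ₀ ∈ Icc x (x + 1 / T), 0 < G ξ₀ := by
    by_contra hcon
    push Not at hcon
    have : 0 ≤ ∫ ξ in x..(x + 1 / T), -(G ξ * rp lam (α ^ q) K ξ) :=
      intervalIntegral.integral_nonneg (by linarith [one_div_pos.2 hT0]) fun ξ hξ =>
        neg_nonneg.2 (mul_nonpos_of_nonpos_of_nonneg (hcon ξ hξ) (rp_nonneg _ _ _ _))
    rw [intervalIntegral.integral_neg] at this
    nlinarith
  rw [hT1] at h2
  have he : Real.exp (-(s + w)) ≤ Real.exp (-s) := Real.exp_le_exp.2 (by linarith)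
  have he0 := Real.exp_pos (-(s + w))
  refine ⟨min ξ₀ (x + Real.exp (-s) - Real.exp (-(s + w))), le_min h1 (by linarith),
    by linarith [min_le_right ξ₀ (x + Real.exp (-s) - Real.exp (-(s + w)))], fun ξ g1 g2 => ?_⟩
  have hd : |ξ - ξ₀| ≤ Real.exp (-(s + w)) := by
    rw [abs_le]
    rcases le_total ξ₀ (x + Real.exp (-s) - Real.exp (-(s + w))) with h | h
    · rw [min_eq_left h] at g1 g2
      constructor <;> linarith
    · rw [min_eq_right h] at g1 g2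
      constructor <;> linarith
  have hsum : 0 ≤ κ / w * ∑ p ∈ B, ‖SS p.1 p.2 s (s + w) ξ₀‖ ^ 2 := by positivity
  simp only [hG] at h3
  constructor
  · have l1 := SS_lip hα 1 s (show 0 ≤ s + w by linarith) hd
    have l2 := Complex.abs_re_le_norm (SS α 1 s (s + w) ξ - SS α 1 s (s + w) ξ₀)
    rw [Complex.sub_re] at l2
    rw [div_le_iff₀ (by positivity)] at hw5
    linarith [(abs_le.1 (l2.trans l1)).1]
  · intro p hp
    have l1 := SS_lip (hB p hp).1 p.2 s (show 0 ≤ s + w by linarith) hd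
    have l2 := hw3 p hp
    rw [div_le_iff₀ (by positivity)] at l2
    have l3 : ‖SS p.1 p.2 s (s + w) ξ₀‖ ^ 2 ≤ ∑ p ∈ B, ‖SS p.1 p.2 s (s + w) ξ₀‖ ^ 2 :=
      Finset.single_le_sum (f := fun p : ℝ × ℤ => ‖SS p.1 p.2 s (s + w) ξ₀‖ ^ 2)
        (fun _ _ => by positivity) hp
    have l4 := (Complex.re_le_norm _).trans (SS_le' hα 1 hs hw4 ξ₀)
    have l5 : κ / w * ‖SS p.1 p.2 s (s + w) ξ₀‖ ^ 2 ≤ C * w := by
      have := mul_le_mul_of_nonneg_left l3 (show 0 ≤ κ / w by positivity)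
      have : 0 < c / 4 * w := by positivity
      linarith
    have l6 : ‖SS p.1 p.2 s (s + w) ξ₀‖ ^ 2 ≤ (ε / 2 * w) ^ 2 := by
      rw [div_mul_eq_mul_div, div_le_iff₀ hw0, hκ, div_mul_eq_mul_div,
        div_le_iff₀ (by positivity)] at l5
      have : C * (4 * ‖SS p.1 p.2 s (s + w) ξ₀‖ ^ 2) ≤ C * (4 * (ε / 2 * w) ^ 2) := by
        nlinarith
      have := le_of_mul_le_mul_left this hC0
      linarith
    have l7 := (pow_le_pow_iff_left₀ (norm_nonneg _) (by positivity) two_ne_zero).1 l6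
    have l8 := norm_sub_norm_le (SS p.1 p.2 s (s + w) ξ) (SS p.1 p.2 s (s + w) ξ₀)
    linarith

end Pool.Agent.H365Z.Nor
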