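import Mathlib

/-! The definitions used in the statements on normality to real bases. -/

set_option autoImplicit false

open Filter Topology

namespace Pool.Agent.H365Z.NorDefs

/-- `x` is uniformly distributed modulo one: for `0 ≤ u ≤ v ≤ 1` the proportion of `n < N` with
fractional part of `x n` in `[u, v)` tends to `v - u`. -/
def IsUD (x : ℕ → ℝ) : Prop :=
  ∀ u v : ℝ, 0 ≤ u → u ≤ v → v ≤ 1 →
    Tendsto (fun N : ℕ =>
      (((Finset.range N).filter (fun n => u ≤ Int.fract (x n) ∧ Int.fract (x n) < v)).card : ℝ)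
        / (N : ℝ)) atTop (𝓝 (v - u))

/-- the set `𝒩(α)` of reals `ξ` with `(ξ αⁿ)` uniformly distributed modulo one -/
def Normal (α : ℝ) : Set ℝ := {ξ | IsUD fun n => ξ * α ^ n}

/-- the boldface class `Π⁰₃`: countable intersections of countable unions of closed sets -/
def IsPi03 {X : Type} [TopologicalSpace X] (A : Set X) : Prop :=
  ∃ F : ℕ → ℕ → Set X, (∀ i j, IsClosed (F i j)) ∧ A = ⋂ i, ⋃ j, F i j

/-- the boldface class `Σ⁰₄`: countable unions of `Π⁰₃` sets -/
def IsSigma04 {X : Type} [TopologicalSpace X] (A : Set X) : Prop :=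
  ∃ B : ℕ → Set X, (∀ i, IsPi03 (B i)) ∧ A = ⋃ i, B i

/-- the class `D₂(Π⁰₃)`: differences of two `Π⁰₃` sets -/
def IsD2 {X : Type} [TopologicalSpace X] (D : Set X) : Prop :=
  ∃ A B : Set X, IsPi03 A ∧ IsPi03 B ∧ D = A \ B

/-- Pisot numbers: real algebraic integers `θ > 1` whose other complex conjugates have modulus
less than one -/
def IsPisot (θ : ℝ) : Prop :=
  1 < θ ∧ IsIntegral ℤ θ ∧
    ∀ z : ℂ, Polynomial.aeval z (minpoly ℚ θ) = 0 → z ≠ (θ : ℂ) → ‖z‖ < 1

lemma pisot_countable : {α : ℝ | IsPisot |α|}.Countable := by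
  refine (Algebraic.countable ℤ ℝ).mono fun α hα => ?_
  have h : IsIntegral ℤ |α| := hα.2.1
  rcases abs_choice α with e | e <;> rw [e] at h
  · exact h.isAlgebraic
  · exact (neg_neg α ▸ h.neg : IsIntegral ℤ α).isAlgebraic

lemma pisot_nat {p : ℕ} (hp : 1 < p) : IsPisot |(p : ℝ)| := by
  rw [Nat.abs_cast]
  refine ⟨by exact_mod_cast hp, isIntegral_natCast p, fun z hz hne => absurd ?_ hne⟩
  have : minpoly ℚ (p : ℝ) = Polynomial.X - Polynomial.C (p : ℚ) := by
    simpa using minpoly.eq_X_sub_C ℝ (p : ℚ)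
  rw [this] at hz
  simpa [sub_eq_zero] using hz

end Pool.Agent.H365Z.NorDefs
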