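import Pool.Agent.H365Z.Nor.Master

/-! Descriptive set theory: the class `Pi3` of countable intersections of countable unions of
closed sets. -/

set_option autoImplicit false

open Filter Topology Set TopologicalSpace

namespace Pool.Agent.H365Z.Nor

/-- countable intersections of countable unions of closed sets -/
def Pi3 {Y : Type*} [TopologicalSpace Y] (A : Set Y) : Prop :=
  ∃ F : ℕ → ℕ → Set Y, (∀ i j, IsClosed (F i j)) ∧ A = ⋂ i, ⋃ j, F i j

section basic
variable {Y Z : Type*} [TopologicalSpace Y] [TopologicalSpace Z]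

lemma Pi3.of_countable {ι : Type*} [Countable ι] [Nonempty ι] (F : ι → ℕ → Set Y)
    (hF : ∀ i j, IsClosed (F i j)) : Pi3 (⋂ i, ⋃ j, F i j) := by
  obtain ⟨e, he⟩ := exists_surjective_nat ι
  exact ⟨fun i => F (e i), fun i => hF _, (he.iInter_comp fun i => ⋃ j, F i j).symm⟩

lemma Pi3.iInter {ι : Type*} [Countable ι] [Nonempty ι] {A : ι → Set Y} (h : ∀ i, Pi3 (A i)) :
    Pi3 (⋂ i, A i) := by
  choose F hF hA using h
  have := Pi3.of_countable (fun p : ι × ℕ => F p.1 p.2) fun p => hF p.1 p.2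
  convert this using 1
  ext y
  simp only [mem_iInter, hA, Prod.forall]

lemma Pi3.preimage {A : Set Z} (h : Pi3 A) {f : Y → Z} (hf : Continuous f) : Pi3 (f ⁻¹' A) := by
  obtain ⟨F, hF, rfl⟩ := h
  exact ⟨fun i j => f ⁻¹' F i j, fun i j => (hF i j).preimage hf, by
    simp only [preimage_iInter, preimage_iUnion]⟩

lemma Pi3.ud {g : Y → ℕ → ℝ} (hg : ∀ n, Continuous fun y => g y n) : Pi3 {y | UD (g y)} := by
  have := Pi3.of_countable (Y := Y) (fun (p : ℤ × ℕ) (N₀ : ℕ) => {y | p.1 ≠ 0 → ∀ N, N₀ ≤ N →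
    ‖(∑ n ∈ Finset.range N, ee (p.1 * g y n)) / (N : ℂ)‖ ≤ 1 / ((p.2 : ℝ) + 1)}) (by
      intro p N₀
      simp only [setOf_forall]
      refine isClosed_iInter fun _ => isClosed_iInter fun N => isClosed_iInter fun _ =>
        isClosed_le ?_ continuous_const
      exact ((continuous_finset_sum _ fun n _ =>
        ee_cont.comp (continuous_const.mul (hg n))).div_const _).norm)
  convert this using 1
  ext y
  simp only [mem_setOf_eq, mem_iInter, mem_iUnion, UD_iff, WeylC]
  constructor
  · rintro h ⟨k, m⟩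
    by_cases hk : k = 0
    · exact ⟨0, fun h' => absurd hk h'⟩
    obtain ⟨N₀, hN⟩ := eventually_atTop.1 (NormedAddGroup.tendsto_nhds_zero.1 (h k hk)
      (1 / ((m : ℝ) + 1)) (by positivity))
    exact ⟨N₀, fun _ N hN' => (hN N hN').le⟩
  · intro h k hk
    rw [NormedAddGroup.tendsto_nhds_zero]
    intro ε hε
    obtain ⟨m, hm⟩ := exists_nat_one_div_lt hε
    obtain ⟨N₀, hN⟩ := h (k, m)
    exact eventually_atTop.2 ⟨N₀, fun N hN' => (hN hk N hN').trans_lt hm⟩

lemma lc_find {p : Y → ℕ → Prop} [∀ y, DecidablePred (p y)] (hp : ∀ n, IsClopen {y | p y n})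
    (h : ∀ y, ∃ n, p y n) : Continuous fun y => Nat.find (h y) := by
  refine (IsLocallyConstant.iff_isOpen_fiber.2 fun n => ?_).continuous
  have : (fun y => Nat.find (h y)) ⁻¹' {n} =
      {y | p y n} ∩ ⋂ m ∈ Finset.range n, {y | p y m}ᶜ := by
    ext y
    simp [Nat.find_eq_iff]
  rw [this]
  exact (hp n).2.inter (isOpen_biInter_finset fun m _ => (hp m).1.isOpen_compl)

lemma clopen_seq [SecondCountableTopology Y] (hY : IsTopologicalBasis {s : Set Y | IsClopen s})
    {F : Set Y} (hF : IsClosed F) : ∃ C : ℕ → Set Y, (∀ s, IsClopen (C s)) ∧ F = ⋂ s, C s := by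
  obtain ⟨T, hT, hT1, hT2⟩ := isOpen_sUnion_countable {s : Set Y | IsClopen s ∧ s ⊆ Fᶜ}
    fun s hs => hs.1.2
  obtain ⟨e, he⟩ := (hT.insert ∅).exists_eq_range (insert_nonempty _ _)
  refine ⟨fun s => (e s)ᶜ, fun s => ?_, ?_⟩
  · have : e s ∈ insert ∅ T := he ▸ mem_range_self s
    rcases this with h | h
    · exact (h ▸ isClopen_empty : IsClopen (e s)).compl
    · exact (hT1 h).1.compl
  · rw [← compl_iUnion, ← sUnion_range, ← he, sUnion_insert, empty_union, hT2, eq_compl_comm]
    exact (hY.open_eq_sUnion' hF.isOpen_compl).symm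

lemma Pi3.reduce [SecondCountableTopology Y] (hY : IsTopologicalBasis {s : Set Y | IsClopen s})
    {B : Set Y} (hB : Pi3 B) :
    ∃ x : Y → ℕ → ℕ, Continuous x ∧ ∀ y, y ∈ B ↔ Tendsto (x y) atTop atTop := by
  classical
  obtain ⟨F, hF, rfl⟩ := hB
  choose C hC hFC using fun i j => clopen_seq hY (hF i j)
  have ex : ∀ i s y, ∃ j, s < j ∨ ∀ t ∈ Finset.range s, y ∈ C i j t :=
    fun i s y => ⟨s + 1, Or.inl (Nat.lt_succ_self s)⟩
  let m : ℕ → ℕ → Y → ℕ := fun i s y => Nat.find (ex i s y)
  have mc : ∀ i s, Continuous (m i s) := fun i s => lc_find (fun j => by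
    refine IsClopen.union (s := {_y | s < j}) (t := {y | ∀ t ∈ Finset.range s, y ∈ C i j t})
      ⟨isClosed_const, isOpen_const⟩ ?_
    have := isClopen_biInter_finset (s := Finset.range s) (f := fun t => C i j t)
      fun t _ => hC i j t
    convert this using 1
    ext y; simp) (ex i s)
  have mono : ∀ i y, Monotone fun s => m i s y := fun i y => monotone_nat_of_le_succ fun s =>
    Nat.find_mono fun j hj => by
      rcases hj with h | h
      · exact Or.inl (by omega)
      · exact Or.inr fun t ht => h t (Finset.mem_range.2 (by have := Finset.mem_range.1 ht; omega))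
  have ex2 : ∀ s y, ∃ i, i = s ∨ m i (s + 1) y ≠ m i s y := fun s y => ⟨s, Or.inl rfl⟩
  refine ⟨fun y s => Nat.find (ex2 s y), continuous_pi fun s => lc_find (fun i => ?_) (ex2 s),
    fun y => ?_⟩
  · refine IsClopen.union (s := {_y | i = s}) (t := {y | m i (s + 1) y ≠ m i s y})
      ⟨isClosed_const, isOpen_const⟩ ?_
    exact (isClopen_discrete {p : ℕ × ℕ | p.1 ≠ p.2}).preimage ((mc i (s + 1)).prodMk (mc i s))
  have key : ∀ i, (∃ j, y ∈ F i j) ↔ ∀ᶠ s in atTop, m i (s + 1) y = m i s y := by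
    intro i
    constructor
    · rintro ⟨j, hj⟩
      have hb : ∀ s, m i s y ≤ j := fun s => Nat.find_min' _ (Or.inr fun t _ => by
        rw [hFC] at hj; exact mem_iInter.1 hj t)
      obtain ⟨b, N, hN⟩ := converges_of_monotone_of_bounded (mono i y) hb
      exact eventually_atTop.2 ⟨N, fun s hs => by rw [hN s hs, hN (s + 1) (by omega)]⟩
    · intro h
      obtain ⟨N, hN⟩ := eventually_atTop.1 h
      have h1 : ∀ s, N ≤ s → m i s y = m i N y := fun s hs => by
        induction s, hs using Nat.le_induction with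
        | base => rfl
        | succ s hs ih => rw [hN s hs, ih]
      refine ⟨m i N y, ?_⟩
      rw [hFC, mem_iInter]
      intro t
      have h2 := Nat.find_spec (ex i (N + m i N y + t + 1) y)
      have h3 : Nat.find (ex i (N + m i N y + t + 1) y) = m i N y := h1 _ (by omega)
      rw [h3] at h2
      exact h2.resolve_left (by omega) t (Finset.mem_range.2 (by omega))
  simp only [mem_iInter, mem_iUnion, key]
  constructor
  · intro h
    refine tendsto_atTop.2 fun M => ?_
    filter_upwards [(Filter.eventually_all_finset (Finset.range M)).2 fun i _ => h i,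
      eventually_ge_atTop M] with s h1 h2
    refine (Nat.le_find_iff _ _).2 fun i hi => ?_
    rintro (h3 | h3)
    · omega
    · exact h3 (h1 i (Finset.mem_range.2 hi))
  · intro h i
    filter_upwards [h.eventually_gt_atTop i] with s hs
    by_contra h3
    exact Nat.find_min (ex2 s y) hs (Or.inr h3)

end basic

lemma baire_basis : IsTopologicalBasis {s : Set (ℕ → ℕ) | IsClopen s} := by
  refine isTopologicalBasis_of_isOpen_of_nhds (fun s hs => hs.2) fun y U hy hU => ?_
  obtain ⟨I, u, h1, h2⟩ := isOpen_pi_iff.1 hU y hy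
  exact ⟨(I : Set ℕ).pi u, ⟨isClosed_set_pi fun i _ => isClosed_discrete _,
    isOpen_set_pi I.finite_toSet fun i _ => isOpen_discrete _⟩, fun i hi => (h1 i hi).2, h2⟩

/-- the universal set, evaluated on a parameter `p` and a point `y` -/
def Univ (b : Bool) (p y : ℕ → ℕ) : Prop :=
  ∀ i : ℕ, ∃ j : ℕ, ∀ l : ℕ, p (Encodable.encode (b, i, j, (List.range l).map y)) = 0

lemma Univ_diag (b : Bool) : Pi3 {p | Univ b p p} := by
  refine ⟨fun i j => {p | ∀ l : ℕ, p (Encodable.encode (b, i, j, (List.range l).map p)) = 0},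
    fun i j => ?_, by ext p; simp [Univ]⟩
  simp only [setOf_forall]
  refine isClosed_iInter fun l => isClosed_eq ?_ continuous_const
  have h1 : IsLocallyConstant fun p : ℕ → ℕ => (List.range l).map p := by
    induction l with
    | zero => exact IsLocallyConstant.const _
    | succ l ih =>
      have : IsLocallyConstant fun p : ℕ → ℕ => p l :=
        (IsLocallyConstant.iff_continuous _).2 (continuous_apply l)
      simpa [List.range_succ, Function.comp_def] using
        (ih.prodMk this).comp fun q => q.1 ++ [q.2]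
  have h2 : Continuous fun p : ℕ → ℕ => Encodable.encode (b, i, j, (List.range l).map p) :=
    (h1.comp fun v => Encodable.encode (b, i, j, v)).continuous
  have h3 : Continuous fun q : ℕ × (ℕ → ℕ) => q.2 q.1 :=
    continuous_prod_of_discrete_left.2 fun n => continuous_apply n
  exact h3.comp (h2.prodMk continuous_id)

lemma Univ_univ (B : Bool → Set (ℕ → ℕ)) (hB : ∀ b, Pi3 (B b)) :
    ∃ p, ∀ b y, Univ b p y ↔ y ∈ B b := by
  classical
  choose F hF hA using hB
  refine ⟨fun c => if ∃ (b : Bool) (i j l : ℕ) (z : ℕ → ℕ), z ∈ F b i j ∧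
    c = Encodable.encode (b, i, j, (List.range l).map z) then 0 else 1, fun b y => ?_⟩
  rw [hA, mem_iInter]
  refine forall_congr' fun i => ?_
  rw [mem_iUnion]
  refine exists_congr fun j => ⟨fun h => ?_, fun h l => if_pos ⟨b, i, j, l, y, h, rfl⟩⟩
  have : ∀ l, ∃ z ∈ F b i j, ∀ t < l, z t = y t := by
    intro l
    have h1 := h l
    simp only at h1
    split_ifs at h1 with h2
    obtain ⟨b', i', j', l', z, hz, e⟩ := h2
    have e' := Encodable.encode_injective e
    simp only [Prod.mk.injEq] at e'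
    obtain ⟨rfl, rfl, rfl, e'⟩ := e'
    have e2 := congrArg List.length e'
    simp only [List.length_map, List.length_range] at e2
    subst e2
    exact ⟨z, hz, fun t ht => (List.map_inj_left.1 e' t (List.mem_range.2 ht)).symm⟩
  choose z hz1 hz2 using this
  refine (hF b i j).mem_of_tendsto (f := z) (b := atTop) ?_ (Eventually.of_forall hz1)
  refine tendsto_pi_nhds.2 fun t => tendsto_const_nhds.congr' ?_
  filter_upwards [eventually_gt_atTop t] with l hl using (hz2 l t hl).symm

/-- differences of two `Pi3` sets -/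
def D2 {Y : Type*} [TopologicalSpace Y] (D : Set Y) : Prop :=
  ∃ A B : Set Y, Pi3 A ∧ Pi3 B ∧ D = A \ B

lemma exists_hard : ∃ A B : Set (ℕ → ℕ), Pi3 A ∧ Pi3 B ∧ ¬ D2 (A \ B)ᶜ := by
  refine ⟨_, _, Univ_diag true, Univ_diag false, ?_⟩
  rintro ⟨A, B, hA, hB, h⟩
  obtain ⟨p, hp⟩ := Univ_univ (fun b => if b then A else B) (by rintro (_ | _); exacts [hB, hA])
  have h1 := Set.ext_iff.1 h p
  have h2 := hp true p
  have h3 := hp false p
  simp only [mem_compl_iff, mem_diff, mem_setOf_eq] at h1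
  simp only [if_true, Bool.false_eq_true, if_false] at h2 h3
  rw [h2, h3] at h1
  exact not_iff_self h1

section main
variable {Y : Type*} [TopologicalSpace Y] [SecondCountableTopology Y]

/-- simultaneous reduction of a sequence of `Pi3` sets -/
theorem reduce_seq (hY : IsTopologicalBasis {s : Set Y | IsClopen s})
    (α : ℕ → ℝ) (hα : ∀ j, 1 < |α j|) (B : ℕ → Set Y) (hB : ∀ j, Pi3 (B j)) :
    ∃ f : Y → ℝ, Continuous f ∧ (∀ y j, y ∉ B j → ¬ UD fun n => f y * α j ^ n) ∧
      ∀ y i, (∀ j, ¬ Ind (α i) (α j) → y ∈ B j) → UD fun n => f y * α i ^ n := by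
  obtain ⟨f, hf, h1, h2⟩ := master α hα
  choose x hx hx' using fun j => (hB j).reduce hY
  exact ⟨fun y => f fun j => x j y, hf.comp (continuous_pi hx),
    fun y j hy => h1 _ j fun h => hy ((hx' j y).2 h),
    fun y i hy => h2 _ i fun j hj => (hx' j y).1 (hy j hj)⟩

theorem reduce_one (hY : IsTopologicalBasis {s : Set Y | IsClopen s})
    {α : ℝ} (hα : 1 < |α|) {B : Set Y} (hB : Pi3 B) :
    ∃ f : Y → ℝ, Continuous f ∧ ∀ y, (UD fun n => f y * α ^ n) ↔ y ∈ B := by
  obtain ⟨f, hf, h1, h2⟩ := reduce_seq hY (fun _ => α) (fun _ => hα) (fun _ => B) fun _ => hB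
  exact ⟨f, hf, fun y => ⟨fun h => by_contra fun hy => h1 y 0 hy h,
    fun hy => h2 y 0 fun _ _ => hy⟩⟩

lemma Ind.symm {a b : ℝ} (h : Ind a b) : Ind b a := by
  unfold Ind at *
  rw [← inv_div]
  exact h.inv

theorem reduce_two (hY : IsTopologicalBasis {s : Set Y | IsClopen s})
    {α β : ℝ} (hα : 1 < |α|) (hβ : 1 < |β|) (h : Ind α β) {A B : Set Y} (hA : Pi3 A)
    (hB : Pi3 B) : ∃ f : Y → ℝ, Continuous f ∧ (∀ y, (UD fun n => f y * α ^ n) ↔ y ∈ A) ∧
      ∀ y, (UD fun n => f y * β ^ n) ↔ y ∈ B := by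
  obtain ⟨f, hf, h1, h2⟩ := reduce_seq hY (fun j => Nat.casesOn j α fun _ => β)
    (fun j => by cases j; exacts [hα, hβ]) (fun j => Nat.casesOn j A fun _ => B)
    fun j => by cases j; exacts [hA, hB]
  refine ⟨f, hf, fun y => ⟨fun h => by_contra fun hy => h1 y 0 hy h, fun hy => h2 y 0 ?_⟩,
    fun y => ⟨fun h => by_contra fun hy => h1 y 1 hy h, fun hy => h2 y 1 ?_⟩⟩
  · rintro (_ | j) hj
    · exact hy
    · exact absurd h hj
  · rintro (_ | j) hj
    · exact absurd h.symm hj
    · exact hy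

end main

/-- the difference of two sets pulled back along a map from the line is hard -/
theorem diff_hard {X : Type*} [TopologicalSpace X] {α β : ℝ} (hα : 1 < |α|) (hβ : 1 < |β|)
    (h : Ind α β) {e : ℝ → X} (he : Continuous e) {A B : Set X}
    (hA : ∀ ξ, e ξ ∈ A ↔ UD fun n => ξ * α ^ n) (hB : ∀ ξ, e ξ ∈ B ↔ UD fun n => ξ * β ^ n) :
    ¬ D2 (A \ B)ᶜ := by
  obtain ⟨A', B', hA', hB', hD⟩ := exists_hard
  obtain ⟨f, hf, h1, h2⟩ := reduce_two baire_basis hα hβ h hA' hB'
  rintro ⟨C, D, hC, hD', hCD⟩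
  refine hD ⟨_, _, hC.preimage (he.comp hf), hD'.preimage (he.comp hf), ?_⟩
  rw [← preimage_diff, ← hCD]
  ext y
  simp [hA, hB, h1, h2]

end Pool.Agent.H365Z.Nor
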