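import Pool.Agent.H365Z.Nor.Kap

/-! Windows for a transcendental base: Riesz products with a phase. -/

set_option autoImplicit false

open Filter Topology MeasureTheory Set

namespace Pool.Agent.H365Z.Nor

lemma ee_sum {ι : Type} (I : Finset ι) (f : ι → ℝ) : ee (∑ i ∈ I, f i) = ∏ i ∈ I, ee (f i) := by
  classical
  induction I using Finset.induction_on with
  | empty => simp [ee_zero]
  | insert i I hi ih => rw [Finset.sum_insert hi, Finset.prod_insert hi, ee_add, ih]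

lemma lac {A : ℝ} (hA : 8 ≤ A) (K : ℕ) : ∀ c : Fin K → ℤ, (∀ k, |c k| ≤ 2) →
    |∑ k, (c k : ℝ) * A ^ (k : ℕ)| ≤ A ^ K / 3 ∧
      (c ≠ 0 → 1 / 2 ≤ |∑ k, (c k : ℝ) * A ^ (k : ℕ)|) := by
  induction K with
  | zero => exact fun c _ => ⟨by simp, fun h => absurd (Subsingleton.elim _ _) h⟩
  | succ K ih =>
    intro c hc
    obtain ⟨i1, i2⟩ := ih (fun k => c k.castSucc) fun k => hc _
    have p1 : 1 ≤ A ^ K := one_le_pow₀ (by linarith)
    have a1 : |(c (Fin.last K) : ℝ)| ≤ 2 := by exact_mod_cast hc _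
    have a2 : |(c (Fin.last K) : ℝ) * A ^ K| = |(c (Fin.last K) : ℝ)| * A ^ K := by
      rw [abs_mul, abs_of_pos (show 0 < A ^ K by linarith)]
    simp only [Fin.sum_univ_castSucc, Fin.val_castSucc, Fin.val_last]
    refine ⟨(abs_add_le _ _).trans ?_, fun h0 => ?_⟩
    · rw [a2, pow_succ]
      nlinarith
    · by_cases hl : c (Fin.last K) = 0
      · rw [hl, Int.cast_zero, zero_mul, add_zero]
        refine i2 fun h => h0 (funext fun k => ?_)
        induction k using Fin.lastCases with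
        | last => exact hl
        | cast k => exact congrFun h k
      · have a3 : (1 : ℝ) ≤ |(c (Fin.last K) : ℝ)| := by exact_mod_cast Int.one_le_abs hl
        have a4 := abs_sub ((∑ k : Fin K, (c k.castSucc : ℝ) * A ^ (k : ℕ)) +
          (c (Fin.last K) : ℝ) * A ^ K) (∑ k : Fin K, (c k.castSucc : ℝ) * A ^ (k : ℕ))
        rw [add_sub_cancel_left, a2] at a4
        nlinarith

noncomputable def wt (e : ℤ) : ℝ := if e = 0 then 1 else 1 / 2

lemma wt_nonneg (e : ℤ) : 0 ≤ wt e := by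
  unfold wt
  split_ifs <;> norm_num

/-- the Riesz product with a phase -/
noncomputable def rq (ν A φ₀ : ℝ) (K : ℕ) (u : ℝ) : ℝ :=
  ∏ k : Fin K, (1 + Real.cos (2 * Real.pi * (ν * A ^ (k : ℕ) * u - φ₀)))

noncomputable def rB (φ₀ : ℝ) {K : ℕ} (c : Fin K → ℤ) : ℂ :=
  ∏ k, (wt (c k) : ℂ) * ee (-(c k * φ₀))

noncomputable def rs (ν A : ℝ) {K : ℕ} (c : Fin K → ℤ) : ℝ := ν * ∑ k, (c k : ℝ) * A ^ (k : ℕ)

def rI (K : ℕ) : Finset (Fin K → ℤ) := Fintype.piFinset fun _ => {-1, 0, 1}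

lemma mem_rI {K : ℕ} {c : Fin K → ℤ} : c ∈ rI K ↔ ∀ k, |c k| ≤ 1 := by
  simp only [rI, Fintype.mem_piFinset, Finset.mem_insert, Finset.mem_singleton, abs_le]
  exact forall_congr' fun k => by omega

lemma rq_exp (ν A φ₀ : ℝ) (K : ℕ) (u : ℝ) :
    (rq ν A φ₀ K u : ℂ) = ∑ c ∈ rI K, rB φ₀ c * ee (rs ν A c * u) := by
  have h : ∀ y : ℝ, ((1 + Real.cos (2 * Real.pi * y) : ℝ) : ℂ) =
      ∑ e ∈ ({-1, 0, 1} : Finset ℤ), (wt e : ℂ) * ee (e * y) := fun y => by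
    rw [Complex.ofReal_add, cos_eq]
    simp [wt, ee_zero]
    ring
  simp only [rq, Complex.ofReal_prod, h]
  rw [Finset.prod_univ_sum]
  refine Finset.sum_congr rfl fun c _ => ?_
  rw [rB, rs, Finset.mul_sum, Finset.sum_mul, ee_sum, ← Finset.prod_mul_distrib]
  refine Finset.prod_congr rfl fun k _ => ?_
  rw [mul_assoc (wt (c k) : ℂ), ← ee_add]
  congr 2
  ring

lemma rB_norm (φ₀ : ℝ) {K : ℕ} (c : Fin K → ℤ) : ‖rB φ₀ c‖ = ∏ k, wt (c k) := by
  rw [rB, norm_prod]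
  exact Finset.prod_congr rfl fun k _ => by
    rw [norm_mul, norm_ee, mul_one, Complex.norm_real, Real.norm_of_nonneg (wt_nonneg _)]

lemma rB_sum (φ₀ : ℝ) (K : ℕ) : ∑ c ∈ rI K, ‖rB φ₀ c‖ = 2 ^ K := by
  simp only [rB_norm]
  rw [rI, ← Finset.prod_univ_sum (fun _ => ({-1, 0, 1} : Finset ℤ)) fun _ e => wt e]
  simp [wt]
  norm_num

lemma rB_card (φ₀ : ℝ) {K : ℕ} (c : Fin K → ℤ) :
    ‖rB φ₀ c‖ = (1 / 2) ^ (Finset.univ.filter fun k => c k ≠ 0).card := by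
  rw [rB_norm]
  simp [wt, Finset.prod_ite]

lemma rB_single (φ₀ : ℝ) {K : ℕ} (k : Fin K) {e : ℤ} (he : e ≠ 0) :
    rB φ₀ (Pi.single k (-e)) = ee (e * φ₀) / 2 := by
  rw [rB, Finset.prod_eq_single k (fun j _ hj => by simp [Pi.single_eq_of_ne hj, wt, ee_zero])
    fun h => absurd (Finset.mem_univ k) h]
  simp [wt, he]
  ring

lemma rs_single (ν A : ℝ) {K : ℕ} (k : Fin K) (e : ℤ) :
    rs ν A (Pi.single k e) = ν * (e * A ^ (k : ℕ)) := by
  rw [rs, Finset.sum_eq_single k (fun j _ hj => by simp [Pi.single_eq_of_ne hj])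
    fun h => absurd (Finset.mem_univ k) h]
  simp

lemma rs_sep {ν A : ℝ} (hν : 1 ≤ |ν|) (hA : 8 ≤ A) {K : ℕ} {c c' : Fin K → ℤ} (hc : c ∈ rI K)
    (hc' : c' ∈ rI K) (h : c ≠ c') : 1 / 2 ≤ |rs ν A c - rs ν A c'| := by
  have := (lac hA K (c - c') fun k => (abs_sub _ _).trans
    (add_le_add (mem_rI.1 hc k) (mem_rI.1 hc' k))).2 (sub_ne_zero.2 h)
  rw [rs, rs, ← mul_sub, ← Finset.sum_sub_distrib, abs_mul]
  simp only [Pi.sub_apply, Int.cast_sub, sub_mul] at this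
  exact this.trans (le_mul_of_one_le_left (abs_nonneg _) hν)

lemma sgn_of_abs {a b : ℝ} (h : |a| = b) : ∃ e : ℤ, (e = 1 ∨ e = -1) ∧ a = e * b := by
  rcases abs_choice a with h1 | h1
  · exact ⟨1, Or.inl rfl, by rw [← h, h1]; simp⟩
  · exact ⟨-1, Or.inr rfl, by rw [← h, h1]; simp⟩

lemma far_freq {θ : ℝ} {Q r K k₀ p : ℕ} (hQ : 1 ≤ Q) {g g' e : ℤ} (hg : g ≠ 0)
    (hg' : |g'| = |g|) (he : e = 1 ∨ e = -1)
    (hp : ∀ (ι : Type) (S : Finset ι) (c : ι → ℤ) (e : ι → ℕ), S.card ≤ k₀ →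
      (∀ j, |c j| ≤ 1) → g' + ∑ j ∈ S with e j = p, c j ≠ 0 →
        1 ≤ |g' * θ ^ p + ∑ j ∈ S, (c j : ℝ) * θ ^ e j|)
    (hit : ¬ (|g| = 1 ∧ ∃ k < K, r + Q * k = p)) (φ₀ : ℝ) {c : Fin K → ℤ} (hc : c ∈ rI K)
    (h : |g' * θ ^ p + rs (e * θ ^ r) (θ ^ Q) c| < 1) : ‖rB φ₀ c‖ ≤ (1 / 2) ^ k₀ := by
  rw [rB_card]
  refine pow_le_pow_of_le_one (by norm_num) (by norm_num) (le_of_not_ge fun hk => ?_)
  have c1 : ∀ k, |e * c k| ≤ 1 := fun k => by
    rcases he with rfl | rfl <;> simpa using mem_rI.1 hc k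
  refine absurd (hp _ _ (fun k => e * c k) (fun k => r + Q * k) hk c1 fun h0 => hit ?_)
    (not_le.2 (lt_of_eq_of_lt ?_ h))
  · set S := (Finset.univ.filter fun k => c k ≠ 0).filter fun k : Fin K => r + Q * k = p with hS
    have a1 : S.card ≤ 1 := Finset.card_le_one.2 fun a ha b hb => Fin.ext <|
      Nat.eq_of_mul_eq_mul_left hQ (Nat.add_left_cancel
        ((Finset.mem_filter.1 ha).2.trans (Finset.mem_filter.1 hb).2.symm))
    have a2 : |∑ k ∈ S, e * c k| ≤ S.card := by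
      simpa using (Finset.abs_sum_le_sum_abs _ _).trans
        (Finset.sum_le_card_nsmul S _ 1 fun k _ => c1 k)
    have a3 := Int.one_le_abs hg
    rw [← eq_neg_iff_add_eq_zero] at h0
    rw [h0, abs_neg] at hg'
    obtain ⟨k, hk⟩ : S.Nonempty := Finset.card_pos.1 (by omega)
    exact ⟨by omega, k, k.2, (Finset.mem_filter.1 hk).2⟩
  · congr 2
    rw [rs, Finset.mul_sum, Finset.sum_filter_of_ne (p := fun k => c k ≠ 0)
      fun k _ h h0 => h (by simp [h0])]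
    refine Finset.sum_congr rfl fun k _ => ?_
    push_cast
    rw [pow_add, pow_mul]
    ring

theorem riesz {θ : ℝ} (h1 : 1 < θ) (ht : Transcendental ℚ θ) {Q : ℕ} (hQ : 8 ≤ θ ^ Q) {r : ℕ}
    (hr : r < Q) {ν : ℝ} (hν : |ν| = θ ^ r) (φ₀ : ℝ) (H : Finset ℤ) (hH : ∀ g ∈ H, g ≠ 0) {ε : ℝ}
    (hε : 0 < ε) : ∀ᶠ K : ℕ in atTop, ∀ s, 0 ≤ s → ∀ x : ℝ, ∃ φ : ℝ → ℝ, Continuous φ ∧
      (∀ ξ, 0 ≤ φ ξ) ∧ ∫ ξ in x..(x + Real.exp (-s)), φ ξ = 1 ∧
      ∀ (δ : ℝ) (d : ℕ), 1 ≤ d → 2 * d ∣ Q → |δ| = θ ^ d → ∀ g ∈ H, ∀ c : ℂ,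
        ((¬ (d ∣ r ∧ |g| = 1) ∧ c = 0) ∨ |g| = 1 ∧ ∃ j, d * j = r ∧ ∃ a : ℤ, (a = 1 ∨ a = -1) ∧
          g * δ ^ j = a * ν ∧ c = ee (a * φ₀) / 2) →
        ‖(∫ ξ in x..(x + Real.exp (-s)),
          SS δ g s (s + ((Q * K : ℕ) + Q + (Q * K : ℕ)) * Real.log θ) ξ * (φ ξ : ℂ)) - K * c‖ ≤
            ε * K := by
  classical
  have hl := Real.log_pos h1
  have t0 : 0 < θ := by linarith
  have Q1 : 1 ≤ Q := by omega
  have ν1 : 1 ≤ |ν| := hν ▸ one_le_pow₀ h1.le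
  set η := min (ε / (3 * Q + 1)) 1 with hη
  have η0 : 0 < η := by positivity
  have η1 : η ≤ 1 := min_le_right _ _
  have η2 : η * (3 * Q + 1) ≤ ε := (le_div_iff₀ (by positivity)).1 (min_le_left _ _)
  obtain ⟨k₀, hk₀⟩ := exists_pow_lt_of_lt_one η0 (show (1 / 2 : ℝ) < 1 by norm_num)
  obtain ⟨p₀, hp₀⟩ := eventually_atTop.1 ((eventually_all_finset H).2 fun g _ =>
    ((tr3 h1 ht k₀ g).and (tr3 h1 ht k₀ (-g))).and
      ((tendsto_pow_atTop_atTop_of_one_lt h1).eventually_ge_atTop (4 * |(g : ℝ)|)))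
  filter_upwards [(tendsto_pow_atTop_nhds_zero_of_lt_one (show (0 : ℝ) ≤ 1 / 4 by norm_num)
    (by norm_num)).eventually_le_const (show 0 < η / 16 by positivity),
    tendsto_natCast_atTop_atTop.eventually_ge_atTop
      ((η * Q + 2 * (1 - θ⁻¹)⁻¹ + p₀ + (Q + 2) + 2 * p₀) / η)] with K n1 n2 s hs x
  rw [div_le_iff₀ η0] at n2
  obtain ⟨J, J1, J2, J3⟩ := exists_J h1 Q1 hs (Q * K)
  have L0 : 0 < θ ^ J := by positivity
  have hR : 2 ^ K * (Real.exp s / θ ^ J / (1 / 4)) ≤ η / 4 := by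
    have a1 : Real.exp s * (θ ^ Q) ^ K ≤ θ ^ J := by
      rw [← pow_mul, ← Real.exp_log L0, ← Real.exp_log (pow_pos t0 (Q * K)), ← Real.exp_add,
        Real.log_pow, Real.log_pow]
      exact Real.exp_le_exp.2 J2
    have a2 : Real.exp s / θ ^ J ≤ (1 / 8) ^ K := by
      rw [div_le_iff₀ L0, one_div, inv_pow, ← div_eq_inv_mul, le_div_iff₀ (by positivity)]
      exact le_trans (by gcongr) a1
    calc _ ≤ (2 : ℝ) ^ K * ((1 / 8) ^ K / (1 / 4)) := by gcongr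
      _ = 4 * (1 / 4) ^ K := by rw [← mul_div_assoc, ← mul_pow]; norm_num; ring
      _ ≤ _ := by linarith
  have nr : ∀ t, ∀ c ∈ rI K, |t + rs ν (θ ^ Q) c| ≤ 1 / 4 →
      ‖∑ i ∈ rI K, rB φ₀ i * kap x s (θ ^ J) 0 (t + rs ν (θ ^ Q) i) -
        rB φ₀ c * kap x s (θ ^ J) 0 (t + rs ν (θ ^ Q) c)‖ ≤ η / 4 := fun t c hc h => by
    have := near (rI K) (rB φ₀) (rs ν (θ ^ Q)) x s 0 L0 (μ := 1 / 4) (by norm_num)
      (fun i => i = c) t fun i hi hne => by
        have a1 := rs_sep ν1 hQ hi hc hne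
        have a2 := abs_sub (t + rs ν (θ ^ Q) i) (t + rs ν (θ ^ Q) c)
        rw [add_sub_add_left_eq_sub] at a2
        linarith
    rw [rB_sum, Finset.filter_eq', if_pos hc, Finset.sum_singleton] at this
    exact this.trans hR
  have s0 : rs ν (θ ^ Q) (0 : Fin K → ℤ) = 0 := by simp [rs]
  have b0 : rB φ₀ (0 : Fin K → ℤ) = 1 := by simp [rB, wt, ee_zero]
  have i0 : (0 : Fin K → ℤ) ∈ rI K := mem_rI.2 (by simp)
  obtain ⟨Z, Z1, -, Z3⟩ := dens (rI K) (rB φ₀) (rs ν (θ ^ Q)) x s (θ ^ J) 0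
    (Φ := rq ν (θ ^ Q) φ₀ K) (by unfold rq; fun_prop)
    (fun u => Finset.prod_nonneg fun _ _ => neg_le_iff_add_nonneg'.1 (Real.neg_one_le_cos _))
    (rq_exp _ _ _ _)
  have Z2 := nr 0 0 i0 (by simp [s0])
  rw [← Z1, s0, b0, add_zero, kap_zero, mul_one] at Z2
  have Z4 : 1 / 2 ≤ Z := by
    rw [← Complex.ofReal_one, ← Complex.ofReal_sub, Complex.norm_real, Real.norm_eq_abs] at Z2
    linarith [(abs_le.1 Z2).1]
  have Z0 : 0 < Z := by linarith
  obtain ⟨φ, c1, c2, c3, c4, -⟩ := Z3 Z0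
  have nz : ∀ (t : ℝ) (y : ℂ), ‖y‖ ≤ 1 →
      ‖∑ i ∈ rI K, rB φ₀ i * kap x s (θ ^ J) 0 (t + rs ν (θ ^ Q) i) - y‖ ≤ η / 4 →
      ‖(∫ ξ in x..(x + Real.exp (-s)), ee (t * (θ ^ J * ξ - 0)) * (φ ξ : ℂ)) - y‖ ≤ η := by
    intro t y hy h
    have : (Z : ℂ) ≠ 0 := by exact_mod_cast Z0.ne'
    rw [c4, show ∀ a : ℂ, a / Z - y = (a - y - y * (Z - 1)) / Z from fun a => by field_simp; ring,
      norm_div, Complex.norm_real, Real.norm_of_nonneg Z0.le, div_le_iff₀ Z0]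
    refine (norm_sub_le _ _).trans ?_
    rw [norm_mul]
    nlinarith [mul_le_mul hy Z2 (norm_nonneg _) zero_le_one]
  refine ⟨φ, c1, c2, c3, fun δ d hd hdQ hδ g hg c hc => ?_⟩
  obtain ⟨i₁, rfl⟩ := hdQ.trans J1
  have eJ : 2 * d * i₁ = d * (2 * i₁) := by ring
  have g1 : (1 : ℝ) ≤ |(g : ℝ)| := by exact_mod_cast Int.one_le_abs (hH g hg)
  have e2 : ∀ i, |δ ^ i| = θ ^ (d * i) := fun i => by rw [abs_pow, hδ, pow_mul]
  set m : ℕ → ℂ := fun i => ∫ ξ in x..(x + Real.exp (-s)), ee (g * (ξ * δ ^ i)) * (φ ξ : ℂ)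
    with hm
  have m1 : ∀ i, ‖m i‖ ≤ 1 := fun i => by
    simpa only [c3, mul_one] using mean_le (x := x) (C := 1) (Real.exp_pos (-s)).le c1 c2
      (F := fun ξ => ee (g * (ξ * δ ^ i))) fun ξ => (norm_ee _).le
  have sp := split h1 hd hδ (Q := Q) (i₀ := 2 * i₁) (G := Q * K) (n := Q * K) (e₀ := p₀)
    (eJ ▸ J2) (eJ ▸ J3) η0.le m m1 fun i hi => by
      set γ := g * δ ^ i / θ ^ (2 * d * i₁) with hγ
      have e1 : m i =
          ∫ ξ in x..(x + Real.exp (-s)), ee (γ * (θ ^ (2 * d * i₁) * ξ - 0)) * (φ ξ : ℂ) := by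
        refine intervalIntegral.integral_congr fun ξ _ => ?_
        congr 2
        rw [hγ]
        field_simp
        ring
      have p0 : 0 < θ ^ (d * i) := by positivity
      have e4 : |γ| = |(g : ℝ)| * θ ^ (d * i) / θ ^ (2 * d * i₁) := by
        rw [hγ, abs_div, abs_mul, e2, abs_of_pos L0]
      have a2 : ‖kap x s (θ ^ (2 * d * i₁)) 0 γ‖ ≤ Real.exp s / θ ^ (d * i) := by
        refine (kap_le x s 0 L0 (abs_pos.1 (by rw [e4]; positivity))).trans ?_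
        rw [e4, div_div_div_cancel_right₀ L0.ne']
        exact div_le_div_of_nonneg_left (Real.exp_pos s).le p0 (le_mul_of_one_le_left p0.le g1)
      have a1 := nr γ 0 i0 (by
        have a3 := mul_le_mul_of_nonneg_left (hp₀ p₀ le_rfl g hg).2 p0.le
        have a4 := pow_le_pow_right₀ h1.le hi
        rw [pow_add, ← eJ] at a4
        rw [s0, add_zero, e4, div_le_iff₀ L0]
        linarith)
      rw [s0, b0, add_zero, one_mul] at a1
      have a3 := (norm_sub_norm_le _ _).trans (nz γ _ (kap_le_one _ _ _ _ _) a1)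
      rw [e1]
      linarith [norm_nonneg (kap x s (θ ^ (2 * d * i₁)) 0 γ)]
  rw [← int_SS _ _ _ _ _ _ c1] at sp
  obtain ⟨q, rfl⟩ := hdQ
  have q1 : 0 < q := Nat.pos_of_mul_pos_left Q1
  have eQ : 2 * d * q * K / d = 2 * q * K := by
    rw [show 2 * d * q * K = d * (2 * q * K) by ring, Nat.mul_div_cancel_left _ hd]
  have e1 : ∀ j, m (2 * i₁ + j) = ∫ ξ in x..(x + Real.exp (-s)),
      ee (g * δ ^ j * (θ ^ (2 * d * i₁) * ξ - 0)) * (φ ξ : ℂ) := fun j =>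
    intervalIntegral.integral_congr fun ξ _ => by
      rw [pow_add, pow_even hδ, eJ]
      congr 2
      ring
  let Hit : ℕ → Prop := fun j => |g| = 1 ∧ ∃ k < K, r + 2 * d * q * k = d * j
  have c0 : ‖c‖ ≤ 1 := by
    rcases hc with ⟨-, rfl⟩ | ⟨-, j, -, a, -, -, rfl⟩
    · simp
    · rw [norm_div, norm_ee]; norm_num
  have cnt : ∑ j ∈ Finset.range (2 * q * K), (if Hit j then c else 0) = K * c := by
    rcases hc with ⟨-, rfl⟩ | ⟨hg1, j₀, rfl, -⟩
    · simp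
    · have hj₀ : j₀ < 2 * q := Nat.lt_of_mul_lt_mul_left (a := d) (by linarith)
      have : (Finset.range (2 * q * K)).filter Hit =
          (Finset.range K).image fun k => j₀ + 2 * q * k := by
        ext j
        simp only [Finset.mem_filter, Finset.mem_range, Finset.mem_image, Hit, hg1, true_and]
        constructor
        · rintro ⟨-, k, hk, e⟩
          exact ⟨k, hk, Nat.eq_of_mul_eq_mul_left hd (by linarith)⟩
        · rintro ⟨k, hk, rfl⟩
          exact ⟨by nlinarith, k, hk, by ring⟩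
      rw [← Finset.sum_filter, this, Finset.sum_const, Finset.card_image_of_injective _
        fun a b h => Nat.eq_of_mul_eq_mul_left (by omega) (Nat.add_left_cancel h),
        Finset.card_range, nsmul_eq_mul]
  have tm : ∀ j ∈ Finset.range (2 * q * K), ‖m (2 * i₁ + j) - if Hit j then c else 0‖ ≤
      2 * η + if j ∈ Finset.range p₀ then 2 else 0 := fun j _ => by
    by_cases hj : j ∈ Finset.range p₀
    · rw [if_pos hj]
      refine (norm_sub_le _ _).trans ?_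
      have : ‖if Hit j then c else 0‖ ≤ 1 := by split_ifs <;> simp [c0]
      linarith [m1 (2 * i₁ + j)]
    rw [if_neg hj, add_zero, e1]
    split_ifs with hh
    · obtain ⟨hg1, k, hk, e⟩ := hh
      rcases hc with ⟨hc, -⟩ | ⟨-, j₀, rfl, a, ha, e3, rfl⟩
      · exact absurd ⟨(Nat.dvd_add_left (Dvd.intro (2 * q * k) (by ring))).1
          (e ▸ Dvd.intro _ rfl), hg1⟩ hc
      have e4 : j = j₀ + 2 * (q * k) := Nat.eq_of_mul_eq_mul_left hd (by linarith)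
      have e5 : g * δ ^ j + rs ν (θ ^ (2 * d * q)) (Pi.single (⟨k, hk⟩ : Fin K) (-a)) = 0 := by
        rw [rs_single, e4, pow_add, ← mul_assoc, e3, pow_even hδ, ← pow_mul,
          show 2 * d * q * k = d * (2 * (q * k)) by ring]
        push_cast
        ring
      have a1 := nr (g * δ ^ j) (Pi.single (⟨k, hk⟩ : Fin K) (-a)) (mem_rI.2 fun i => by
        by_cases hi : i = ⟨k, hk⟩
        · rcases ha with rfl | rfl <;> simp [hi]
        · simp [Pi.single_eq_of_ne hi]) (by rw [e5]; norm_num)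
      rw [e5, kap_zero, mul_one, rB_single _ _ (by omega)] at a1
      linarith [nz _ _ c0 a1]
    · rw [sub_zero]
      by_cases hn : ∃ i ∈ rI K, |g * δ ^ j + rs ν (θ ^ (2 * d * q)) i| ≤ 1 / 4
      · obtain ⟨i, hi, a1⟩ := hn
        have a2 : ‖rB φ₀ i‖ ≤ (1 / 2) ^ k₀ := by
          obtain ⟨a, ha, e3⟩ := sgn_of_abs hν
          have a3 := (hp₀ (d * j) (le_trans (not_lt.1 (mt Finset.mem_range.2 hj))
            (Nat.le_mul_of_pos_left j hd)) g hg).1
          rw [e3] at a1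
          rcases (abs_eq (by positivity)).1 (e2 j) with e4 | e4 <;> rw [e4] at a1
          · exact far_freq Q1 (hH g hg) rfl ha a3.1 hh φ₀ hi (by linarith)
          · exact far_freq Q1 (hH g hg) (abs_neg g) ha a3.2 hh φ₀ hi
              (by rw [Int.cast_neg, neg_mul, ← mul_neg]; linarith)
        have a3 : ‖rB φ₀ i * kap x s (θ ^ (2 * d * i₁)) 0 (g * δ ^ j + rs ν (θ ^ (2 * d * q)) i)‖ ≤
            η := by
          rw [norm_mul]
          exact (mul_le_of_le_one_right (norm_nonneg _) (kap_le_one _ _ _ _ _)).trans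
            (a2.trans hk₀.le)
        linarith [(norm_sub_norm_le _ _).trans (nz _ _ (a3.trans η1) (nr _ _ hi a1))]
      · push Not at hn
        have a1 := near (rI K) (rB φ₀) (rs ν (θ ^ (2 * d * q))) x s 0 L0 (μ := 1 / 4)
          (by norm_num) (fun _ => False) (g * δ ^ j) fun i hi _ => (hn i hi).le
        rw [rB_sum, Finset.filter_false, Finset.sum_empty] at a1
        have a2 := nz _ 0 (by simp) (a1.trans hR)
        rw [sub_zero] at a2
        linarith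
  have mn := (norm_sum_le _ _).trans (Finset.sum_le_sum tm)
  rw [Finset.sum_sub_distrib, cnt, Finset.sum_add_distrib, Finset.sum_const, Finset.card_range,
    nsmul_eq_mul, Finset.sum_ite_mem, Finset.sum_const, nsmul_eq_mul] at mn
  rw [eQ] at sp
  have a1 : ((Finset.range (2 * q * K) ∩ Finset.range p₀).card : ℝ) ≤ p₀ := by
    exact_mod_cast (Finset.card_le_card Finset.inter_subset_right).trans_eq (Finset.card_range _)
  have a2 : ((2 * q * K : ℕ) : ℝ) ≤ (2 * d * q : ℕ) * K := by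
    have : 2 * q * K ≤ 2 * d * q * K := eQ ▸ Nat.div_le_self _ _
    exact_mod_cast this
  refine (norm_sub_le_norm_sub_add_norm_sub _ _ _).trans ((add_le_add sp mn).trans ?_)
  rw [Nat.cast_mul (2 * d * q) K]
  have a3 := mul_le_mul_of_nonneg_right η2 (K.cast_nonneg (α := ℝ))
  have a4 := mul_le_mul_of_nonneg_right a2 η0.le
  linarith

end Pool.Agent.H365Z.Nor
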