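import Pool.Agent.H365Z.Nor.Gibbs
import Pool.Agent.H365Z.Nor.RieszT

/-! Hardness of the difference for logarithmically dependent bases. -/

set_option autoImplicit false

open Filter Topology MeasureTheory Set

namespace Pool.Agent.H365Z.Nor

lemma exists_theta {α β : ℝ} (hα : 1 < |α|) (hβ : 1 < |β|) (h : ¬ Ind α β) :
    ∃ (θ : ℝ) (a b : ℕ), 1 < θ ∧ 1 ≤ a ∧ 1 ≤ b ∧ a.Coprime b ∧ |α| = θ ^ a ∧ |β| = θ ^ b := by
  obtain ⟨r, hr⟩ := not_not.1 h
  have la := Real.log_pos hα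
  have lb := Real.log_pos hβ
  have r0 : 0 < r := by
    have : (0 : ℝ) < r := by rw [hr]; positivity
    exact_mod_cast this
  have n0 : 0 < r.num := Rat.num_pos.2 r0
  have d0 : (0 : ℝ) < r.den := by exact_mod_cast r.den_pos
  refine ⟨Real.exp (Real.log |β| / r.den), r.num.natAbs, r.den,
    Real.one_lt_exp_iff.2 (by positivity), by omega, r.den_pos, r.reduced, ?_, ?_⟩
  · rw [← Real.exp_nat_mul, Nat.cast_natAbs, abs_of_pos n0, ← Real.exp_log (zero_lt_one.trans hα)]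
    congr 1
    rw [Rat.cast_def, div_eq_div_iff d0.ne' lb.ne'] at hr
    field_simp
    linarith
  · rw [← Real.exp_nat_mul, mul_div_cancel₀ _ d0.ne', Real.exp_log (zero_lt_one.trans hβ)]

lemma dir {S : ℕ → ℂ} (h : ¬ Tendsto (fun N : ℕ => S N / N) atTop (𝓝 0)) :
    ∃ ω : ℂ, ‖ω‖ ≤ 1 ∧ ∃ c : ℝ, 0 < c ∧ ∃ᶠ N : ℕ in atTop, c * N ≤ (ω * S N).re := by
  by_contra hc
  push Not at hc
  refine h (NormedAddGroup.tendsto_nhds_zero.2 fun ε hε => ?_)
  filter_upwards [hc 1 (by simp) _ (half_pos hε), hc (-1) (by simp) _ (half_pos hε),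
    hc Complex.I (by simp) _ (half_pos hε), hc (-Complex.I) (by simp) _ (half_pos hε),
    eventually_gt_atTop 0] with N h1 h2 h3 h4 h5
  rw [norm_div, Complex.norm_natCast, div_lt_iff₀ (by exact_mod_cast h5)]
  refine (Complex.norm_le_abs_re_add_abs_im _).trans_lt ?_
  simp only [one_mul, neg_mul, Complex.neg_re, Complex.I_mul_re, neg_neg] at h1 h2 h3 h4
  have a1 : |(S N).re| < ε / 2 * N := abs_lt.2 ⟨by linarith, h1⟩
  have a2 : |(S N).im| < ε / 2 * N := abs_lt.2 ⟨by linarith, h4⟩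
  linarith

lemma re_ge {ω a b : ℂ} (hω : ‖ω‖ ≤ 1) {e : ℝ} (h : ‖a - b‖ ≤ e) : (ω * b).re - e ≤ (ω * a).re := by
  have l2 := Complex.abs_re_le_norm (ω * (a - b))
  rw [norm_mul, mul_sub, Complex.sub_re] at l2
  linarith [(abs_le.1 (l2.trans ((mul_le_of_le_one_left (norm_nonneg (a - b)) hω).trans h))).1]

theorem blk_alg {α β θ : ℝ} {a b : ℕ} (h1 : 1 < θ) (ha : 1 ≤ a) (hb : 1 ≤ b) (hα : |α| = θ ^ a)
    (hβ : |β| = θ ^ b) (h : IsAlgebraic ℚ θ) {ξ₀ : ℝ} (u1 : UD fun n => ξ₀ * α ^ n)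
    (u2 : ¬ UD fun n => ξ₀ * β ^ n) : Blk β fun δ => δ = α := by
  classical
  have hl := Real.log_pos h1
  rw [UD_iff] at u1 u2
  obtain ⟨g, hg⟩ := not_forall.1 u2
  obtain ⟨g0, hg⟩ := Classical.not_imp.1 hg
  obtain ⟨ω, hω, c, c0, hc⟩ := dir hg
  obtain ⟨k, hk⟩ := gibbs h1 h
  have b0 : (0 : ℝ) < b := by exact_mod_cast hb
  refine blk_of_win (hα ▸ one_lt_pow₀ h1 (by omega)) (hβ ▸ one_lt_pow₀ h1 (by omega)) g0 hω
    (c := c / (2 * (k + 2) * b * Real.log θ)) (by positivity) fun H hH ε hε => ?_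
  set e := min (c / (2 * b)) (ε * Real.log θ / 2) with he
  have e0 : 0 < e := by positivity
  have e1 : e * (2 * b) ≤ c := (le_div_iff₀ (by positivity)).1 (min_le_left _ _)
  have e2 : e ≤ ε * Real.log θ / 2 := min_le_right _ _
  have tb : Tendsto (fun l : ℕ => b * l) atTop atTop := tendsto_id.const_mul_atTop' hb
  have tw : Tendsto (fun n : ℕ => (((k * n : ℕ) + (2 * a * b : ℕ) + n : ℝ)) * Real.log θ)
      atTop atTop := (tendsto_atTop_mono (fun n => le_add_of_nonneg_left (by positivity))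
        tendsto_natCast_atTop_atTop).atTop_mul_const hl
  refine (tw.comp tb).frequently ((hc.and_eventually (tb.eventually
    ((hk (2 * a * b) (Nat.mul_pos (by omega) hb) ξ₀ (insert g H) (fun h hh => by
      rcases Finset.mem_insert.1 hh with rfl | hh
      exacts [g0, hH h hh]) e e0).and ((eventually_ge_atTop (2 * a * b)).and
      ((Nat.tendsto_div_const_atTop (show a ≠ 0 by omega)).eventually
        (((eventually_all_finset H).2 fun h hh => NormedAddGroup.tendsto_nhds_zero.1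
          (u1 h (hH h hh)) e e0).and (eventually_gt_atTop 0))))))).mono ?_)
  rintro l ⟨l1, l2, l3, l4, l5⟩ s hs x
  obtain ⟨φ, c1, c2, c3, c4⟩ := l2 s hs x
  have l0 : (0 : ℝ) ≤ l := l.cast_nonneg
  refine ⟨φ, c1, c2, c3, ?_, fun h hh => ?_⟩
  · have a1 := re_ge hω (c4 β b hb (Dvd.intro a (by ring)) hβ g (Finset.mem_insert_self _ _))
    rw [Nat.mul_div_cancel_left _ hb] at a1
    refine le_trans ?_ a1
    have a2 : ((2 * a * b : ℕ) : ℝ) ≤ (b * l : ℕ) := by exact_mod_cast l3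
    have a3 : c / (2 * (k + 2) * b * Real.log θ) * (((k + 2) * (b * l)) * Real.log θ) =
        c * l / 2 := by field_simp
    have a4 : ((((k * (b * l) : ℕ) + (2 * a * b : ℕ) + (b * l : ℕ) : ℝ)) * Real.log θ) ≤
        ((k + 2) * (b * l)) * Real.log θ := by
      refine mul_le_mul_of_nonneg_right ?_ hl.le
      rw [Nat.cast_mul k, Nat.cast_mul b l] at *
      linarith
    have a5 := mul_le_mul_of_nonneg_left a4
      (show 0 ≤ c / (2 * (k + 2) * b * Real.log θ) by positivity)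
    have a6 := mul_le_mul_of_nonneg_right e1 l0
    simp only [Function.comp]
    rw [Nat.cast_mul b l] at *
    linarith
  · have a1 := (norm_sub_norm_le _ _).trans
      (c4 α a ha (Dvd.intro b rfl) hα h (Finset.mem_insert_of_mem hh))
    have a2 := l4 h hh
    rw [norm_div, Complex.norm_natCast, div_lt_iff₀ (by exact_mod_cast l5)] at a2
    have a3 : ((b * l / a : ℕ) : ℝ) ≤ (b * l : ℕ) := by exact_mod_cast Nat.div_le_self _ _
    have a4 := mul_le_mul_of_nonneg_left a3 e0.le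
    have a5 := mul_le_mul_of_nonneg_right e2 ((b * l).cast_nonneg (α := ℝ))
    have a6 : 0 ≤ ε * ((((k * (b * l) : ℕ) + (2 * a * b : ℕ) : ℝ)) * Real.log θ) := by positivity
    simp only [Function.comp]
    linarith

/-- the mean value of a character at the frequencies of a Riesz product -/
def Cond (δ : ℝ) (d : ℕ) (g : ℤ) (r : ℕ) (ν φ₀ : ℝ) (c : ℂ) : Prop :=
  (¬ (d ∣ r ∧ |g| = 1) ∧ c = 0) ∨ |g| = 1 ∧ ∃ j, d * j = r ∧ ∃ a : ℤ, (a = 1 ∨ a = -1) ∧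
    g * δ ^ j = a * ν ∧ c = ee (a * φ₀) / 2

theorem mix {α β θ : ℝ} {a b : ℕ} (h1 : 1 < θ) (ha : 1 ≤ a) (hb : 1 ≤ b) (hα : |α| = θ ^ a)
    (hβ : |β| = θ ^ b) (h : Transcendental ℚ θ) {r₁ r₂ : ℕ} {ν₁ ν₂ φ₁ φ₂ : ℝ}
    (hr₁ : r₁ ≤ b) (hr₂ : r₂ ≤ b) (hν₁ : |ν₁| = θ ^ r₁) (hν₂ : |ν₂| = θ ^ r₂) {c₁ c₂ : ℂ}
    (k1 : Cond β b 1 r₁ ν₁ φ₁ c₁) (k2 : Cond β b 1 r₂ ν₂ φ₂ c₂)
    (k3 : 1 / 2 ≤ (-Complex.I * (c₁ + c₂)).re)
    (k4 : ∀ g : ℤ, ∃ c, Cond α a g r₁ ν₁ φ₁ c ∧ Cond α a g r₂ ν₂ φ₂ (-c)) :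
    Blk β fun δ => δ = α := by
  classical
  have hl := Real.log_pos h1
  obtain ⟨N, hN, N1⟩ := (((tendsto_pow_atTop_atTop_of_one_lt h1).eventually_ge_atTop 8).and
    (eventually_ge_atTop 1)).exists
  set Q := 2 * a * b * N with hQ
  have q1 : N ≤ Q := Nat.le_mul_of_pos_left _ (Nat.mul_pos (by omega) hb)
  have q2 : b < Q := by
    have : 1 ≤ a * N := Nat.mul_pos ha N1
    rw [show Q = 2 * b * (a * N) by rw [hQ]; ring]
    nlinarith
  have q3 : 8 ≤ θ ^ Q := hN.trans (pow_le_pow_right₀ h1.le q1)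
  have q4 : (1 : ℝ) ≤ Q := by exact_mod_cast N1.trans q1
  have hI : ‖-Complex.I‖ ≤ 1 := by simp
  refine blk_of_win (hα ▸ one_lt_pow₀ h1 (by omega)) (hβ ▸ one_lt_pow₀ h1 (by omega)) one_ne_zero
    hI (c := 1 / (24 * Q * Real.log θ)) (by positivity) fun H hH ε hε => ?_
  set e := min (1 / 8) (ε * Real.log θ) with he
  have e0 : 0 < e := by positivity
  have e1 : e ≤ 1 / 8 := min_le_left _ _
  have e2 : e ≤ ε * Real.log θ := min_le_right _ _
  have tw : Tendsto (fun K : ℕ => (((Q * K : ℕ) + Q + (Q * K : ℕ) : ℝ)) * Real.log θ)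
      atTop atTop := (tendsto_atTop_mono (fun n => le_add_of_nonneg_left (by positivity))
        (tendsto_natCast_atTop_atTop.comp
          (tendsto_id.const_mul_atTop' (N1.trans q1)))).atTop_mul_const hl
  have hH' : ∀ g ∈ insert 1 H, g ≠ 0 := fun h hh => by
    rcases Finset.mem_insert.1 hh with rfl | hh
    exacts [one_ne_zero, hH h hh]
  refine tw.frequently (Eventually.frequently ?_)
  filter_upwards [riesz h1 h q3 (hr₁.trans_lt q2) hν₁ φ₁ _ hH' e0,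
    riesz h1 h q3 (hr₂.trans_lt q2) hν₂ φ₂ _ hH' e0, eventually_ge_atTop 1] with K l1 l2 l3 s hs x
  obtain ⟨ψ₁, a1, a2, a3, a4⟩ := l1 s hs x
  obtain ⟨ψ₂, b1, b2, b3, b4⟩ := l2 s hs x
  have K1 : (1 : ℝ) ≤ K := by exact_mod_cast l3
  have key : ∀ (δ : ℝ) (d : ℕ), 1 ≤ d → 2 * d ∣ Q → |δ| = θ ^ d → ∀ g ∈ insert 1 H, ∀ c c' : ℂ,
      Cond δ d g r₁ ν₁ φ₁ c → Cond δ d g r₂ ν₂ φ₂ c' → ‖(∫ ξ in x..(x + Real.exp (-s)),
        SS δ g s (s + ((Q * K : ℕ) + Q + (Q * K : ℕ)) * Real.log θ) ξ *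
          (((ψ₁ ξ + ψ₂ ξ) / 2 : ℝ) : ℂ)) - ((K / 2 : ℝ) : ℂ) * (c + c')‖ ≤ e * K := by
    intro δ d hd hdQ hδ g hg c c' hc hc'
    have := SS_cont δ g s (s + ((Q * K : ℕ) + Q + (Q * K : ℕ)) * Real.log θ)
    simp only [Complex.ofReal_div, Complex.ofReal_add, ← mul_div_assoc, mul_add]
    rw [intervalIntegral.integral_div, intervalIntegral.integral_add
      (Continuous.intervalIntegrable (by fun_prop) _ _)
      (Continuous.intervalIntegrable (by fun_prop) _ _), Complex.ofReal_natCast,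
      Complex.ofReal_ofNat, show ∀ u v : ℂ, (u + v) / 2 - (K / 2 * c + K / 2 * c') =
        ((u - K * c) + (v - K * c')) / 2 from fun u v => by ring, norm_div, Complex.norm_ofNat]
    linarith [(norm_add_le _ _).trans
      (add_le_add (a4 δ d hd hdQ hδ g hg c hc) (b4 δ d hd hdQ hδ g hg c' hc'))]
  refine ⟨fun ξ => (ψ₁ ξ + ψ₂ ξ) / 2, by fun_prop, fun ξ => by linarith [a2 ξ, b2 ξ], ?_, ?_,
    fun g hg => ?_⟩
  · rw [intervalIntegral.integral_div, intervalIntegral.integral_add (a1.intervalIntegrable _ _)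
      (b1.intervalIntegrable _ _), a3, b3]
    norm_num
  · refine le_trans ?_ (re_ge hI (key β b hb (Dvd.intro (a * N) (by rw [hQ]; ring)) hβ 1
      (Finset.mem_insert_self _ _) _ _ k1 k2))
    rw [mul_left_comm (-Complex.I), Complex.re_ofReal_mul, Nat.cast_mul Q K]
    have a5 : 1 / (24 * Q * Real.log θ) * ((Q * K + Q + Q * K : ℝ) * Real.log θ) =
        (2 * K + 1) / 24 := by field_simp; ring
    rw [a5]
    nlinarith
  · obtain ⟨c, d1, d2⟩ := k4 g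
    have a5 := key α a ha (Dvd.intro (b * N) (by rw [hQ]; ring)) hα g
      (Finset.mem_insert_of_mem hg) _ _ d1 d2
    rw [add_neg_cancel, mul_zero, sub_zero] at a5
    refine a5.trans ((mul_le_mul_of_nonneg_right e2 (by linarith)).trans ?_)
    rw [mul_assoc, mul_comm (Real.log θ), Nat.cast_mul Q K]
    gcongr
    nlinarith

lemma ee_quarter : ee (1 / 4) = Complex.I := by
  rw [ee, mul_comm, show 2 * Real.pi * (1 / 4) = Real.pi / 2 by ring]
  push_cast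
  exact Complex.exp_pi_div_two_mul_I

theorem blk_tr {α β θ : ℝ} {a b : ℕ} (h1 : 1 < θ) (ha : 1 ≤ a) (hb : 1 ≤ b) (hab : a.Coprime b)
    (hα : |α| = θ ^ a) (hβ : |β| = θ ^ b) (h : Transcendental ℚ θ) (hne : α ≠ β) :
    Blk β fun δ => δ = α := by
  have q1 : Complex.I / 2 = ee (((1 : ℤ) : ℝ) * (1 / 4)) / 2 := by
    rw [Int.cast_one, one_mul, ee_quarter]
  have q2 : -(Complex.I / 2) = ee (((1 : ℤ) : ℝ) * -(1 / 4)) / 2 := by
    rw [Int.cast_one, one_mul, ee_neg, ee_quarter, Complex.conj_I, neg_div]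
  have q3 : -(Complex.I / 2) = ee (((-1 : ℤ) : ℝ) * (1 / 4)) / 2 := by
    rw [q2]; norm_num
  have q4 : Complex.I / 2 = ee (((-1 : ℤ) : ℝ) * -(1 / 4)) / 2 := by
    rw [q1]; norm_num
  rcases ha.eq_or_lt with rfl | ha'
  · have k1 : Cond β b 1 0 1 (1 / 4) (Complex.I / 2) :=
      Or.inr ⟨rfl, 0, rfl, 1, Or.inl rfl, by simp, q1⟩
    have k4 : ∀ g : ℤ, ∃ c, Cond α 1 g 0 1 (1 / 4) c ∧ Cond α 1 g 1 α (-(1 / 4)) (-c) := by
      intro g
      by_cases hg : |g| = 1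
      · rcases (abs_eq zero_le_one).1 hg with rfl | rfl
        · exact ⟨_, Or.inr ⟨hg, 0, rfl, 1, Or.inl rfl, by simp, q1⟩,
            Or.inr ⟨hg, 1, rfl, 1, Or.inl rfl, by simp, q2⟩⟩
        · exact ⟨_, Or.inr ⟨hg, 0, rfl, -1, Or.inr rfl, by simp, q3⟩,
            Or.inr ⟨hg, 1, rfl, -1, Or.inr rfl, by simp, (neg_neg _).trans q4⟩⟩
      · exact ⟨0, Or.inl ⟨fun h => hg h.2, rfl⟩, Or.inl ⟨fun h => hg h.2, neg_zero⟩⟩
    rcases hb.eq_or_lt with rfl | hb'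
    · have e : β = -α := by
        rcases abs_eq_abs.1 (hβ.trans hα.symm) with e | e
        exacts [absurd e.symm hne, e]
      exact mix h1 ha hb hα hβ h (Nat.zero_le _) hb (by simp) hα k1 (c₂ := Complex.I / 2)
        (Or.inr ⟨rfl, 1, rfl, -1, Or.inr rfl, by simp [e], q4⟩) (by norm_num) k4
    · exact mix h1 ha hb hα hβ h (Nat.zero_le _) hb (by simp) hα k1 (c₂ := 0)
        (Or.inl ⟨fun h => by have := Nat.le_of_dvd one_pos h.1; omega, rfl⟩) (by norm_num) k4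
  · have k1 : Cond β b 1 b β (1 / 4) (Complex.I / 2) :=
      Or.inr ⟨rfl, 1, mul_one _, 1, Or.inl rfl, by simp, q1⟩
    have k2 : ∀ g : ℤ, ¬ (a ∣ b ∧ |g| = 1) := fun g h => by
      have := Nat.Coprime.eq_one_of_dvd hab h.1
      omega
    exact mix h1 ha hb hα hβ h le_rfl le_rfl hβ hβ k1 k1 (by norm_num)
      fun g => ⟨0, Or.inl ⟨k2 g, rfl⟩, Or.inl ⟨k2 g, neg_zero⟩⟩

theorem diff_hard_full {α β : ℝ} (hα : 1 < |α|) (hβ : 1 < |β|) {ξ₀ : ℝ}
    (u1 : UD fun n => ξ₀ * α ^ n) (u2 : ¬ UD fun n => ξ₀ * β ^ n) :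
    ¬ D2 ({ξ : ℝ | UD fun n => ξ * α ^ n} \ {ξ : ℝ | UD fun n => ξ * β ^ n})ᶜ := by
  by_cases h : Ind α β
  · exact diff_hard hα hβ h continuous_id (fun _ => Iff.rfl) fun _ => Iff.rfl
  obtain ⟨θ, a, b, h1, ha, hb, hab, e1, e2⟩ := exists_theta hα hβ h
  refine diff_hard2 hα hβ ?_
  by_cases ht : IsAlgebraic ℚ θ
  · exact blk_alg h1 ha hb e1 e2 ht u1 u2
  · exact blk_tr h1 ha hb hab e1 e2 ht fun e => u2 (e ▸ u1)

end Pool.Agent.H365Z.Nor
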