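import Pool.Agent.H365Z.Nor.Kap

/-! Windows for an algebraic base: Gibbs weights. -/

set_option autoImplicit false

open Filter Topology MeasureTheory Set

namespace Pool.Agent.H365Z.Nor

noncomputable def cs (y : ℝ) : ℝ := (1 - Real.cos (2 * Real.pi * y)) / 2

lemma cs_nonneg (y : ℝ) : 0 ≤ cs y := by
  unfold cs; linarith [Real.cos_le_one (2 * Real.pi * y)]

lemma cs_le (y : ℝ) : cs y ≤ 1 := by
  unfold cs; linarith [Real.neg_one_le_cos (2 * Real.pi * y)]

lemma cs_abs (y : ℝ) : cs |y| = cs y := by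
  rcases abs_choice y with h | h <;> simp [h, cs]

lemma ee_mul_le (g : ℤ) (y : ℝ) : ‖ee (g * y) - 1‖ ≤ |(g : ℝ)| * ‖ee y - 1‖ := by
  have h : ∀ n : ℕ, ‖ee (n * y) - 1‖ ≤ n * ‖ee y - 1‖ := fun n => by
    induction n with
    | zero => simp [ee_zero]
    | succ n ih =>
      have : ee ((n + 1 : ℕ) * y) - 1 = ee y * (ee (n * y) - 1) + (ee y - 1) := by
        push_cast
        rw [add_mul, one_mul, ee_add]
        ring
      rw [this]
      refine (norm_add_le _ _).trans ?_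
      rw [norm_mul, norm_ee]
      push_cast
      linarith
  obtain ⟨n, rfl | rfl⟩ := Int.eq_nat_or_neg g
  · simpa using h n
  · have := h n
    rw [← Complex.norm_conj, map_sub, map_one, ← ee_neg] at this
    simpa using this

lemma ee_cs (g : ℤ) (y : ℝ) {η A : ℝ} (hη : 0 < η) (hA : |(g : ℝ)| ≤ A) :
    ‖ee (g * y) - 1‖ ≤ η + A ^ 2 / η * cs y := by
  have h1 : ‖ee y - 1‖ ^ 2 = 4 * cs y := by
    have h2 := norm_ee y
    rw [← sq_eq_sq₀ (norm_nonneg _) zero_le_one, Complex.sq_norm, Complex.normSq_apply] at h2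
    rw [Complex.sq_norm, Complex.normSq_apply, cs, ← re_ee]
    simp only [Complex.sub_re, Complex.sub_im, Complex.one_re, Complex.one_im]
    linarith
  refine (ee_mul_le g y).trans ((mul_le_mul_of_nonneg_right hA (norm_nonneg _)).trans ?_)
  rw [show cs y = ‖ee y - 1‖ ^ 2 / 4 by linarith, ← sub_nonneg]
  have : η + A ^ 2 / η * (‖ee y - 1‖ ^ 2 / 4) - A * ‖ee y - 1‖ =
      (η - A * ‖ee y - 1‖ / 2) ^ 2 / η := by
    field_simp
    ring
  rw [this]
  positivity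

lemma binom (D : ℕ) (y : ℝ) : (((1 - cs y) ^ D : ℝ) : ℂ) = ∑ j ∈ Finset.range (2 * D + 1),
    (((2 * D).choose j / 4 ^ D : ℝ) : ℂ) * ee ((((j : ℤ) - D : ℤ) : ℝ) * y) := by
  have h1 : ee y * ee (-y) = 1 := by rw [← ee_add, add_neg_cancel, ee_zero]
  have h2 : ((1 - cs y : ℝ) : ℂ) = (ee y + 1) ^ 2 * ee (-y) / 4 := by
    have := cos_eq y
    simp only [cs, Complex.ofReal_sub, Complex.ofReal_div, this]
    push_cast
    linear_combination (-(ee y + 2) / 4) * h1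
  rw [Complex.ofReal_pow, h2, div_pow, mul_pow, ← pow_mul, add_pow, Finset.sum_mul, Finset.sum_div]
  refine Finset.sum_congr rfl fun j _ => ?_
  rw [← ee_nsmul, ← ee_nsmul, show (((j : ℤ) - D : ℤ) : ℝ) * y = j * y + D * -y by push_cast; ring,
    ee_add]
  push_cast
  ring

/-- the Gibbs weight -/
noncomputable def gw (θ : ℝ) (D n : ℕ) (u : ℝ) : ℝ :=
  ∏ m ∈ Finset.range n, (1 - cs (θ ^ m * u)) ^ D

lemma gw_nonneg (θ : ℝ) (D n : ℕ) (u : ℝ) : 0 ≤ gw θ D n u :=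
  Finset.prod_nonneg fun _ _ => pow_nonneg (sub_nonneg.2 (cs_le _)) _

lemma gw_cont (θ : ℝ) (D n : ℕ) : Continuous (gw θ D n) := by
  unfold gw cs
  fun_prop

lemma gw_energy (θ : ℝ) (D n : ℕ) (u a : ℝ) (ha : 0 ≤ a) :
    (∑ m ∈ Finset.range n, cs (θ ^ m * u)) * gw θ D n u ≤
      a * gw θ D n u + n * Real.exp (-(D * a)) := by
  rcases le_total (∑ m ∈ Finset.range n, cs (θ ^ m * u)) a with h | h
  · exact (mul_le_mul_of_nonneg_right h (gw_nonneg _ _ _ _)).trans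
      (le_add_of_nonneg_right (by positivity))
  · refine le_add_of_nonneg_of_le (mul_nonneg ha (gw_nonneg _ _ _ _))
      (mul_le_mul ?_ ?_ (gw_nonneg _ _ _ _) n.cast_nonneg)
    · simpa using Finset.sum_le_card_nsmul (Finset.range n) _ 1 fun m _ => cs_le (θ ^ m * u)
    · refine le_trans (Finset.prod_le_prod (g := fun m => Real.exp (D * -cs (θ ^ m * u)))
        (fun _ _ => pow_nonneg (sub_nonneg.2 (cs_le _)) _) fun m _ => ?_) ?_
      · rw [Real.exp_nat_mul]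
        exact pow_le_pow_left₀ (sub_nonneg.2 (cs_le _)) (Real.one_sub_le_exp_neg _) _
      · rw [← Real.exp_sum, ← Finset.mul_sum, Finset.sum_neg_distrib, Real.exp_le_exp]
        nlinarith [D.cast_nonneg (α := ℝ)]

lemma gw_exp (θ : ℝ) (D n : ℕ) : ∃ (ι : Type) (I : Finset ι) (b σ : ι → ℝ), (∀ i, 0 ≤ b i) ∧
    (∀ i ∈ I, Sp θ D n (σ i)) ∧ ∀ u, (gw θ D n u : ℂ) = ∑ i ∈ I, (b i : ℂ) * ee (σ i * u) := by
  induction n with
  | zero => exact ⟨Unit, {()}, fun _ => 1, fun _ => 0, fun _ => zero_le_one,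
      fun _ _ => ⟨0, by simp, by simp⟩, fun u => by simp [gw, ee_zero]⟩
  | succ n ih =>
    obtain ⟨ι, I, b, σ, h1, h2, h3⟩ := ih
    refine ⟨ι × ℕ, I ×ˢ Finset.range (2 * D + 1), fun p => b p.1 * ((2 * D).choose p.2 / 4 ^ D),
      fun p => σ p.1 + (((p.2 : ℤ) - D : ℤ) : ℝ) * θ ^ n,
      fun p => mul_nonneg (h1 _) (by positivity), fun p hp => ?_, fun u => ?_⟩
    · obtain ⟨c, c1, c2⟩ := h2 _ (Finset.mem_product.1 hp).1
      have := Finset.mem_range.1 (Finset.mem_product.1 hp).2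
      refine ⟨fun m => if m = n then (p.2 : ℤ) - D else c m, fun m => ?_, ?_⟩
      · dsimp only
        split_ifs
        · rw [abs_le]; omega
        · exact c1 m
      · dsimp only
        rw [Finset.sum_range_succ, if_pos rfl, c2]
        congr 1
        exact Finset.sum_congr rfl fun m hm => by rw [if_neg (Finset.mem_range.1 hm).ne]
    · rw [gw, Finset.prod_range_succ, Complex.ofReal_mul, ← gw, h3, binom, Finset.sum_mul_sum,
        Finset.sum_product]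
      refine Finset.sum_congr rfl fun i _ => Finset.sum_congr rfl fun j _ => ?_
      rw [add_mul, ee_add, mul_assoc _ (θ ^ n), Complex.ofReal_mul]
      ring

theorem gibbs {θ : ℝ} (h1 : 1 < θ) (h : IsAlgebraic ℚ θ) : ∃ k : ℕ, ∀ Q : ℕ, 1 ≤ Q →
    ∀ (ξ₀ : ℝ) (H : Finset ℤ), (∀ g ∈ H, g ≠ 0) → ∀ ε : ℝ, 0 < ε → ∀ᶠ n : ℕ in atTop,
      ∀ s, 0 ≤ s → ∀ x : ℝ, ∃ φ : ℝ → ℝ, Continuous φ ∧ (∀ ξ, 0 ≤ φ ξ) ∧
        ∫ ξ in x..(x + Real.exp (-s)), φ ξ = 1 ∧
        ∀ (δ : ℝ) (d : ℕ), 1 ≤ d → 2 * d ∣ Q → |δ| = θ ^ d → ∀ g ∈ H,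
          ‖(∫ ξ in x..(x + Real.exp (-s)),
            SS δ g s (s + ((k * n : ℕ) + Q + n) * Real.log θ) ξ * (φ ξ : ℂ)) -
              ∑ j ∈ Finset.range (n / d), ee (g * (ξ₀ * δ ^ j))‖ ≤ ε * n := by
  classical
  obtain ⟨C, C0, hC⟩ := dio h1 h
  have hl := Real.log_pos h1
  have t0 : 0 < θ := by linarith
  obtain ⟨k, hk⟩ := exists_nat_ge ((3 * C + 3) / Real.log θ)
  rw [div_le_iff₀ hl] at hk
  refine ⟨k, fun Q hQ ξ₀ H hH ε hε => ?_⟩
  set η := min (ε / (k + 5)) 1 with hη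
  have η0 : 0 < η := by positivity
  have η1 : η ≤ 1 := min_le_right _ _
  have η2 : η * (k + 5) ≤ ε := (le_div_iff₀ (by positivity)).1 (min_le_left _ _)
  set A := 1 + ∑ g ∈ H, |(g : ℝ)| with hA
  have A0 : 0 < A := by positivity
  have A1 : ∀ g ∈ H, |(g : ℝ)| ≤ A := fun g hg =>
    (Finset.single_le_sum (f := fun g : ℤ => |(g : ℝ)|) (fun _ _ => abs_nonneg _) hg).trans
      (by linarith)
  obtain ⟨D, hD⟩ := exists_nat_ge ((2 * C + 3) / (η ^ 2 / A ^ 2))
  rw [div_le_iff₀ (by positivity)] at hD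
  obtain ⟨e₀, he₀⟩ := ((eventually_all_finset H).2 fun g hg =>
    ((hC D).2 g (hH g hg)).and ((hC D).2 (-g) (neg_ne_zero.2 (hH g hg)))).exists
  have l1 : Tendsto (fun n : ℕ => Real.exp (-(3 * n))) atTop (𝓝 0) :=
    Real.tendsto_exp_neg_atTop_nhds_zero.comp
      (tendsto_natCast_atTop_atTop.const_mul_atTop (by norm_num))
  filter_upwards [(hC (2 * D)).1, (eventually_all_finset H).2 fun g hg =>
    (he₀ g hg).1.and (he₀ g hg).2, l1.eventually_le_const (show 0 < η / 10 by positivity),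
    l1.eventually_le_const (show 0 < η ^ 2 / A ^ 2 / 10 by positivity),
    tendsto_natCast_atTop_atTop.eventually_ge_atTop
      ((η * Q + 2 * (1 - θ⁻¹)⁻¹ + e₀ + (Q + 2)) / η)] with n n1 n2 n3 n4 n5 s hs x
  rw [div_le_iff₀ η0] at n5
  obtain ⟨J, J1, J2, J3⟩ := exists_J h1 hQ hs (k * n)
  obtain ⟨ι, I, b, σ, b0, hσ, hb⟩ := gw_exp θ D n
  have b1 : ∑ i ∈ I, b i = 1 := by
    have := hb 0
    simp only [gw, cs, mul_zero, Real.cos_zero, sub_self, zero_div, sub_zero, one_pow,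
      Finset.prod_const_one, ee_zero, mul_one] at this
    exact_mod_cast this.symm
  have b2 : ∑ i ∈ I, ‖(b i : ℂ)‖ = 1 := by
    rw [← b1]
    exact Finset.sum_congr rfl fun i _ => by rw [Complex.norm_real, Real.norm_of_nonneg (b0 i)]
  set E := Real.exp (C * n) with hE
  set τ := Real.exp (-(3 * n : ℝ)) with hτ
  have E1 : 1 ≤ E := Real.one_le_exp (by positivity)
  have τ0 : 0 < τ := Real.exp_pos _
  have L0 : 0 < θ ^ J := by positivity
  have hR : Real.exp s / θ ^ J / Real.exp (-(C * n)) ≤ τ / E ^ 2 := by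
    rw [← Real.exp_log L0, Real.log_pow, hE, hτ, ← Real.exp_nat_mul, ← Real.exp_sub,
      ← Real.exp_sub, ← Real.exp_sub, Real.exp_le_exp]
    push_cast at J2 ⊢
    linarith [mul_le_mul_of_nonneg_right hk (n.cast_nonneg (α := ℝ))]
  have nr : ∀ t v : ℝ, (∀ i ∈ I, σ i ≠ v → Real.exp (-(C * n)) ≤ |t + σ i|) →
      ‖∑ i ∈ I, (b i : ℂ) * kap x s (θ ^ J) ξ₀ (t + σ i) -
        ((∑ i ∈ I with σ i = v, b i : ℝ) : ℂ) * kap x s (θ ^ J) ξ₀ (t + v)‖ ≤ τ / E ^ 2 := by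
    intro t v hv
    have := near I (fun i => (b i : ℂ)) σ x s ξ₀ L0 (Real.exp_pos _) (fun i => σ i = v) t hv
    rw [b2, one_mul] at this
    refine le_of_eq_of_le ?_ (this.trans hR)
    rw [Complex.ofReal_sum, Finset.sum_mul]
    congr 2
    exact Finset.sum_congr rfl fun i hi => by rw [(Finset.mem_filter.1 hi).2]
  obtain ⟨Z, Z1, Z2, Z3⟩ := dens I (fun i => (b i : ℂ)) σ x s (θ ^ J) ξ₀ (gw_cont θ D n)
    (gw_nonneg θ D n) hb
  have hσ2 : ∀ i ∈ I, Sp θ (2 * D) n (σ i) := fun i hi => (hσ i hi).mono (by omega)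
  have τ1 : τ ≤ 1 / 10 := by linarith
  have Z4 : 1 / 10 / E ^ 2 ≤ Z := by
    obtain ⟨y, -, hy⟩ := Finset.exists_le_sum_fiber_of_maps_to_of_nsmul_le_sum (s := I)
      (t := Finset.Icc (-(⌈E ^ 2⌉₊ : ℤ)) ⌈E ^ 2⌉₊) (f := fun i => ⌊σ i * E⌋) (w := b)
      (b := 1 / 5 / E ^ 2) (fun i hi => by
        have a1 := abs_le.1 (n1 _ (hσ2 i hi)).1
        have a2 := Nat.le_ceil (E ^ 2)
        rw [Finset.mem_Icc, Int.le_floor, Int.floor_le_iff]
        push_cast
        constructor <;> linarith [mul_le_mul_of_nonneg_right a1.1 (zero_le_one.trans E1),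
          mul_le_mul_of_nonneg_right a1.2 (zero_le_one.trans E1)]) ⟨0, by simp⟩ (by
        have a2 := (Nat.ceil_lt_add_one (sq_nonneg E)).le
        have a3 : ((⌈E ^ 2⌉₊ : ℤ) + 1 - -(⌈E ^ 2⌉₊ : ℤ)).toNat = 2 * ⌈E ^ 2⌉₊ + 1 := by omega
        rw [b1, Int.card_Icc, a3, nsmul_eq_mul, ← mul_div_assoc, div_le_one (by positivity)]
        push_cast
        linarith [one_le_pow₀ (n := 2) E1])
    obtain ⟨i₀, hi₀⟩ : (I.filter fun i => ⌊σ i * E⌋ = y).Nonempty := by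
      rw [Finset.nonempty_iff_ne_empty]
      intro h0
      rw [h0, Finset.sum_empty] at hy
      exact absurd hy (not_le.2 (by positivity))
    have sep : ∀ i ∈ I, σ i ≠ σ i₀ → Real.exp (-(C * n)) ≤ |-σ i₀ + σ i| := fun i hi hne => by
      rw [neg_add_eq_sub]
      exact (n1 _ ((hσ i hi).sub (hσ i₀ (Finset.mem_filter.1 hi₀).1))).2 (sub_ne_zero.2 hne)
    have a1 := nr _ _ sep
    rw [neg_add_cancel, kap_zero, mul_one] at a1
    have a2 : ∑ i ∈ I with ⌊σ i * E⌋ = y, b i ≤ ∑ i ∈ I with σ i = σ i₀, b i := by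
      refine Finset.sum_le_sum_of_subset_of_nonneg (fun i hi => ?_) fun _ _ _ => b0 _
      obtain ⟨a3, a4⟩ := Finset.mem_filter.1 hi
      refine Finset.mem_filter.2 ⟨a3, by_contra fun hne => ?_⟩
      have a5 := Int.abs_sub_lt_one_of_floor_eq_floor (a4.trans (Finset.mem_filter.1 hi₀).2.symm)
      have a6 := sep i a3 hne
      rw [← sub_mul, abs_mul, abs_of_pos (by positivity : 0 < E)] at a5
      rw [neg_add_eq_sub, Real.exp_neg, inv_le_iff_one_le_mul₀ (by positivity)] at a6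
      linarith
    have a3 := norm_sub_norm_le (((∑ i ∈ I with σ i = σ i₀, b i : ℝ) : ℂ))
      (∑ i ∈ I, (b i : ℂ) * kap x s (θ ^ J) ξ₀ (-σ i₀ + σ i))
    rw [norm_sub_rev, Complex.norm_real, Real.norm_of_nonneg
      (Finset.sum_nonneg fun _ _ => b0 _)] at a3
    have a4 : τ / E ^ 2 ≤ 1 / 10 / E ^ 2 := by gcongr
    have a5 : 1 / 5 / E ^ 2 = 1 / 10 / E ^ 2 + 1 / 10 / E ^ 2 := by ring
    linarith [Z2 (-σ i₀)]
  have Z0 : 0 < Z := lt_of_lt_of_le (by positivity) Z4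
  have Z5 : τ / E ^ 2 ≤ 10 * τ * Z := by
    calc τ / E ^ 2 = 10 * τ * (1 / 10 / E ^ 2) := by ring
      _ ≤ _ := by gcongr
  have a0 : 0 ≤ ∑ i ∈ I with σ i = 0, b i := Finset.sum_nonneg fun _ _ => b0 _
  have Z6 : ∑ i ∈ I with σ i = 0, b i ≤ 2 * Z := by
    have a1 := nr 0 0 fun i hi h0 => by rw [zero_add]; exact (n1 _ (hσ2 i hi)).2 h0
    rw [← Z1, add_zero, kap_zero, mul_one, ← Complex.ofReal_sub, Complex.norm_real,
      Real.norm_eq_abs] at a1
    linarith [(abs_le.1 a1).1, mul_le_mul_of_nonneg_right τ1 Z0.le]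
  obtain ⟨φ, c1, c2, c3, c4, c5⟩ := Z3 Z0
  refine ⟨φ, c1, c2, c3, fun δ d hd hdQ hδ g hg => ?_⟩
  obtain ⟨i₁, rfl⟩ := hdQ.trans J1
  have eJ : 2 * d * i₁ = d * (2 * i₁) := by ring
  have g1 : (1 : ℝ) ≤ |(g : ℝ)| := by exact_mod_cast Int.one_le_abs (hH g hg)
  have sp := split h1 hd hδ (Q := Q) (i₀ := 2 * i₁) (G := k * n) (n := n) (e₀ := e₀)
    (eJ ▸ J2) (eJ ▸ J3) η0.le
    (fun i => ∫ ξ in x..(x + Real.exp (-s)), ee (g * (ξ * δ ^ i)) * (φ ξ : ℂ))
    (fun i => by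
      simpa only [c3, mul_one] using mean_le (x := x) (C := 1) (Real.exp_pos (-s)).le c1 c2
        (F := fun ξ => ee (g * (ξ * δ ^ i))) fun ξ => (norm_ee _).le) fun i hi => by
      set γ := g * δ ^ i / θ ^ (2 * d * i₁) with hγ
      have e1 : ∫ ξ in x..(x + Real.exp (-s)), ee (g * (ξ * δ ^ i)) * (φ ξ : ℂ) = ee (γ * ξ₀) *
          ∫ ξ in x..(x + Real.exp (-s)), ee (γ * (θ ^ (2 * d * i₁) * ξ - ξ₀)) * (φ ξ : ℂ) := by
        rw [← intervalIntegral.integral_const_mul]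
        refine intervalIntegral.integral_congr fun ξ _ => ?_
        simp only [← mul_assoc, ← ee_add]
        congr 2
        rw [hγ]
        field_simp
        ring
      obtain ⟨e, he⟩ := Nat.exists_eq_add_of_le (le_trans (Nat.le_add_right _ _) hi)
      have p0 : 0 < θ ^ (d * i) := by positivity
      have e2 : |δ ^ i| = θ ^ (d * i) := by rw [abs_pow, hδ, pow_mul]
      have a1 := nr γ 0 fun j hj h0 => by
        rcases (abs_eq p0.le).1 e2 with e3 | e3
        · convert (n2 g hg).1 _ (hσ j hj) h0 e (by omega) using 3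
          rw [hγ, e3, eJ, he, pow_add]
          field_simp
        · convert (n2 g hg).2 _ (hσ j hj) h0 e (by omega) using 3
          rw [hγ, e3, eJ, he, pow_add]
          push_cast
          field_simp
      have e4 : |γ| = |(g : ℝ)| * θ ^ (d * i) / θ ^ (2 * d * i₁) := by
        rw [hγ, abs_div, abs_mul, e2, abs_of_pos L0]
      have a2 : ‖kap x s (θ ^ (2 * d * i₁)) ξ₀ γ‖ ≤ Real.exp s / θ ^ (d * i) := by
        refine (kap_le x s ξ₀ L0 (abs_pos.1 (by rw [e4]; positivity))).trans ?_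
        rw [e4, div_div_div_cancel_right₀ L0.ne']
        exact div_le_div_of_nonneg_left (Real.exp_pos s).le p0 (le_mul_of_one_le_left p0.le g1)
      have a3 := norm_sub_norm_le (∑ i ∈ I, (b i : ℂ) * kap x s (θ ^ (2 * d * i₁)) ξ₀ (γ + σ i))
        (((∑ i ∈ I with σ i = 0, b i : ℝ) : ℂ) * kap x s (θ ^ (2 * d * i₁)) ξ₀ (γ + 0))
      rw [norm_mul, Complex.norm_real, Real.norm_of_nonneg a0] at a3
      rw [add_zero] at a1 a3
      rw [e1, c4, norm_mul, norm_ee, one_mul, norm_div, Complex.norm_real,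
        Real.norm_of_nonneg Z0.le, div_le_iff₀ Z0]
      have a4 := mul_le_mul Z6 a2 (norm_nonneg _) (by positivity)
      linarith [mul_le_mul_of_nonneg_right n3 Z0.le]
  rw [← int_SS _ _ _ _ _ _ c1] at sp
  have mn := c5 (fun ξ => ∑ j ∈ Finset.range (n / d),
    (ee (g * (ξ * δ ^ (2 * i₁ + j))) - ee (g * (ξ₀ * δ ^ j)))) (2 * (η * n))
    (A ^ 2 / η * (n * Real.exp (-(D * (η ^ 2 / A ^ 2 * n))))) fun ξ => by
      set u := θ ^ (2 * d * i₁) * ξ - ξ₀ with hu
      have a1 : ∀ j ∈ Finset.range (n / d), ‖ee (g * (ξ * δ ^ (2 * i₁ + j))) -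
          ee (g * (ξ₀ * δ ^ j))‖ ≤ η + A ^ 2 / η * cs (θ ^ (d * j) * u) := fun j _ => by
        have e1 : ee (g * (ξ * δ ^ (2 * i₁ + j))) - ee (g * (ξ₀ * δ ^ j)) =
            ee (g * (ξ₀ * δ ^ j)) * (ee (g * (δ ^ j * u)) - 1) := by
          rw [mul_sub, mul_one, ← ee_add, pow_add, pow_even hδ, hu, eJ]
          congr 2
          ring
        rw [e1, norm_mul, norm_ee, one_mul, ← cs_abs, abs_mul, abs_pow, abs_of_pos t0, pow_mul,
          ← hδ, ← abs_pow, ← abs_mul, cs_abs]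
        exact ee_cs g _ η0 (A1 g hg)
      have a2 : ∑ j ∈ Finset.range (n / d), cs (θ ^ (d * j) * u) ≤
          ∑ m ∈ Finset.range n, cs (θ ^ m * u) := by
        rw [← Finset.sum_image (f := fun m => cs (θ ^ m * u)) (g := fun j => d * j)
          fun i _ j _ hij => Nat.eq_of_mul_eq_mul_left hd hij]
        refine Finset.sum_le_sum_of_subset_of_nonneg (fun m hm => ?_) fun _ _ _ => cs_nonneg _
        obtain ⟨j, hj, rfl⟩ := Finset.mem_image.1 hm
        exact Finset.mem_range.2 (lt_of_lt_of_le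
          (Nat.mul_lt_mul_of_pos_left (Finset.mem_range.1 hj) hd) (Nat.mul_div_le n d))
      have a3 := (norm_sum_le _ _).trans (Finset.sum_le_sum a1)
      rw [Finset.sum_add_distrib, ← Finset.mul_sum, Finset.sum_const, Finset.card_range,
        nsmul_eq_mul] at a3
      have a4 : ((n / d : ℕ) : ℝ) ≤ n := by exact_mod_cast Nat.div_le_self n d
      have a5 := mul_le_mul_of_nonneg_left
        (gw_energy θ D n u (η ^ 2 / A ^ 2 * n) (by positivity)) (show 0 ≤ A ^ 2 / η by positivity)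
      have a6 : A ^ 2 / η * (η ^ 2 / A ^ 2 * n * gw θ D n u) = η * n * gw θ D n u := by field_simp
      have a7 := mul_le_mul_of_nonneg_right (a3.trans (add_le_add
        (mul_le_mul_of_nonneg_right a4 η0.le)
        (mul_le_mul_of_nonneg_left a2 (by positivity)))) (gw_nonneg θ D n u)
      linarith
  have e1 : ∫ ξ in x..(x + Real.exp (-s)), (∑ j ∈ Finset.range (n / d),
      (ee (g * (ξ * δ ^ (2 * i₁ + j))) - ee (g * (ξ₀ * δ ^ j)))) * (φ ξ : ℂ) =
      ∑ j ∈ Finset.range (n / d), (∫ ξ in x..(x + Real.exp (-s)),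
        ee (g * (ξ * δ ^ (2 * i₁ + j))) * (φ ξ : ℂ)) -
        ∑ j ∈ Finset.range (n / d), ee (g * (ξ₀ * δ ^ j)) := by
    have := ee_cont
    simp only [Finset.sum_mul, sub_mul]
    rw [intervalIntegral.integral_finsetSum fun i _ => Continuous.intervalIntegrable
      (by fun_prop) _ _, ← Finset.sum_sub_distrib]
    refine Finset.sum_congr rfl fun j _ => ?_
    rw [intervalIntegral.integral_sub (Continuous.intervalIntegrable (by fun_prop) _ _)
      (Continuous.intervalIntegrable (by fun_prop) _ _), intervalIntegral.integral_const_mul,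
      intervalIntegral.integral_ofReal, c3, Complex.ofReal_one, mul_one]
  rw [e1] at mn
  have a1 : Real.exp (-(D * (η ^ 2 / A ^ 2 * n))) ≤ τ / E ^ 2 := by
    rw [hE, hτ, ← Real.exp_nat_mul, ← Real.exp_sub, Real.exp_le_exp]
    push_cast
    linarith [mul_le_mul_of_nonneg_right hD (n.cast_nonneg (α := ℝ))]
  have a2 : A ^ 2 / η * (n * Real.exp (-(D * (η ^ 2 / A ^ 2 * n)))) / Z ≤ η * n := by
    rw [div_le_iff₀ Z0]
    calc _ ≤ A ^ 2 / η * (n * (10 * (η ^ 2 / A ^ 2 / 10) * Z)) := by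
          gcongr
          exact a1.trans (Z5.trans (by gcongr))
      _ = _ := by field_simp
  refine (norm_sub_le_norm_sub_add_norm_sub _ _ _).trans ((add_le_add sp mn).trans ?_)
  push_cast
  linarith [mul_le_mul_of_nonneg_right η2 (n.cast_nonneg (α := ℝ)),
    mul_nonneg η0.le (n.cast_nonneg (α := ℝ))]

end Pool.Agent.H365Z.Nor
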