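import Mathlib

/-! Lower bounds for integer polynomials with bounded coefficients at a real number. -/

set_option autoImplicit false

open Filter Topology NumberField

namespace Pool.Agent.H365Z.Nor

/-- `x` is a sum of `θ ^ m`, `m < n`, with integer digits of size at most `D` -/
def Sp (θ : ℝ) (D n : ℕ) (x : ℝ) : Prop :=
  ∃ c : ℕ → ℤ, (∀ m, |c m| ≤ D) ∧ x = ∑ m ∈ Finset.range n, (c m : ℝ) * θ ^ m

lemma Sp.sub {θ : ℝ} {D n : ℕ} {x y : ℝ} (hx : Sp θ D n x) (hy : Sp θ D n y) :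
    Sp θ (2 * D) n (x - y) := by
  obtain ⟨c, h1, rfl⟩ := hx
  obtain ⟨d, h2, rfl⟩ := hy
  refine ⟨fun m => c m - d m, fun m => (abs_sub _ _).trans ?_, ?_⟩
  · push_cast
    linarith [h1 m, h2 m]
  · rw [← Finset.sum_sub_distrib]
    exact Finset.sum_congr rfl fun m _ => by push_cast; ring

lemma Sp.mono {θ : ℝ} {D D' n : ℕ} {x : ℝ} (hx : Sp θ D n x) (h : D ≤ D') : Sp θ D' n x := by
  obtain ⟨c, h1, rfl⟩ := hx
  exact ⟨c, fun m => (h1 m).trans (by exact_mod_cast h), rfl⟩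

lemma Sp.shift {θ : ℝ} {D n e : ℕ} {x : ℝ} (hx : Sp θ D n x) (he : 1 ≤ e) (h : ℤ) :
    Sp θ (D + h.natAbs) (e + n) (h + θ ^ e * x) := by
  obtain ⟨c, h1, rfl⟩ := hx
  refine ⟨fun m => if m < e then (if m = 0 then h else 0) else c (m - e), fun m => ?_, ?_⟩
  · have := h1 (m - e)
    have h0 := abs_nonneg h
    push_cast
    have h2 : (0 : ℤ) ≤ D := Int.natCast_nonneg D
    split_ifs
    · linarith
    · rw [abs_zero]; linarith
    · linarith
  · rw [Finset.sum_range_add, Finset.mul_sum]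
    congr 1
    · rw [Finset.sum_eq_single 0 (fun m hm h0 => by simp [Finset.mem_range.1 hm, h0])
        (fun h0 => absurd (Finset.mem_range.2 he) h0)]
      simp [show 0 < e from he]
    · exact Finset.sum_congr rfl fun m _ => by simp [pow_add]; ring

lemma abv_int {K : Type*} [Field K] (f : AbsoluteValue K ℝ) (c : ℤ) : f c ≤ |(c : ℝ)| := by
  rw [← f.apply_natAbs_eq, ← Int.cast_abs, ← Nat.cast_natAbs]
  exact f.apply_nat_le_self _

lemma abv_sum {K : Type*} [Field K] (f : AbsoluteValue K ℝ) (t : K) {c : ℕ → ℤ} {D : ℕ}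
    (hc : ∀ m, |c m| ≤ D) (n : ℕ) :
    f (∑ m ∈ Finset.range n, (c m : K) * t ^ m) ≤ D * ∑ m ∈ Finset.range n, f t ^ m := by
  rw [Finset.mul_sum]
  refine (f.sum_le _ _).trans (Finset.sum_le_sum fun m _ => ?_)
  rw [map_mul, map_pow]
  exact mul_le_mul_of_nonneg_right ((abv_int f _).trans (by exact_mod_cast hc m))
    (pow_nonneg (f.nonneg _) _)

lemma field_of_alg {θ : ℝ} (h : IsAlgebraic ℚ θ) :
    ∃ (K : Type) (_ : Field K) (_ : NumberField K) (ι : K →+* ℝ) (t : K), ι t = θ := by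
  have := IntermediateField.adjoin.finiteDimensional h.isIntegral
  exact ⟨IntermediateField.adjoin ℚ {θ}, inferInstance, NumberField.of_module_finite ℚ _,
    algebraMap _ ℝ, IntermediateField.AdjoinSimple.gen ℚ θ, rfl⟩

lemma place_real {K : Type} [Field K] (ι : K →+* ℝ) (x : K) :
    InfinitePlace.mk (Complex.ofRealHom.comp ι) x = |ι x| := by
  simp [InfinitePlace.apply]

lemma liou1 {θ : ℝ} (h : IsAlgebraic ℚ θ) : ∃ C : ℝ, 0 < C ∧ ∀ D : ℕ, ∀ᶠ n : ℕ in atTop,
    ∀ x, Sp θ D n x → |x| ≤ Real.exp (C * n) ∧ (x ≠ 0 → Real.exp (-(C * n)) ≤ |x|) := by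
  classical
  obtain ⟨K, _, _, ι, t, rfl⟩ := field_of_alg h
  obtain ⟨q, q0, hq⟩ := ((IsFractionRing.isAlgebraic_iff ℤ ℚ K).2
    (Algebra.IsAlgebraic.isAlgebraic t)).exists_integral_multiple
  set w₀ := InfinitePlace.mk (Complex.ofRealHom.comp ι) with hw₀
  set M := 1 + ∑ w : InfinitePlace K, w t with hM
  have hM1 : 1 ≤ M := le_add_of_nonneg_right (Finset.sum_nonneg fun w _ => apply_nonneg w t)
  have hMw : ∀ w : InfinitePlace K, w t ≤ M := fun w =>
    (Finset.single_le_sum (f := fun w : InfinitePlace K => w t) (fun w _ => apply_nonneg w t)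
      (Finset.mem_univ w)).trans (le_add_of_nonneg_left zero_le_one)
  have q1 : (1 : ℝ) ≤ |(q : ℝ)| := by exact_mod_cast Int.one_le_abs q0
  set c₀ := 2 + Real.log (|(q : ℝ)| * M) with hc₀
  have l0 : 0 ≤ Real.log (|(q : ℝ)| * M) := Real.log_nonneg (one_le_mul_of_one_le_of_one_le q1 hM1)
  set d := Module.finrank ℚ K with hd
  refine ⟨c₀ * (d + 1), by positivity, fun D => ?_⟩
  filter_upwards [eventually_ge_atTop D] with n hn x ⟨c, hc, hx⟩
  set x' := ∑ m ∈ Finset.range n, (c m : K) * t ^ m with hx'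
  have e1 : ι x' = x := by simp [hx', hx]
  set B := Real.exp (c₀ * n) with hB
  have hB1 : 1 ≤ B := Real.one_le_exp (by positivity)
  have hqn : (1 : ℝ) ≤ |(q : ℝ)| ^ n := one_le_pow₀ q1
  have b1 : ∀ w : InfinitePlace K, |(q : ℝ)| ^ n * w x' ≤ B := fun w => by
    have h1 := abv_sum w.1 t hc n
    have h2 : ∑ m ∈ Finset.range n, w.1 t ^ m ≤ n * M ^ n := by
      simpa using Finset.sum_le_card_nsmul (Finset.range n) (fun m => w.1 t ^ m) (M ^ n)
        fun m hm => (pow_le_pow_left₀ (w.1.nonneg _) (hMw w) m).trans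
          (pow_le_pow_right₀ hM1 (Finset.mem_range.1 hm).le)
    have h3 : (n : ℝ) ≤ Real.exp n := by linarith [Real.add_one_le_exp (n : ℝ)]
    have h4 : (D : ℝ) ≤ Real.exp n := le_trans (by exact_mod_cast hn) h3
    have h5 : B = |(q : ℝ)| ^ n * (Real.exp n * (Real.exp n * M ^ n)) := by
      rw [hB, hc₀, add_mul, Real.exp_add, mul_comm (Real.log _), Real.exp_nat_mul,
        Real.exp_log (by positivity), two_mul, Real.exp_add, mul_pow]
      ring
    rw [h5]
    refine mul_le_mul_of_nonneg_left (h1.trans ?_) (by positivity)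
    gcongr
    refine h2.trans ?_
    gcongr
  have b0 : w₀ x' = |x| := by rw [place_real, e1]
  have b2 : B ≤ Real.exp (c₀ * (d + 1) * n) :=
    Real.exp_le_exp.2 (by nlinarith [show 0 ≤ c₀ * d * n by positivity])
  refine ⟨by nlinarith [b1 w₀, abs_nonneg x], fun x0 => ?_⟩
  have i1 : IsIntegral ℤ ((q : K) ^ n * x') := by
    rw [hx', Finset.mul_sum]
    refine IsIntegral.sum _ fun m hm => ?_
    obtain ⟨k, rfl⟩ := Nat.exists_eq_add_of_le (Finset.mem_range.1 hm).le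
    have : (q : K) ^ (m + k) * ((c m : K) * t ^ m) = (c m : K) * ((q : K) ^ k * (q • t) ^ m) := by
      rw [zsmul_eq_mul]; ring
    rw [this]
    exact (isIntegral_intCast _).mul (((isIntegral_intCast _).pow _).mul (hq.pow _))
  set a : 𝓞 K := ⟨_, i1⟩ with ha
  have a0 : a ≠ 0 := fun h0 => by
    have : (q : K) ^ n * x' = 0 := congrArg Subtype.val h0
    rcases mul_eq_zero.1 this with h1 | h1
    · exact q0 (by exact_mod_cast pow_eq_zero_iff'.1 h1 |>.1)
    · exact x0 (by rw [← e1, h1, map_zero])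
  have n1 : (1 : ℝ) ≤ |Algebra.norm ℚ (a : K)| := by
    rw [← Algebra.coe_norm_int, ← Int.cast_one, ← Int.cast_abs, Rat.cast_intCast, Int.cast_le]
    exact Int.one_le_abs (Algebra.norm_ne_zero_iff.mpr a0)
  have b3 : ∀ w : InfinitePlace K, w (a : K) = |(q : ℝ)| ^ n * w x' := fun w => by
    change w ((q : K) ^ n * x') = _
    rw [map_mul, map_pow, ← w.norm_embedding_eq q]
    simp
  rw [← InfinitePlace.prod_eq_abs_norm, ← Finset.mul_prod_erase _ _ (Finset.mem_univ w₀)] at n1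
  have b4 : ∏ w ∈ Finset.univ.erase w₀, w (a : K) ^ w.mult ≤ B ^ d := by
    rw [hd, ← InfinitePlace.sum_mult_eq, ← Finset.prod_pow_eq_pow_sum]
    refine (Finset.prod_le_prod (fun w _ => by positivity) fun w _ =>
      pow_le_pow_left₀ (apply_nonneg _ _) (b3 w ▸ b1 w) _).trans ?_
    exact Finset.prod_le_prod_of_subset_of_one_le (Finset.erase_subset _ _)
      (fun w _ => by positivity) fun w _ _ => one_le_pow₀ hB1
  have b5 : Real.exp (c₀ * (d + 1) * n) = B ^ d * B := by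
    rw [← pow_succ, hB, ← Real.exp_nat_mul]
    congr 1
    push_cast
    ring
  have b6 : |(q : ℝ)| ^ n ≤ B := by
    rw [hB, hc₀, add_mul, Real.exp_add, mul_comm (Real.log _), Real.exp_nat_mul,
      Real.exp_log (by positivity), mul_pow]
    have : 1 ≤ Real.exp (2 * n) := Real.one_le_exp (by positivity)
    have : 1 ≤ M ^ n := one_le_pow₀ hM1
    calc |(q : ℝ)| ^ n = 1 * (|(q : ℝ)| ^ n * 1) := by ring
      _ ≤ _ := by gcongr
  have b7 : 1 ≤ w₀ (a : K) * B ^ d := by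
    rcases le_total (w₀ (a : K)) 1 with h1 | h1
    · refine n1.trans (mul_le_mul ?_ b4 (by positivity) (apply_nonneg _ _))
      exact pow_le_of_le_one (apply_nonneg _ _) h1 InfinitePlace.mult_pos.ne'
    · exact one_le_mul_of_one_le_of_one_le h1 (one_le_pow₀ hB1)
  rw [b3, b0] at b7
  rw [Real.exp_neg, b5, inv_le_iff_one_le_mul₀ (by positivity)]
  refine b7.trans ?_
  calc |(q : ℝ)| ^ n * |x| * B ^ d ≤ B * |x| * B ^ d := by gcongr
    _ = _ := by ring

lemma liou2 {θ : ℝ} (h1 : 1 < θ) (h : IsAlgebraic ℚ θ) (D : ℕ) {g : ℤ} (hg : g ≠ 0) :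
    ∀ᶠ e : ℕ in atTop, ∀ n x, Sp θ D n x → g + θ ^ e * x ≠ 0 := by
  obtain ⟨K, _, _, ι, t, rfl⟩ := field_of_alg h
  obtain ⟨f, hf⟩ : ∃ f : AbsoluteValue K ℝ, f t < 1 := by
    by_contra hc
    push Not at hc
    have t0 : t ≠ 0 := by rintro rfl; norm_num at h1
    have p := prod_abs_eq_one t0
    have p1 : 1 ≤ ∏ᶠ w : FinitePlace K, w t := one_le_finprod fun w => hc w.1
    have p2 : ∏ _w : InfinitePlace K, (1 : ℝ) < ∏ w : InfinitePlace K, w t ^ w.mult :=
      Finset.prod_lt_prod (fun _ _ => one_pos) (fun w _ => one_le_pow₀ (hc w.1))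
        ⟨InfinitePlace.mk (Complex.ofRealHom.comp ι), Finset.mem_univ _,
          one_lt_pow₀ (by rw [place_real]; exact h1.trans_le (le_abs_self _))
            InfinitePlace.mult_pos.ne'⟩
    rw [Finset.prod_const_one] at p2
    nlinarith
  have f0 := f.nonneg t
  have g0 : 0 < f g := f.pos (by exact_mod_cast hg)
  have l := (tendsto_pow_atTop_nhds_zero_of_lt_one f0 hf).mul_const (D * (1 - f t)⁻¹)
  rw [zero_mul] at l
  filter_upwards [l.eventually_lt_const g0] with e he n x ⟨c, hc, hx⟩ h0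
  have e1 : (g : K) = -(t ^ e * ∑ m ∈ Finset.range n, (c m : K) * t ^ m) := by
    apply ι.injective
    simp only [map_intCast, map_neg, map_mul, map_pow, map_sum, ← hx]
    linarith
  have b1 : ∑ m ∈ Finset.range n, f t ^ m ≤ (1 - f t)⁻¹ :=
    (summable_geometric_of_lt_one f0 hf).sum_le_tsum _ (fun _ _ => by positivity) |>.trans_eq
      (tsum_geometric_of_lt_one f0 hf)
  rw [e1, f.map_neg, map_mul, map_pow] at he
  refine absurd he (not_lt.2 (mul_le_mul_of_nonneg_left ((abv_sum f t hc n).trans ?_)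
    (by positivity)))
  gcongr

lemma dio {θ : ℝ} (h1 : 1 < θ) (h : IsAlgebraic ℚ θ) : ∃ C : ℝ, 0 < C ∧ ∀ D : ℕ,
    (∀ᶠ n : ℕ in atTop, ∀ x, Sp θ D n x →
      |x| ≤ Real.exp (C * n) ∧ (x ≠ 0 → Real.exp (-(C * n)) ≤ |x|)) ∧
    ∀ g : ℤ, g ≠ 0 → ∀ᶠ e₀ : ℕ in atTop, ∀ᶠ n : ℕ in atTop, ∀ x, Sp θ D n x → x ≠ 0 →
      ∀ e, e₀ ≤ e → Real.exp (-(C * n)) ≤ |g / θ ^ e + x| := by
  obtain ⟨C, C0, hC⟩ := liou1 h
  have hl := Real.log_pos h1
  have t0 : 0 < θ := by linarith
  set C' := C * ((C + 1) / Real.log θ + 1) + (C + 1) with hC'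
  have c1 : 0 ≤ C * ((C + 1) / Real.log θ + 1) := by positivity
  have c2 : ∀ n : ℕ, (C + 1) * n ≤ C' * n := fun n =>
    mul_le_mul_of_nonneg_right (by linarith) n.cast_nonneg
  refine ⟨C', by positivity, fun D => ⟨?_, fun g hg => ?_⟩⟩
  · filter_upwards [hC D] with n hn x hx
    have : C * n ≤ C' * n := by nlinarith [c2 n, n.cast_nonneg (α := ℝ)]
    exact ⟨(hn x hx).1.trans (Real.exp_le_exp.2 this), fun x0 =>
      le_trans (Real.exp_le_exp.2 (by linarith)) ((hn x hx).2 x0)⟩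
  obtain ⟨e₁, he₁⟩ := eventually_atTop.1 (liou2 h1 h D hg)
  obtain ⟨n₁, hn₁⟩ := eventually_atTop.1 (hC (D + g.natAbs))
  filter_upwards [eventually_ge_atTop e₁, eventually_ge_atTop 1] with e₀ k1 k2
  filter_upwards [hC D, eventually_ge_atTop n₁, eventually_ge_atTop (2 * g.natAbs),
    eventually_ge_atTop 1] with n hn k3 k4 k5 x hx x0 e he
  have p0 : 0 < θ ^ e := by positivity
  have p1 : θ ^ e = Real.exp (e * Real.log θ) := by rw [Real.exp_nat_mul, Real.exp_log t0]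
  have n1 : (1 : ℝ) ≤ n := by exact_mod_cast k5
  rcases le_total ((C + 1) * n) (e * Real.log θ) with hc | hc
  · have a1 := (hn x hx).2 x0
    have a2 : 2 * |(g : ℝ)| ≤ n := by
      rw [← Int.cast_abs, ← Nat.cast_natAbs]; exact_mod_cast k4
    have a3 := Real.add_one_le_exp (n : ℝ)
    have a4 : Real.exp (-(C * n)) = Real.exp (-((C + 1) * n)) * Real.exp n := by
      rw [← Real.exp_add]; congr 1; ring
    have a5 : |g / θ ^ e| ≤ |(g : ℝ)| * Real.exp (-((C + 1) * n)) := by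
      rw [abs_div, abs_of_pos p0, p1, div_eq_mul_inv, ← Real.exp_neg]
      exact mul_le_mul_of_nonneg_left (Real.exp_le_exp.2 (by linarith)) (abs_nonneg _)
    have a6 := abs_sub (g / θ ^ e + x) (g / θ ^ e)
    rw [add_sub_cancel_left] at a6
    have a7 : Real.exp (-(C' * n)) ≤ Real.exp (-((C + 1) * n)) :=
      Real.exp_le_exp.2 (by linarith [c2 n])
    have a8 := Real.exp_pos (-((C + 1) * n))
    have a9 := abs_nonneg (g : ℝ)
    nlinarith
  · have a1 := (hn₁ (e + n) (by omega) _ (hx.shift (by omega) g)).2 (he₁ e (by omega) n x hx)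
    have a2 : g / θ ^ e + x = (g + θ ^ e * x) / θ ^ e := by field_simp
    rw [a2, abs_div, abs_of_pos p0, le_div_iff₀ p0]
    refine le_trans ?_ a1
    rw [p1, ← Real.exp_add, Real.exp_le_exp]
    have a3 : (e : ℝ) ≤ (C + 1) / Real.log θ * n := by
      rw [div_mul_eq_mul_div, le_div_iff₀ hl]; exact hc
    push_cast
    nlinarith

open Polynomial in
lemma tr1 {y : ℝ} (h0 : 0 < y) (h1 : y < 1) (ht : Transcendental ℤ y) (D k : ℕ) :
    ∀ R : ℤ[X], R.coeff 0 ≠ 0 → ∀ᶠ δ in 𝓝[>] (0 : ℝ), ∀ S : Finset ℕ, S.card ≤ k →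
      ∀ (c : ℕ → ℤ) (e : ℕ → ℕ), (∀ j, |c j| ≤ D) → (∀ j ∈ S, 1 ≤ e j) →
        δ ≤ |aeval y R + ∑ j ∈ S, (c j : ℝ) * y ^ e j| := by
  have hR : ∀ R : ℤ[X], R.coeff 0 ≠ 0 → 0 < |aeval y R| := fun R hR =>
    abs_pos.2 fun h => ht ⟨R, by rintro rfl; simp at hR, h⟩
  induction k with
  | zero =>
    intro R h
    filter_upwards [Ioc_mem_nhdsGT (hR R h)] with δ hδ S hS c e _ _
    rw [Finset.card_eq_zero.1 (Nat.le_zero.1 hS)]
    simpa using hδ.2
  | succ k ih =>
    intro R h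
    have r0 := half_pos (hR R h)
    have l := (tendsto_pow_atTop_nhds_zero_of_lt_one h0.le h1).const_mul (((k + 1 : ℕ) : ℝ) * D)
    rw [mul_zero] at l
    obtain ⟨E, hE⟩ := (l.eventually_lt_const r0).exists
    have i1 := (eventually_all_finset (Finset.Icc (-(D : ℤ)) D ×ˢ Finset.Ico 1 E)).2
      fun p hp => ih (R + monomial p.2 p.1) (by
        have := (Finset.mem_Ico.1 (Finset.mem_product.1 hp).2).1
        rwa [coeff_add, coeff_monomial, if_neg (by omega), add_zero])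
    filter_upwards [Ioc_mem_nhdsGT r0, i1] with δ hδ i2 S hS c e hc he
    by_cases hb : ∀ j ∈ S, E ≤ e j
    · have a1 : |∑ j ∈ S, (c j : ℝ) * y ^ e j| ≤ ((k + 1 : ℕ) : ℝ) * D * y ^ E := by
        refine (Finset.abs_sum_le_sum_abs _ _).trans
          ((Finset.sum_le_card_nsmul _ _ (D * y ^ E) fun j hj => ?_).trans ?_)
        · rw [abs_mul, abs_of_pos (pow_pos h0 _)]
          exact mul_le_mul (by exact_mod_cast hc j) (pow_le_pow_of_le_one h0.le h1.le (hb j hj))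
            (by positivity) (by positivity)
        · rw [nsmul_eq_mul, mul_assoc]
          exact mul_le_mul_of_nonneg_right (by exact_mod_cast hS) (by positivity)
      have a2 := abs_sub (aeval y R + ∑ j ∈ S, (c j : ℝ) * y ^ e j) (∑ j ∈ S, (c j : ℝ) * y ^ e j)
      rw [add_sub_cancel_right] at a2
      linarith [hδ.2]
    · push Not at hb
      obtain ⟨j, hj, hj'⟩ := hb
      have := i2 (c j, e j) (Finset.mem_product.2 ⟨Finset.mem_Icc.2 (abs_le.1 (hc j)),
        Finset.mem_Ico.2 ⟨he j hj, hj'⟩⟩) (S.erase j) (by rw [Finset.card_erase_of_mem hj]; omega)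
        c e hc fun i hi => he i (Finset.mem_of_mem_erase hi)
      rw [← Finset.add_sum_erase _ _ hj, ← add_assoc]
      simpa [aeval_monomial] using this

lemma tr2 {θ : ℝ} (h1 : 1 < θ) (ht : Transcendental ℚ θ) (D k : ℕ) :
    ∃ δ : ℝ, 0 < δ ∧ ∀ (S : Finset ℕ) (c : ℕ → ℤ) (p : ℕ), S.card ≤ k → (∀ j, |c j| ≤ D) →
      p ∈ S → c p ≠ 0 → δ * θ ^ p ≤ |∑ m ∈ S, (c m : ℝ) * θ ^ m| := by
  have t0 : 0 < θ := by linarith
  have ht' : Transcendental ℤ θ⁻¹ := fun h =>
    ht (IsAlgebraic.inv_iff.1 ((IsFractionRing.isAlgebraic_iff ℤ ℚ ℝ).1 h))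
  have i1 := (eventually_all_finset ((Finset.Icc (-(D : ℤ)) D).erase 0)).2 fun a ha =>
    tr1 (inv_pos.2 t0) (inv_lt_one_of_one_lt₀ h1) ht' D k (Polynomial.C a)
      (by simpa using Finset.ne_of_mem_erase ha)
  obtain ⟨δ, d1, d2⟩ := (i1.and self_mem_nhdsWithin).exists
  refine ⟨δ, d2, fun S c p hS hc hp p0 => ?_⟩
  set S' := S.filter fun m => c m ≠ 0 with hS'
  have hp' : p ∈ S' := Finset.mem_filter.2 ⟨hp, p0⟩
  set q := S'.max' ⟨p, hp'⟩ with hq
  have q1 : q ∈ S' := S'.max'_mem _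
  have q2 : ∀ m ∈ S', m ≤ q := fun m hm => S'.le_max' m hm
  have a1 := d1 (c q) (Finset.mem_erase.2 ⟨(Finset.mem_filter.1 q1).2,
    Finset.mem_Icc.2 (abs_le.1 (hc q))⟩) (S'.erase q)
    ((Finset.card_le_card ((Finset.erase_subset _ _).trans (Finset.filter_subset _ _))).trans hS)
    c (fun m => q - m) hc fun m hm => by
      have := q2 m (Finset.mem_of_mem_erase hm)
      have := Finset.ne_of_mem_erase hm
      omega
  have a2 : ∑ m ∈ S, (c m : ℝ) * θ ^ m = (Polynomial.aeval θ⁻¹ (Polynomial.C (c q)) +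
      ∑ m ∈ S'.erase q, (c m : ℝ) * θ⁻¹ ^ (q - m)) * θ ^ q := by
    rw [← Finset.sum_filter_of_ne (p := fun m => c m ≠ 0) fun m _ h h0 => h (by simp [h0]),
      ← Finset.add_sum_erase _ _ q1, add_mul, Finset.sum_mul]
    congr 1
    · simp
    · refine Finset.sum_congr rfl fun m hm => ?_
      obtain ⟨r, hr⟩ := Nat.exists_eq_add_of_le (q2 m (Finset.mem_of_mem_erase hm))
      rw [hr, Nat.add_sub_cancel_left, pow_add, inv_pow]
      field_simp
  rw [a2, abs_mul, abs_of_pos (pow_pos t0 q)]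
  exact mul_le_mul a1 (pow_le_pow_right₀ h1.le (q2 p hp')) (by positivity) (abs_nonneg _)

lemma tr3 {θ : ℝ} (h1 : 1 < θ) (ht : Transcendental ℚ θ) (k : ℕ) (g : ℤ) :
    ∀ᶠ p : ℕ in atTop, ∀ (ι : Type) (S : Finset ι) (c : ι → ℤ) (e : ι → ℕ), S.card ≤ k →
      (∀ j, |c j| ≤ 1) → g + ∑ j ∈ S with e j = p, c j ≠ 0 →
        1 ≤ |g * θ ^ p + ∑ j ∈ S, (c j : ℝ) * θ ^ e j| := by
  obtain ⟨δ, d0, hδ⟩ := tr2 h1 ht (g.natAbs + k) (k + 1)
  filter_upwards [((tendsto_pow_atTop_atTop_of_one_lt h1).const_mul_atTop d0).eventually_ge_atTop 1]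
    with p hp ι S c e hS hc h0
  refine hp.trans ((hδ (insert p (S.image e))
    (fun m => (if m = p then g else 0) + ∑ j ∈ S with e j = m, c j) p
    ((Finset.card_insert_le _ _).trans (by linarith [Finset.card_image_le (s := S) (f := e)]))
    (fun m => (abs_add_le _ _).trans ?_) (Finset.mem_insert_self _ _) (by simpa using h0)).trans_eq ?_)
  · push_cast
    refine add_le_add (by split_ifs <;> simp) ((Finset.abs_sum_le_sum_abs _ _).trans
      ((Finset.sum_le_card_nsmul _ _ 1 fun j _ => hc j).trans ?_))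
    rw [nsmul_one]
    exact_mod_cast (Finset.card_filter_le _ _).trans hS
  · congr 1
    push_cast
    simp only [add_mul, Finset.sum_add_distrib, Finset.sum_mul]
    congr 1
    · simp
    · rw [← Finset.sum_fiberwise_of_maps_to (t := insert p (S.image e)) (g := e)
        fun j hj => Finset.mem_insert_of_mem (Finset.mem_image_of_mem e hj)]
      exact Finset.sum_congr rfl fun m _ => Finset.sum_congr rfl fun j hj => by
        rw [(Finset.mem_filter.1 hj).2]

end Pool.Agent.H365Z.Nor
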