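import Pool.Agent.H365Z.Nor.Appr
import Pool.Agent.H365Z.Nor.Liou

/-! Means of characters on a window, against trigonometric weights. -/

set_option autoImplicit false

open Filter Topology MeasureTheory Set

namespace Pool.Agent.H365Z.Nor

/-- the mean of a character on a window -/
noncomputable def kap (x s L ξ₀ t : ℝ) : ℂ :=
  ∫ ξ in x..(x + Real.exp (-s)), ee (t * (L * ξ - ξ₀)) * (Real.exp s : ℝ)

lemma int_exp (x s : ℝ) : ∫ _ξ in x..(x + Real.exp (-s)), Real.exp s = 1 := by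
  simp [← Real.exp_add]

lemma kap_zero (x s L ξ₀ : ℝ) : kap x s L ξ₀ 0 = 1 := by
  simp only [kap, zero_mul, ee_zero, one_mul]
  rw [intervalIntegral.integral_ofReal, int_exp, Complex.ofReal_one]

lemma kap_le_one (x s L ξ₀ t : ℝ) : ‖kap x s L ξ₀ t‖ ≤ 1 := by
  have := mean_le (x := x) (C := 1) (Real.exp_pos (-s)).le (φ := fun _ => Real.exp s)
    continuous_const (fun _ => (Real.exp_pos s).le) (F := fun ξ => ee (t * (L * ξ - ξ₀)))
    fun ξ => (norm_ee _).le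
  rwa [int_exp, mul_one] at this

lemma kap_le (x s ξ₀ : ℝ) {L t : ℝ} (hL : 0 < L) (ht : t ≠ 0) :
    ‖kap x s L ξ₀ t‖ ≤ Real.exp s / L / |t| := by
  have h := FF_zero_le (x := x) (lam := 0) (A := 0) (Real.exp_pos s) (mul_ne_zero ht hL.ne')
  have e : kap x s L ξ₀ t = ee (-(t * ξ₀)) * FF x (Real.exp s) 0 0 0 (t * L) := by
    simp only [kap, FF, rp, Finset.range_zero, Finset.prod_empty, Complex.ofReal_one, mul_one,
      Real.exp_neg, one_div, ← intervalIntegral.integral_const_mul]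
    refine intervalIntegral.integral_congr fun ξ _ => ?_
    rw [show t * (L * ξ - ξ₀) = -(t * ξ₀) + t * L * ξ by ring, ee_add]
    ring
  rw [abs_mul, abs_of_pos hL] at h
  rwa [e, norm_mul, norm_ee, one_mul, div_div, mul_comm L]

lemma near {ι : Type} (I : Finset ι) (B : ι → ℂ) (σ : ι → ℝ) (x s ξ₀ : ℝ) {L μ : ℝ} (hL : 0 < L)
    (hμ : 0 < μ) (p : ι → Prop) [DecidablePred p] (t : ℝ) (h : ∀ i ∈ I, ¬ p i → μ ≤ |t + σ i|) :
    ‖∑ i ∈ I, B i * kap x s L ξ₀ (t + σ i) - ∑ i ∈ I with p i, B i * kap x s L ξ₀ (t + σ i)‖ ≤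
      (∑ i ∈ I, ‖B i‖) * (Real.exp s / L / μ) := by
  rw [← Finset.sum_filter_add_sum_filter_not I p, add_sub_cancel_left, Finset.sum_mul]
  refine (norm_sum_le _ _).trans ((Finset.sum_le_sum fun i hi => ?_).trans
    (Finset.sum_le_sum_of_subset_of_nonneg (Finset.filter_subset _ _) fun _ _ _ => by positivity))
  have h1 := h i (Finset.mem_filter.1 hi).1 (Finset.mem_filter.1 hi).2
  rw [norm_mul]
  refine mul_le_mul_of_nonneg_left ((kap_le x s ξ₀ hL (abs_pos.1 (hμ.trans_le h1))).trans ?_)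
    (norm_nonneg _)
  gcongr

lemma dens {ι : Type} (I : Finset ι) (B : ι → ℂ) (σ : ι → ℝ) (x s L ξ₀ : ℝ) {Φ : ℝ → ℝ}
    (hc : Continuous Φ) (h0 : ∀ u, 0 ≤ Φ u) (hΦ : ∀ u, (Φ u : ℂ) = ∑ i ∈ I, B i * ee (σ i * u)) :
    ∃ Z : ℝ, (Z : ℂ) = ∑ i ∈ I, B i * kap x s L ξ₀ (0 + σ i) ∧
      (∀ t, ‖∑ i ∈ I, B i * kap x s L ξ₀ (t + σ i)‖ ≤ Z) ∧
      (0 < Z → ∃ φ : ℝ → ℝ, Continuous φ ∧ (∀ ξ, 0 ≤ φ ξ) ∧
        ∫ ξ in x..(x + Real.exp (-s)), φ ξ = 1 ∧
        (∀ t, ∫ ξ in x..(x + Real.exp (-s)), ee (t * (L * ξ - ξ₀)) * (φ ξ : ℂ) =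
          (∑ i ∈ I, B i * kap x s L ξ₀ (t + σ i)) / Z) ∧
        ∀ (F : ℝ → ℂ) (a b : ℝ), (∀ ξ, ‖F ξ‖ * Φ (L * ξ - ξ₀) ≤ a * Φ (L * ξ - ξ₀) + b) →
          ‖∫ ξ in x..(x + Real.exp (-s)), F ξ * (φ ξ : ℂ)‖ ≤ a + b / Z) := by
  have c1 : Continuous fun ξ => Real.exp s * Φ (L * ξ - ξ₀) := by fun_prop
  have p1 : ∀ ξ, 0 ≤ Real.exp s * Φ (L * ξ - ξ₀) := fun ξ => mul_nonneg (Real.exp_pos s).le (h0 _)
  have ex : ∀ t, ∫ ξ in x..(x + Real.exp (-s)),
      ee (t * (L * ξ - ξ₀)) * ((Real.exp s * Φ (L * ξ - ξ₀) : ℝ) : ℂ) =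
        ∑ i ∈ I, B i * kap x s L ξ₀ (t + σ i) := fun t => by
    simp only [kap, ← intervalIntegral.integral_const_mul]
    rw [← intervalIntegral.integral_finsetSum fun i _ => Continuous.intervalIntegrable
      (by have := ee_cont; fun_prop) _ _]
    refine intervalIntegral.integral_congr fun ξ _ => ?_
    simp only [Complex.ofReal_mul, hΦ, Finset.mul_sum, add_mul, ee_add]
    exact Finset.sum_congr rfl fun i _ => by ring
  set Z := ∫ ξ in x..(x + Real.exp (-s)), Real.exp s * Φ (L * ξ - ξ₀) with hZ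
  have ha := (Real.exp_pos (-s)).le
  refine ⟨Z, ?_, fun t => ?_, fun Z0 => ⟨fun ξ => Real.exp s * Φ (L * ξ - ξ₀) / Z, c1.div_const _,
    fun ξ => div_nonneg (p1 ξ) Z0.le, ?_, fun t => ?_, fun F a b hF => ?_⟩⟩
  · rw [← ex, hZ, ← intervalIntegral.integral_ofReal]
    simp [ee_zero]
  · rw [← ex]
    simpa only [one_mul] using mean_le (x := x) (C := 1) ha c1 p1 fun ξ => (norm_ee _).le
  · rw [intervalIntegral.integral_div, div_self Z0.ne']
  · rw [← ex, ← intervalIntegral.integral_div]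
    exact intervalIntegral.integral_congr fun ξ _ => by push_cast; ring
  · have e1 : ∫ ξ in x..(x + Real.exp (-s)),
        (a / Z * (Real.exp s * Φ (L * ξ - ξ₀)) + b / Z * Real.exp s) = a + b / Z := by
      rw [intervalIntegral.integral_add (Continuous.intervalIntegrable (by fun_prop) _ _)
        (Continuous.intervalIntegrable (by fun_prop) _ _), intervalIntegral.integral_const_mul,
        ← hZ, intervalIntegral.integral_const_mul, int_exp]
      field_simp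
    rw [← e1]
    refine intervalIntegral.norm_integral_le_of_norm_le (by linarith)
      (Eventually.of_forall fun ξ _ => ?_) (Continuous.intervalIntegrable (by fun_prop) _ _)
    rw [norm_mul, Complex.norm_real, Real.norm_of_nonneg (div_nonneg (p1 ξ) Z0.le)]
    have := mul_le_mul_of_nonneg_left (hF ξ) (div_pos (Real.exp_pos s) Z0).le
    refine le_of_eq_of_le (by ring) (this.trans_eq (by ring))

lemma exists_J {θ : ℝ} (h1 : 1 < θ) {Q : ℕ} (hQ : 1 ≤ Q) {s : ℝ} (hs : 0 ≤ s) (G : ℕ) :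
    ∃ J : ℕ, Q ∣ J ∧ s + G * Real.log θ ≤ J * Real.log θ ∧
      J * Real.log θ ≤ s + (G + Q) * Real.log θ := by
  have hl := Real.log_pos h1
  have q0 : (0 : ℝ) < Q * Real.log θ := by positivity
  have a1 := Nat.le_ceil ((s + G * Real.log θ) / (Q * Real.log θ))
  have a2 := (Nat.ceil_lt_add_one (show 0 ≤ (s + G * Real.log θ) / (Q * Real.log θ) by
    positivity)).le
  rw [div_le_iff₀ q0] at a1
  rw [div_add_one q0.ne', le_div_iff₀ q0] at a2
  refine ⟨Q * ⌈(s + G * Real.log θ) / (Q * Real.log θ)⌉₊, dvd_mul_right _ _, ?_, ?_⟩ <;>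
    push_cast <;> linarith

lemma split {θ δ : ℝ} (h1 : 1 < θ) {d Q i₀ G n e₀ : ℕ} (hd : 1 ≤ d) (hδ : |δ| = θ ^ d) {s : ℝ}
    (hJ1 : s + G * Real.log θ ≤ (d * i₀ : ℕ) * Real.log θ)
    (hJ2 : (d * i₀ : ℕ) * Real.log θ ≤ s + (G + Q) * Real.log θ) {η : ℝ} (hη : 0 ≤ η)
    (m : ℕ → ℂ) (hm : ∀ i, ‖m i‖ ≤ 1)
    (hgap : ∀ i, d * i + e₀ ≤ d * i₀ → ‖m i‖ ≤ η + 2 * (Real.exp s / θ ^ (d * i))) :
    ‖∑ i ∈ Finset.Ico (NN δ s) (NN δ (s + (G + Q + n) * Real.log θ)), m i -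
      ∑ j ∈ Finset.range (n / d), m (i₀ + j)‖ ≤ η * (G + Q) + 2 * (1 - θ⁻¹)⁻¹ + e₀ + (Q + 2) := by
  have hl := Real.log_pos h1
  have t0 : 0 < θ := by linarith
  have d1 : (1 : ℝ) ≤ d := by exact_mod_cast hd
  have hδ1 : 1 < |δ| := hδ ▸ one_lt_pow₀ h1 (by omega)
  have ld : Real.log |δ| = d * Real.log θ := by rw [hδ, Real.log_pow]
  have l0 : 0 < d * Real.log θ := by positivity
  push_cast at hJ1 hJ2
  have g0 : (0 : ℝ) ≤ G * Real.log θ := by positivity
  set N₁ := NN δ s with hN₁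
  set N₂ := NN δ (s + (G + Q + n) * Real.log θ) with hN₂
  have a1 : N₁ ≤ i₀ := Nat.ceil_le.2 (by rw [ld, div_le_iff₀ l0]; linarith)
  have v1 : (d : ℝ) * (n / d : ℕ) ≤ n := by exact_mod_cast Nat.mul_div_le n d
  have v2 : (n : ℝ) ≤ d * ((n / d : ℕ) + 1) := by
    exact_mod_cast (Nat.lt_mul_div_succ n (by omega)).le
  have a2 : i₀ + n / d ≤ N₂ := by
    have := NN_ge (β := δ) (s + (G + Q + n) * Real.log θ)
    rw [ld, div_le_iff₀ l0] at this
    have h2 : ((i₀ + n / d : ℕ) : ℝ) * (d * Real.log θ) ≤ N₂ * (d * Real.log θ) := by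
      push_cast
      nlinarith
    exact_mod_cast le_of_mul_le_mul_right h2 l0
  have a3 : N₂ ≤ i₀ + n / d + (Q + 1) := Nat.ceil_le.2 (by
    rw [ld, div_le_iff₀ l0]
    push_cast
    nlinarith [mul_le_mul_of_nonneg_right v2 hl.le,
      mul_le_mul_of_nonneg_left d1 (show (0 : ℝ) ≤ Q * Real.log θ by positivity)])
  have a4 : ((i₀ - N₁ : ℕ) : ℝ) ≤ G + Q := by
    have := NN_ge (β := δ) s
    rw [ld, div_le_iff₀ l0] at this
    have h3 : (N₁ : ℝ) ≤ i₀ := by exact_mod_cast a1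
    rw [Nat.cast_sub a1]
    refine le_of_mul_le_mul_right ?_ hl
    nlinarith [mul_le_mul_of_nonneg_left d1 (mul_nonneg (sub_nonneg.2 h3) hl.le)]
  rw [← Finset.sum_Ico_consecutive _ (a1.trans (Nat.le_add_right _ _)) a2,
    ← Finset.sum_Ico_consecutive _ a1 (Nat.le_add_right i₀ (n / d)),
    Finset.sum_Ico_eq_sum_range _ i₀, Nat.add_sub_cancel_left,
    show ∀ a b c : ℂ, a + b + c - b = a + c from fun a b c => by ring]
  refine (norm_add_le _ _).trans (add_le_add ?_ ?_)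
  · have b1 : ∀ i ∈ Finset.Ico N₁ i₀, ‖m i‖ ≤ η + 2 * (Real.exp s / θ ^ (d * i)) +
        if i ∈ Finset.Ico (i₀ - e₀) i₀ then 1 else 0 := fun i hi => by
      split_ifs with h
      · linarith [hm i, show 0 ≤ 2 * (Real.exp s / θ ^ (d * i)) by positivity]
      · rw [add_zero]
        refine hgap i ?_
        have := (Finset.mem_Ico.1 hi).2
        have h2 : i + e₀ ≤ i₀ := by
          rw [Finset.mem_Ico] at h
          omega
        nlinarith
    refine (norm_sum_le _ _).trans ((Finset.sum_le_sum b1).trans ?_)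
    rw [Finset.sum_add_distrib, Finset.sum_add_distrib, ← Finset.mul_sum]
    refine add_le_add (add_le_add ?_ (mul_le_mul_of_nonneg_left ?_ zero_le_two)) ?_
    · rw [Finset.sum_const, Nat.card_Ico, nsmul_eq_mul, mul_comm]
      exact mul_le_mul_of_nonneg_left a4 hη
    · have i0 : 0 ≤ θ⁻¹ := by positivity
      have i1 : θ⁻¹ < 1 := inv_lt_one_of_one_lt₀ h1
      rw [Finset.sum_Ico_eq_sum_range, ← tsum_geometric_of_lt_one i0 i1]
      refine le_trans (Finset.sum_le_sum fun j _ => ?_)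
        ((summable_geometric_of_lt_one i0 i1).sum_le_tsum _ fun _ _ => by positivity)
      have b2 := NN_lower hδ1 s
      rw [hδ, ← pow_mul] at b2
      rw [div_le_iff₀ (by positivity), mul_add, pow_add, inv_pow, mul_comm, mul_assoc]
      refine b2.trans (le_mul_of_one_le_right (by positivity) ?_)
      rw [← div_eq_mul_inv, one_le_div (by positivity)]
      exact pow_le_pow_right₀ h1.le (Nat.le_mul_of_pos_left j hd)
    · rw [Finset.sum_boole]
      have : ((Finset.Ico N₁ i₀).filter fun i => i ∈ Finset.Ico (i₀ - e₀) i₀).card ≤ e₀ :=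
        (Finset.card_le_card fun i hi => (Finset.mem_filter.1 hi).2).trans
          (by rw [Nat.card_Ico]; omega)
      exact_mod_cast this
  · refine (norm_sum_le _ _).trans ((Finset.sum_le_card_nsmul _ _ 1 fun i _ => hm i).trans ?_)
    rw [Nat.card_Ico, nsmul_one]
    have : N₂ - (i₀ + n / d) ≤ Q + 2 := by omega
    exact_mod_cast this

lemma int_SS (δ : ℝ) (h : ℤ) (s s' a b : ℝ) {φ : ℝ → ℝ} (hφ : Continuous φ) :
    ∫ ξ in a..b, SS δ h s s' ξ * (φ ξ : ℂ) = ∑ i ∈ Finset.Ico (NN δ s) (NN δ s'),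
      ∫ ξ in a..b, ee (h * (ξ * δ ^ i)) * (φ ξ : ℂ) := by
  simp only [SS, Finset.sum_mul]
  exact intervalIntegral.integral_finsetSum fun i _ => Continuous.intervalIntegrable
    (by have := ee_cont; fun_prop) _ _

lemma pow_even {θ δ : ℝ} {d i : ℕ} (hδ : |δ| = θ ^ d) : δ ^ (2 * i) = θ ^ (d * (2 * i)) := by
  rw [pow_mul θ, ← hδ, pow_mul, pow_mul, sq_abs]

end Pool.Agent.H365Z.Nor
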