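import Pool.Agent.H365Z.Nor.Desc

/-! The nested interval construction for abstract blocks. -/

set_option autoImplicit false

open Filter Topology Set TopologicalSpace

namespace Pool.Agent.H365Z.Nor

/-- blocks that are biased for the base `a` and unbiased for the bases in `G` -/
def Blk (a : ℝ) (G : ℝ → Prop) : Prop :=
  ∃ (g : ℤ) (ω : ℂ) (c : ℝ), g ≠ 0 ∧ ‖ω‖ ≤ 1 ∧ 0 < c ∧ ∀ B : Finset (ℝ × ℤ),
    (∀ p ∈ B, 1 < |p.1| ∧ p.2 ≠ 0 ∧ G p.1) →
    ∀ ε : ℝ, 0 < ε → ∀ᶠ w : ℝ in atTop, ∀ s, 0 ≤ s → ∀ x : ℝ, ∃ x' : ℝ, x ≤ x' ∧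
      x' + Real.exp (-(s + w)) ≤ x + Real.exp (-s) ∧
      ∀ ξ, x' ≤ ξ → ξ ≤ x' + Real.exp (-(s + w)) →
        c * w ≤ (ω * SS a g s (s + w) ξ).re ∧ ∀ p ∈ B, ‖SS p.1 p.2 s (s + w) ξ‖ ≤ ε * w

lemma blk_ind {a : ℝ} (ha : 1 < |a|) : Blk a fun δ => Ind δ a := by
  obtain ⟨c, hc, h⟩ := block ha
  exact ⟨1, 1, c, one_ne_zero, by simp, hc, by simpa only [one_mul, Ind] using h⟩

lemma steps2 (a : ℕ → ℝ) (ha : ∀ j, 1 < |a j|) (G : ℕ → ℝ → Prop) (hG : ∀ j, Blk (a j) (G j)) :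
    ∃ (nx : ℕ → ℕ → ℝ → ℝ) (g : ℕ → ℤ) (ω : ℕ → ℂ) (c : ℕ → ℝ),
      (∀ j, g j ≠ 0 ∧ ‖ω j‖ ≤ 1 ∧ 0 < c j) ∧
      (∀ j k x, x ≤ nx j k x ∧
        nx j k x + Real.exp (-sc (k + 1)) ≤ x + Real.exp (-sc k)) ∧
      (∀ j, ∀ᶠ k : ℕ in atTop, ∀ x ξ, nx j k x ≤ ξ → ξ ≤ nx j k x + Real.exp (-sc (k + 1)) →
        c j * (2 * k + 1) ≤ (ω j * SS (a j) (g j) (sc k) (sc (k + 1)) ξ).re) ∧
      (∀ i (h : ℤ), h ≠ 0 → G 0 (a i) → ∀ ε : ℝ, 0 < ε → ∀ᶠ k : ℕ in atTop, ∀ j x ξ,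
        G j (a i) → nx j k x ≤ ξ → ξ ≤ nx j k x + Real.exp (-sc (k + 1)) →
          ‖SS (a i) h (sc k) (sc (k + 1)) ξ‖ ≤ ε * (2 * k + 1)) := by
  classical
  choose g ω c hg hω hc hb using hG
  let B : ℕ → ℕ → Finset (ℝ × ℤ) := fun j m =>
    ((Finset.range (m + 1) ×ˢ Finset.Icc (-(m : ℤ)) m).filter
      fun p => p.2 ≠ 0 ∧ G j (a p.1)).image fun p => (a p.1, p.2)
  have hB : ∀ j m, ∀ p ∈ B j m,
      1 < |p.1| ∧ p.2 ≠ 0 ∧ G j p.1 := by
    intro j m p hp
    obtain ⟨p', hp', rfl⟩ := Finset.mem_image.1 hp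
    exact ⟨ha _, (Finset.mem_filter.1 hp').2⟩
  choose W hW using fun j m => eventually_atTop.1
    (hb j (B j m) (hB j m) (1 / ((m : ℝ) + 1)) (by positivity))
  let P : ℕ → ℕ → Prop := fun k m => ∀ j ≤ m, W j m ≤ 2 * k + 1
  let mk : ℕ → ℕ := fun k => Nat.findGreatest (P k) k
  let lab : ℕ → ℕ → ℕ := fun j k => if j ≤ mk k then j else 0
  have ex : ∀ j k x, ∃ x', (x ≤ x' ∧ x' + Real.exp (-sc (k + 1)) ≤ x + Real.exp (-sc k)) ∧
      (P k (mk k) → ∀ ξ, x' ≤ ξ → ξ ≤ x' + Real.exp (-sc (k + 1)) →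
        c (lab j k) * (2 * k + 1) ≤ (ω (lab j k) * SS (a (lab j k)) (g (lab j k)) (sc k) (sc (k + 1)) ξ).re ∧
        ∀ p ∈ B (lab j k) (mk k),
          ‖SS p.1 p.2 (sc k) (sc (k + 1)) ξ‖ ≤ 1 / ((mk k : ℝ) + 1) * (2 * k + 1)) := by
    intro j k x
    by_cases hP : P k (mk k)
    · have hl : lab j k ≤ mk k := by simp only [lab]; split_ifs <;> omega
      obtain ⟨x', h1, h2, h3⟩ := hW _ _ _ (hP _ hl) (sc k) (sc_nonneg k) x
      rw [← sc_succ] at h2 h3
      exact ⟨x', ⟨h1, h2⟩, fun _ => h3⟩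
    · refine ⟨x, ⟨le_rfl, ?_⟩, fun h => absurd h hP⟩
      have : Real.exp (-sc (k + 1)) ≤ Real.exp (-sc k) := by
        rw [Real.exp_le_exp, sc_succ]
        have : (0 : ℝ) ≤ k := Nat.cast_nonneg k
        linarith
      linarith
  choose nx h1 h2 using ex
  have ev : ∀ M, ∀ᶠ k : ℕ in atTop, M ≤ mk k ∧ P k (mk k) := by
    intro M
    have e1 : ∀ᶠ k : ℕ in atTop, ∀ j ∈ Finset.range (M + 1), W j M ≤ k :=
      (Filter.eventually_all_finset _).2 fun j _ =>
        tendsto_natCast_atTop_atTop.eventually_ge_atTop _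
    filter_upwards [e1, eventually_ge_atTop M] with k hk hM
    have hP : P k M := fun j hj => by
      have := hk j (Finset.mem_range.2 (by omega))
      have : (0 : ℝ) ≤ k := Nat.cast_nonneg k
      linarith
    exact ⟨Nat.le_findGreatest hM hP, Nat.findGreatest_spec hM hP⟩
  refine ⟨nx, g, ω, c, fun j => ⟨hg j, hω j, hc j⟩, h1, fun j => ?_, fun i h hh hi ε hε => ?_⟩
  · filter_upwards [ev j] with k hk x ξ g1 g2
    have := (h2 j k x hk.2 ξ g1 g2).1
    simpa only [lab, if_pos hk.1] using this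
  · obtain ⟨M, hM⟩ := exists_nat_one_div_lt hε
    filter_upwards [ev (max M (max i h.natAbs))] with k hk j x ξ hj g1 g2
    have m1 : M ≤ mk k := le_trans (le_max_left _ _) hk.1
    have m2 : i ≤ mk k := le_trans ((le_max_left _ _).trans (le_max_right _ _)) hk.1
    have m3 : h.natAbs ≤ mk k := le_trans ((le_max_right _ _).trans (le_max_right _ _)) hk.1
    have hi' : G (lab j k) (a i) := by simp only [lab]; split_ifs <;> assumption
    have := (h2 j k x hk.2 ξ g1 g2).2 (a i, h) (Finset.mem_image.2 ⟨(i, h), Finset.mem_filter.2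
      ⟨Finset.mem_product.2 ⟨Finset.mem_range.2 (by omega),
        Finset.mem_Icc.2 ⟨by simp only; omega, by simp only; omega⟩⟩, hh, hi'⟩, rfl⟩)
    refine this.trans (mul_le_mul_of_nonneg_right ?_ (by positivity))
    refine le_trans ?_ hM.le
    have : (M : ℝ) ≤ mk k := by exact_mod_cast m1
    exact one_div_le_one_div_of_le (by positivity) (by linarith)

lemma bad_sum2 {β : ℝ} (hβ : 1 < |β|) (ξ : ℝ) {g : ℤ} (hg : g ≠ 0) {ω : ℂ} (hω : ‖ω‖ ≤ 1)
    {c : ℝ} (hc : 0 < c) {M : ℕ} (hM : 0 < M)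
    (hd : ∃ᶠ K : ℕ in atTop, ∀ k ∈ Finset.Ico K (K + K / M),
      c * (2 * k + 1) ≤ (ω * SS β g (sc k) (sc (k + 1)) ξ).re) :
    ¬ UD fun n => ξ * β ^ n := by
  intro hU
  have hl := Real.log_pos hβ
  set C := 1 / Real.log |β| + 1 with hC
  have hC0 : 0 < C := by positivity
  have hM0 : (0 : ℝ) < M := by exact_mod_cast hM
  have hW := NormedAddGroup.tendsto_nhds_zero.1 (UD_iff.1 hU g hg) (c / (8 * C * M))
    (by positivity)
  obtain ⟨K₀, hK₀⟩ := eventually_atTop.1 ((NN_sc_tendsto hβ).eventually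
    (hW.and (eventually_gt_atTop 0)))
  obtain ⟨K, hK, k1, k2⟩ :=
    (hd.and_eventually ((eventually_ge_atTop K₀).and (eventually_ge_atTop (2 * M)))).exists
  have hK1 : 2 * (M : ℝ) ≤ K := by exact_mod_cast k2
  have hM1 : (1 : ℝ) ≤ M := by exact_mod_cast hM
  have bd : ∀ k, K ≤ k → k ≤ 2 * K → ‖∑ n ∈ Finset.range (NN β (sc k)),
      ee (g * (ξ * β ^ n))‖ < c / (2 * M) * K ^ 2 := by
    intro k h1 h2
    obtain ⟨g1, g2⟩ := hK₀ k (k1.trans h1)
    have g3 : (0 : ℝ) < NN β (sc k) := by exact_mod_cast g2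
    rw [norm_div, Complex.norm_natCast, div_lt_iff₀ g3] at g1
    refine g1.trans_le ?_
    have g4 : (NN β (sc k) : ℝ) ≤ C * (4 * K ^ 2) := by
      refine (NN_le hβ (sc_nonneg k)).trans ?_
      have g5 : (k : ℝ) ≤ 2 * K := by exact_mod_cast h2
      have g6 : sc k ≤ 4 * K ^ 2 := by
        have : (0 : ℝ) ≤ k := Nat.cast_nonneg k
        unfold sc; nlinarith
      have g7 : sc k / Real.log |β| ≤ 4 * K ^ 2 / Real.log |β| :=
        div_le_div_of_nonneg_right g6 hl.le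
      rw [hC, add_mul, one_div, mul_comm _ (4 * (K : ℝ) ^ 2), ← div_eq_mul_inv]
      nlinarith
    refine (mul_le_mul_of_nonneg_left g4 (by positivity)).trans (le_of_eq ?_)
    field_simp
    ring
  have hdiv : K / M ≤ K := Nat.div_le_self _ _
  have b1 := bd K le_rfl (by omega)
  have b2 := bd (K + K / M) (Nat.le_add_right _ _) (by omega)
  have e := sum_blocks hβ g ξ (K := K) (K' := K + K / M) (Nat.le_add_right _ _)
  have b3 : ((K / M : ℕ) : ℝ) * (c * (2 * K)) ≤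
      (ω * ∑ k ∈ Finset.Ico K (K + K / M), SS β g (sc k) (sc (k + 1)) ξ).re := by
    rw [Finset.mul_sum, Complex.re_sum]
    have := Finset.card_nsmul_le_sum (Finset.Ico K (K + K / M))
      (fun k => (ω * SS β g (sc k) (sc (k + 1)) ξ).re) (c * (2 * K)) (fun k hk => by
        refine le_trans (mul_le_mul_of_nonneg_left ?_ hc.le) (hK k hk)
        have : (K : ℝ) ≤ k := by exact_mod_cast (Finset.mem_Ico.1 hk).1
        linarith)
    simpa using this
  have b4 : (K : ℝ) / (2 * M) ≤ (K / M : ℕ) := by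
    have h2 : K < M * (K / M + 1) := Nat.lt_mul_div_succ _ hM
    have h4 : (K : ℝ) < M * (((K / M : ℕ) : ℝ) + 1) := by exact_mod_cast h2
    rw [div_le_iff₀ (by positivity)]
    nlinarith
  have b5 := Complex.re_le_norm
    (ω * ∑ k ∈ Finset.Ico K (K + K / M), SS β g (sc k) (sc (k + 1)) ξ)
  rw [norm_mul] at b5
  have b5' := mul_le_of_le_one_left
    (norm_nonneg (∑ k ∈ Finset.Ico K (K + K / M), SS β g (sc k) (sc (k + 1)) ξ)) hω
  have b6 := norm_sub_le (∑ n ∈ Finset.range (NN β (sc (K + K / M))), ee (g * (ξ * β ^ n)))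
    (∑ n ∈ Finset.range (NN β (sc K)), ee (g * (ξ * β ^ n)))
  rw [e, add_sub_cancel_left, ← e] at b6
  have b7 := mul_le_mul_of_nonneg_right b4 (show 0 ≤ c * (2 * K) by positivity)
  have b8 : (K : ℝ) / (2 * M) * (c * (2 * K)) = 2 * (c / (2 * M) * K ^ 2) := by ring
  linarith

open Classical in
theorem labels2 (a : ℕ → ℝ) (ha : ∀ j, 1 < |a j|) (G : ℕ → ℝ → Prop)
    (hG : ∀ j, Blk (a j) (G j)) : ∃ F : (ℕ → ℕ) → ℝ, Continuous F ∧
    (∀ (l : ℕ → ℕ) (j M : ℕ), 0 < M →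
      (∃ᶠ K : ℕ in atTop, ∀ k ∈ Finset.Ico K (K + K / M), l k = j) →
        ¬ UD fun n => F l * a j ^ n) ∧
    (∀ (l : ℕ → ℕ) (i : ℕ), G 0 (a i) →
      Tendsto (fun K : ℕ => (((Finset.range K).filter fun k => ¬ G (l k) (a i)).card : ℝ) / K)
        atTop (𝓝 0) → UD fun n => F l * a i ^ n) := by
  obtain ⟨nx, g, ω, c, hc, h1, h2, h3⟩ := steps2 a ha G hG
  let X : (ℕ → ℕ) → ℕ → ℝ := fun l k => Nat.rec 0 (fun k x => nx (l k) k x) k
  have hX : ∀ l k, X l (k + 1) = nx (l k) k (X l k) := fun _ _ => rfl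
  have m1 : ∀ l, Monotone (X l) := fun l => monotone_nat_of_le_succ fun k => (h1 _ _ _).1
  have m2 : ∀ l, Antitone fun k => X l k + Real.exp (-sc k) :=
    fun l => antitone_nat_of_succ_le fun k => (h1 _ _ _).2
  have m3 : ∀ l k k', X l k' ≤ X l k + Real.exp (-sc k) := by
    intro l k k'
    have := m1 l (le_max_right k k')
    have := m2 l (le_max_left k k')
    have := Real.exp_pos (-sc (max k k'))
    simp only at *
    linarith
  let F : (ℕ → ℕ) → ℝ := fun l => ⨆ k, X l k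
  have f1 : ∀ l k, X l k ≤ F l := fun l k =>
    le_ciSup (f := X l) ⟨_, by rintro _ ⟨k', rfl⟩; exact m3 l 0 k'⟩ k
  have f2 : ∀ l k, F l ≤ X l k + Real.exp (-sc k) := fun l k => ciSup_le (m3 l k)
  have lc : ∀ k, IsLocallyConstant fun l => X l k := by
    intro k
    induction k with
    | zero => exact IsLocallyConstant.const 0
    | succ k ih =>
      have : IsLocallyConstant fun l : ℕ → ℕ => l k :=
        (IsLocallyConstant.iff_continuous _).2 (continuous_apply k)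
      exact (this.prodMk ih).comp fun p => nx p.1 k p.2
  refine ⟨F, ?_, fun l j M hM hf => ?_, fun l i hi hd => ?_⟩
  · refine continuous_of_uniform_approx_of_continuous fun u hu => ?_
    obtain ⟨ε, hε, hu⟩ := Metric.mem_uniformity_dist.1 hu
    have t1 : Tendsto sc atTop atTop :=
      (tendsto_pow_atTop two_ne_zero).comp tendsto_natCast_atTop_atTop
    obtain ⟨k, hk⟩ := ((Real.tendsto_exp_neg_atTop_nhds_zero.comp t1).eventually
      (gt_mem_nhds hε)).exists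
    refine ⟨fun l => X l k, (lc k).continuous, fun l => hu ?_⟩
    rw [Real.dist_eq, abs_lt]
    have := f1 l k
    have := f2 l k
    simp only [Function.comp] at hk
    constructor <;> linarith
  · obtain ⟨K₀, hK₀⟩ := eventually_atTop.1 (h2 j)
    refine bad_sum2 (ha j) _ (hc j).1 (hc j).2.1 (hc j).2.2 hM ((hf.and_eventually (eventually_ge_atTop K₀)).mono ?_)
    rintro K ⟨g1, g2⟩ k hk
    refine hK₀ k (g2.trans (Finset.mem_Ico.1 hk).1) (X l k) _ ?_ ?_
    · rw [← g1 k hk]; exact f1 l (k + 1)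
    · rw [← g1 k hk]; exact f2 l (k + 1)
  · refine UD_iff.2 fun h hh => good_sum (ha i) h _ ?_
    set C := 1 / Real.log |a i| + 1 with hC
    let d : ℕ → ℝ := fun k => ‖SS (a i) h (sc k) (sc (k + 1)) (F l)‖ / (2 * k + 1)
    have d0 : ∀ k, 0 ≤ d k := fun k => by positivity
    have dC : ∀ k, d k ≤ C := fun k => by
      rw [div_le_iff₀ (by positivity)]
      exact (SS_le _ _ _ _ _).trans (SS_sc_le (ha i) k)
    let e : ℕ → ℝ := fun k => if G (l k) (a i) then d k else 0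
    have he : Tendsto e atTop (𝓝 0) := by
      rw [NormedAddGroup.tendsto_nhds_zero]
      intro ε hε
      filter_upwards [h3 i h hh hi (ε / 2) (by positivity)] with k hk
      simp only [e]
      split_ifs with gg
      · rw [Real.norm_of_nonneg (d0 k)]
        refine lt_of_le_of_lt ?_ (half_lt_self hε)
        rw [div_le_iff₀ (by positivity)]
        exact hk (l k) (X l k) _ gg (f1 l (k + 1)) (f2 l (k + 1))
      · simpa using hε
    have t2 := he.cesaro.add (hd.const_mul C)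
    rw [mul_zero, add_zero] at t2
    refine squeeze_zero (fun K => mul_nonneg (by positivity) (Finset.sum_nonneg fun k _ => d0 k))
      (fun K => ?_) t2
    rw [div_eq_inv_mul, mul_left_comm, ← mul_add]
    refine mul_le_mul_of_nonneg_left ?_ (by positivity)
    rw [Finset.card_filter]
    push_cast
    rw [Finset.mul_sum, ← Finset.sum_add_distrib]
    refine Finset.sum_le_sum fun k _ => ?_
    simp only [e]
    split_ifs with gg
    · simp [d]
    · simpa using dC k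

theorem master2 (α : ℕ → ℝ) (hα : ∀ j, 1 < |α j|) (G : ℕ → ℝ → Prop)
    (hG : ∀ j, Blk (α j) (G j)) : ∃ f : (ℕ → ℕ → ℕ) → ℝ, Continuous f ∧
    (∀ X j, ¬ Tendsto (X j) atTop atTop → ¬ UD fun n => f X * α j ^ n) ∧
    (∀ X i, (∀ j, ¬ G j (α i) → Tendsto (X j) atTop atTop) →
      UD fun n => f X * α i ^ n) := by
  classical
  obtain ⟨γ, hγ, hγ'⟩ := exists_aux α hα
  let a : ℕ → ℝ := fun j => Nat.casesOn j γ α
  obtain ⟨G', hG0, hG1⟩ : ∃ G' : ℕ → ℝ → Prop, (G' 0 = fun δ => Ind δ γ) ∧ ∀ j, G' (j + 1) = G j :=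
    ⟨fun j => Nat.casesOn j (fun δ => Ind δ γ) G, rfl, fun _ => rfl⟩
  obtain ⟨F, hF, hbad, hgood⟩ := labels2 a (fun j => by cases j; exacts [hγ, hα _]) G'
    (fun j => by cases j; exacts [hG0 ▸ blk_ind hγ, (hG1 _).symm ▸ hG _])
  let g : (ℕ → ℕ → ℕ) → ℕ → ℕ := fun X n => X n.unpair.1 n.unpair.2
  let lab : (ℕ → ℕ → ℕ) → ℕ → ℕ := fun X k =>
    if k < 2 ^ Nat.log 2 k + 2 ^ Nat.log 2 k / (g X (Nat.log 2 k) + (Nat.log 2 k).unpair.1 + 1)
    then (Nat.log 2 k).unpair.1 + 1 else 0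
  refine ⟨fun X => F (lab X), hF.comp (continuous_pi fun k => ?_), fun X j hX => ?_,
    fun X i hX => ?_⟩
  · have : Continuous fun X => g X (Nat.log 2 k) := by fun_prop
    exact (continuous_of_discreteTopology (f := fun v : ℕ =>
      if k < 2 ^ Nat.log 2 k + 2 ^ Nat.log 2 k / (v + (Nat.log 2 k).unpair.1 + 1)
      then (Nat.log 2 k).unpair.1 + 1 else 0)).comp this
  · rw [tendsto_atTop, not_forall] at hX
    obtain ⟨b, hb⟩ := hX
    rw [not_eventually] at hb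
    refine hbad (lab X) (j + 1) (b + j + 1) (by omega) ?_
    rw [frequently_atTop] at hb ⊢
    intro K₀
    obtain ⟨t, ht, hb⟩ := hb K₀
    refine ⟨2 ^ Nat.pair j t, ht.trans ((Nat.right_le_pair j t).trans Nat.lt_two_pow_self.le),
      fun k hk => ?_⟩
    obtain ⟨k1, k2⟩ := Finset.mem_Ico.1 hk
    have k3 : 2 ^ Nat.pair j t / (b + j + 1) ≤ 2 ^ Nat.pair j t := Nat.div_le_self _ _
    have k4 : Nat.log 2 k = Nat.pair j t :=
      (Nat.log_eq_iff (Or.inr ⟨by norm_num, by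
        have := Nat.two_pow_pos (Nat.pair j t)
        omega⟩)).2 ⟨k1, by rw [pow_succ]; omega⟩
    have k5 : 2 ^ Nat.pair j t / (b + j + 1) ≤ 2 ^ Nat.pair j t / (X j t + j + 1) :=
      Nat.div_le_div_left (by omega) (by omega)
    simp only [lab, g, k4, Nat.unpair_pair]
    rw [if_pos (by omega)]
  · refine hgood (lab X) (i + 1) (by rw [hG0]; exact hγ' i) ?_
    rw [NormedAddGroup.tendsto_nhds_zero]
    intro ε hε
    obtain ⟨M, hM⟩ := exists_nat_gt (4 / ε)
    have hM0 : (0 : ℝ) < M := lt_trans (by positivity) hM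
    have hM1 : 0 < M := by exact_mod_cast hM0
    have e1 : ∀ᶠ t : ℕ in atTop, ∀ j ∈ Finset.range M, ¬ G j (α i) → M ≤ X j t := by
      refine (Filter.eventually_all_finset _).2 fun j _ => ?_
      by_cases h : G j (α i)
      · exact Eventually.of_forall fun t h' => absurd h h'
      · exact ((hX j h).eventually_ge_atTop M).mono fun t ht _ => ht
    obtain ⟨t₀, ht₀⟩ := eventually_atTop.1 e1
    obtain ⟨n₀, hn₀⟩ : ∃ n₀, ∀ n : ℕ, n₀ ≤ n → M ≤ n.unpair.1 ∨ t₀ ≤ n.unpair.2 := by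
      refine ⟨(max M t₀ + 1) ^ 2, fun n hn => ?_⟩
      by_contra hcon
      push Not at hcon
      have h1 := Nat.pair_lt_max_add_one_sq n.unpair.1 n.unpair.2
      rw [Nat.pair_unpair] at h1
      have h2 : (max n.unpair.1 n.unpair.2 + 1) ^ 2 ≤ (max M t₀ + 1) ^ 2 :=
        Nat.pow_le_pow_left (by omega) 2
      omega
    have hsub : ∀ K, ((Finset.range K).filter fun k => ¬ G' (lab X k) (a (i + 1))) ⊆
        Finset.range (2 ^ n₀) ∪
          (Finset.range K).filter fun k => k < 2 ^ Nat.log 2 k + 2 ^ Nat.log 2 k / M := by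
      intro K k hk
      obtain ⟨k1, k2⟩ := Finset.mem_filter.1 hk
      rw [Finset.mem_union]
      by_cases k3 : k < 2 ^ n₀
      · exact Or.inl (Finset.mem_range.2 k3)
      refine Or.inr (Finset.mem_filter.2 ⟨k1, ?_⟩)
      have k4 : n₀ ≤ Nat.log 2 k := Nat.le_log_of_pow_le (by norm_num) (not_lt.1 k3)
      simp only [lab] at k2
      split_ifs at k2 with k5
      · rw [hG1] at k2
        refine k5.trans_le (Nat.add_le_add_left (Nat.div_le_div_left ?_ hM1) _)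
        by_cases k6 : M ≤ (Nat.log 2 k).unpair.1
        · omega
        · have := ht₀ _ ((hn₀ _ k4).resolve_left k6) _ (Finset.mem_range.2 (not_le.1 k6)) k2
          simp only [g]
          omega
      · rw [hG0] at k2
        exact absurd (hγ' i) k2
    filter_upwards [(tendsto_const_div_atTop_nhds_zero_nat ((2 : ℝ) ^ n₀ + 1)).eventually
      (gt_mem_nhds (half_pos hε)), eventually_gt_atTop 0] with K hK hK0
    have hK1 : (0 : ℝ) < K := by exact_mod_cast hK0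
    rw [Real.norm_of_nonneg (by positivity)]
    have c1 := (Finset.card_le_card (hsub K)).trans (Finset.card_union_le _ _)
    rw [Finset.card_range] at c1
    have c2 : (((Finset.range K).filter fun k => ¬ G' (lab X k) (a (i + 1))).card : ℝ) ≤
        2 ^ n₀ + (((Finset.range K).filter
          fun k => k < 2 ^ Nat.log 2 k + 2 ^ Nat.log 2 k / M).card : ℝ) := by exact_mod_cast c1
    have c3 := count_short hM1 K
    have c4 : 2 * (K : ℝ) / M ≤ ε / 2 * K := by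
      rw [div_lt_iff₀ hε] at hM
      rw [div_le_iff₀ hM0]
      nlinarith
    rw [div_lt_iff₀ hK1] at hK ⊢
    linarith


theorem diff_hard2 {α β : ℝ} (hα : 1 < |α|) (hβ : 1 < |β|) (h : Blk β fun δ => δ = α) :
    ¬ D2 ({ξ : ℝ | UD fun n => ξ * α ^ n} \ {ξ : ℝ | UD fun n => ξ * β ^ n})ᶜ := by
  obtain ⟨A, B, hA, hB, hD⟩ := exists_hard
  obtain ⟨f, hf, h1, h2⟩ := master2 (fun j => Nat.casesOn j α fun _ => β)
    (fun j => by cases j; exacts [hα, hβ])
    (fun j => Nat.casesOn j (fun δ => Ind δ α) fun _ δ => δ = α)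
    (fun j => by cases j; exacts [blk_ind hα, h])
  obtain ⟨x, hx, hx'⟩ := hA.reduce baire_basis
  obtain ⟨z, hz, hz'⟩ := hB.reduce baire_basis
  let X : (ℕ → ℕ) → ℕ → ℕ → ℕ := fun y j => Nat.casesOn j (x y) fun _ => z y
  have hX : Continuous X := continuous_pi fun j => by cases j; exacts [hx, hz]
  rintro ⟨C, D, hC, hD', hCD⟩
  refine hD ⟨_, _, hC.preimage (hf.comp hX), hD'.preimage (hf.comp hX), ?_⟩
  rw [← preimage_diff, ← hCD]
  ext y
  simp only [mem_compl_iff, mem_diff, mem_preimage, mem_setOf_eq, Function.comp]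
  refine not_congr ⟨fun ⟨g1, g2⟩ => ⟨h2 (X y) 0 ?_, h1 (X y) 1 fun t => g2 ((hz' y).2 t)⟩,
    fun ⟨g1, g2⟩ => ?_⟩
  · rintro (_ | j) hj
    · exact (hx' y).1 g1
    · exact absurd rfl hj
  · have g3 : y ∈ A := by_contra fun t => h1 (X y) 0 (fun t' => t ((hx' y).2 t')) g1
    refine ⟨g3, fun t => g2 (h2 (X y) 1 ?_)⟩
    rintro (_ | j) -
    · exact (hx' y).1 g3
    · exact (hz' y).1 t

end Pool.Agent.H365Z.Nor
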