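import Pool.Agent.H365Z.Nor.Riesz

/-! First and second moment estimates. -/

set_option autoImplicit false

open Filter Topology MeasureTheory Set

namespace Pool.Agent.H365Z.Nor

/-- the first index `n` with `|β| ^ n ≥ exp s` -/
noncomputable def NN (β s : ℝ) : ℕ := ⌈s / Real.log |β|⌉₊

section nn
variable {β : ℝ}

lemma pow_eq_exp (hβ : 1 < |β|) (n : ℕ) : |β| ^ n = Real.exp (n * Real.log |β|) := by
  rw [Real.exp_nat_mul, Real.exp_log (by linarith)]

lemma NN_lower (hβ : 1 < |β|) (s : ℝ) : Real.exp s ≤ |β| ^ NN β s := by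
  have hl := Real.log_pos hβ
  rw [pow_eq_exp hβ, Real.exp_le_exp, ← div_le_iff₀ hl]
  exact Nat.le_ceil _

lemma NN_upper (hβ : 1 < |β|) {s : ℝ} (hs : 0 ≤ s) : |β| ^ NN β s ≤ Real.exp s * |β| := by
  have hl := Real.log_pos hβ
  have h := Nat.ceil_lt_add_one (div_nonneg hs hl.le)
  have h2 : (NN β s : ℝ) * Real.log |β| ≤ s + Real.log |β| := by
    have := mul_le_mul_of_nonneg_right h.le hl.le
    rwa [add_mul, div_mul_cancel₀ _ hl.ne', one_mul] at this
  rw [pow_eq_exp hβ]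
  refine (Real.exp_le_exp.2 h2).trans (le_of_eq ?_)
  rw [Real.exp_add, Real.exp_log (by linarith)]

lemma NN_mono (hβ : 1 < |β|) {s s' : ℝ} (h : s ≤ s') : NN β s ≤ NN β s' :=
  Nat.ceil_mono (div_le_div_of_nonneg_right h (Real.log_pos hβ).le)

lemma NN_ge (s : ℝ) : s / Real.log |β| ≤ NN β s := Nat.le_ceil _

lemma NN_le (hβ : 1 < |β|) {s : ℝ} (hs : 0 ≤ s) : (NN β s : ℝ) ≤ s / Real.log |β| + 1 :=
  (Nat.ceil_lt_add_one (div_nonneg hs (Real.log_pos hβ).le)).le

lemma NN_len (hβ : 1 < |β|) {s w : ℝ} (hs : 0 ≤ s) (hw : 0 ≤ w) :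
    w / Real.log |β| - 1 ≤ ((NN β (s + w) - NN β s : ℕ) : ℝ) ∧
      ((NN β (s + w) - NN β s : ℕ) : ℝ) ≤ w / Real.log |β| + 1 := by
  rw [Nat.cast_sub (NN_mono hβ (by linarith))]
  have h1 := NN_ge (β := β) s
  have h2 := NN_ge (β := β) (s + w)
  have h3 := NN_le hβ hs
  have h4 := NN_le hβ (show 0 ≤ s + w by linarith)
  rw [add_div] at h2 h4
  constructor <;> linarith

end nn

lemma Sig_two {A : ℝ} (hA : 8 ≤ A) {s : ℝ} (hs : s ∈ Sig A 2) :
    ∃ e : ℝ, (e = 0 ∨ |e| = 1) ∧ |s * A - e| ≤ 1 / A := by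
  have hA0 : 0 < A := by linarith
  have h1 : ∀ r ∈ Sig A 1, |r| ≤ 1 / A := by
    intro r hr
    simp only [Sig, Finset.mem_union, Finset.mem_image, Finset.mem_singleton] at hr
    rcases hr with ⟨_, rfl, rfl⟩ | ⟨_, rfl, rfl⟩ | ⟨_, rfl, rfl⟩
    · simp; positivity
    · simp [abs_div, abs_of_pos hA0]
    · simp [abs_of_pos hA0]
  rcases Finset.mem_union.1 hs with h | h
  · obtain ⟨r, hr, rfl⟩ := Finset.mem_image.1 h
    exact ⟨0, Or.inl rfl, by rw [div_mul_cancel₀ _ hA0.ne', sub_zero]; exact h1 r hr⟩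
  rcases Finset.mem_union.1 h with h | h
  · obtain ⟨r, hr, rfl⟩ := Finset.mem_image.1 h
    exact ⟨-1, Or.inr (by simp), by rw [div_mul_cancel₀ _ hA0.ne']; simpa using h1 r hr⟩
  · obtain ⟨r, hr, rfl⟩ := Finset.mem_image.1 h
    exact ⟨1, Or.inr (by simp), by rw [div_mul_cancel₀ _ hA0.ne']; simpa using h1 r hr⟩

/-- the step `q` is suitable for the base `α` -/
structure Step (α : ℝ) (q : ℕ) : Prop where
  h1 : 1 < |α|
  hq : 0 < q
  he : α ^ q = |α| ^ q
  h8 : 8 ≤ α ^ q
  h2 : 2 ≤ α ^ q * (1 - 1 / |α|)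

lemma exists_step {α : ℝ} (h1 : 1 < |α|) : ∃ q, Step α q := by
  have h0 : 0 < 1 - 1 / |α| := by
    rw [sub_pos, div_lt_one (by linarith)]; exact h1
  obtain ⟨k, hk⟩ := pow_unbounded_of_one_lt (max 8 (2 / (1 - 1 / |α|))) h1
  have he : α ^ (2 * (k + 1)) = |α| ^ (2 * (k + 1)) := by
    rw [pow_mul, pow_mul, sq_abs]
  have h3 : |α| ^ k ≤ |α| ^ (2 * (k + 1)) := pow_le_pow_right₀ h1.le (by omega)
  refine ⟨2 * (k + 1), h1, by omega, he, ?_, ?_⟩
  · rw [he]; linarith [le_max_left 8 (2 / (1 - 1 / |α|))]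
  · rw [he, ← div_le_iff₀ h0]; linarith [le_max_right 8 (2 / (1 - 1 / |α|))]

section alpha
variable {α : ℝ} {q : ℕ}

lemma Step.ne (S : Step α q) (n : ℕ) : α ^ n ≠ 0 :=
  pow_ne_zero _ (abs_pos.1 (by linarith [S.h1]))

lemma Step.E_le (S : Step α q) (s : ℝ) (u : ℕ) :
    Real.exp s / |α ^ (NN α s + u)| ≤ 1 / |α| ^ u := by
  have h0 : 0 < |α| := by linarith [S.h1]
  rw [abs_pow, pow_add, div_le_div_iff₀ (by positivity) (by positivity), one_mul]
  exact mul_le_mul_of_nonneg_right (NN_lower S.h1 s) (by positivity)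

lemma Step.ev_E (S : Step α q) {E : ℝ} (hE : 0 < E) :
    ∀ᶠ u : ℕ in atTop, ∀ s, Real.exp s / |α ^ (NN α s + u)| ≤ E := by
  have h0 : 0 < |α| := by linarith [S.h1]
  filter_upwards [(tendsto_pow_atTop_atTop_of_one_lt S.h1).eventually_ge_atTop (1 / E)] with u hu s
  refine (S.E_le s u).trans ?_
  rw [div_le_iff₀ (by positivity)]
  rw [div_le_iff₀ hE] at hu
  linarith

lemma pow_gap {a : ℝ} (ha : 1 < a) {n k : ℕ} (h : n ≠ k) :
    a ^ k * (1 - 1 / a) ≤ |a ^ n - a ^ k| := by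
  have h0 : 0 < a := by linarith
  rcases lt_or_gt_of_ne h with h | h
  · have h1 : a ^ (n + 1) ≤ a ^ k := pow_le_pow_right₀ ha.le h
    have h2 : a ^ n ≤ a ^ k / a := by rw [le_div_iff₀ h0, ← pow_succ]; exact h1
    refine le_trans ?_ (neg_le_abs _)
    have : a ^ k * (1 - 1 / a) = a ^ k - a ^ k / a := by ring
    linarith
  · have h1 : a ^ (k + 1) ≤ a ^ n := pow_le_pow_right₀ ha.le h
    refine le_trans ?_ (le_abs_self _)
    rw [pow_succ] at h1
    have h3 : 0 < a ^ k := by positivity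
    have h4 : 1 - 1 / a ≤ a - 1 := by
      have : 2 - a ≤ 1 / a := by rw [le_div_iff₀ h0]; nlinarith
      linarith
    nlinarith

lemma Step.not_near (S : Step α q) {n₀ n K : ℕ} (hn : n₀ + 2 * q ≤ n)
    (hd : ∀ i, n ≠ n₀ + q * i) : ¬ Near (α ^ n₀) (α ^ q) K (α ^ n) := by
  intro h
  have h0 : 0 < |α| := by linarith [S.h1]
  have hA := S.h8
  have hA0 : 0 < α ^ q := by linarith
  have e : ∀ i, |α ^ n₀| * (α ^ q) ^ i = |α| ^ (n₀ + q * i) := by
    intro i; rw [abs_pow, S.he, ← pow_mul, ← pow_add]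
  obtain ⟨j, s, hs, h1, -, h3⟩ := near_struct hA (S.ne n₀) h 2 (by
    rw [e, abs_pow]
    have : |α| ^ (n₀ + q * 2) ≤ |α| ^ n := pow_le_pow_right₀ S.h1.le (by omega)
    have : 0 < |α| ^ (n₀ + q * 2) := by positivity
    linarith)
  obtain ⟨ε, hε, h4⟩ := Sig_two hA hs
  set P := |α ^ n₀| * (α ^ q) ^ j with hP
  have hP0 : 0 < P := mul_pos (abs_pos.2 (S.ne _)) (pow_pos hA0 j)
  have h5 : |α ^ n - ε * (α ^ n₀ * (α ^ q) ^ (j + 1))| ≤ P / 4 + P := by
    have e2 : α ^ n - ε * (α ^ n₀ * (α ^ q) ^ (j + 1)) =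
        (α ^ n - s * (α ^ n₀ * (α ^ q) ^ (j + 2))) +
          (s * α ^ q - ε) * (α ^ n₀ * (α ^ q) ^ (j + 1)) := by ring
    rw [e2]
    refine (abs_add_le _ _).trans (add_le_add h3 ?_)
    rw [abs_mul, abs_freq hA]
    calc _ ≤ 1 / α ^ q * (|α ^ n₀| * (α ^ q) ^ (j + 1)) :=
          mul_le_mul_of_nonneg_right h4 (by positivity)
      _ = P := by rw [hP, pow_succ]; field_simp
  have e3 : |α ^ n₀| * (α ^ q) ^ (j + 2) = P * α ^ q * α ^ q := by rw [hP]; ring
  rcases hε with rfl | hε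
  · rw [zero_mul, sub_zero] at h5
    rw [e3] at h1
    have : P * α ^ q < 2 * |α ^ n| := by nlinarith
    nlinarith
  · have h6 := abs_abs_sub_abs_le_abs_sub (α ^ n) (ε * (α ^ n₀ * (α ^ q) ^ (j + 1)))
    rw [abs_mul, hε, one_mul, abs_freq hA, e, abs_pow] at h6
    have h7 := pow_gap S.h1 (hd (j + 1))
    have e4 : |α| ^ (n₀ + q * (j + 1)) = P * α ^ q := by rw [← e, hP]; ring
    rw [e4] at h7 h6
    have := S.h2
    nlinarith

lemma Step.alpha_part (S : Step α q) :
    ∀ᶠ u : ℕ in atTop, ∀ᶠ w : ℝ in atTop, ∀ s, 0 ≤ s → ∀ x : ℝ,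
      w / (8 * q * Real.log |α|) ≤ ∑ n ∈ Finset.Ico (NN α s) (NN α (s + w)),
        (FF x (Real.exp s) (α ^ (NN α s + u)) (α ^ q) (NN α (s + w)) (α ^ n)).re := by
  classical
  have hq : (0 : ℝ) < q := by exact_mod_cast S.hq
  have hq1 : (1 : ℝ) ≤ q := by exact_mod_cast S.hq
  have hl := Real.log_pos S.h1
  filter_upwards [S.ev_E (E := 1 / (320 * q)) (by positivity)] with u hu
  filter_upwards [eventually_ge_atTop (Real.log |α| * (8 * q * (3 * u + 5 * q) + 2))] with w hw
    s hs x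
  have hw0 : 0 ≤ w := le_trans (by positivity) hw
  set N := NN α s with hN
  set N' := NN α (s + w) with hN'
  set L := N' - N with hL
  have hNN : N ≤ N' := NN_mono S.h1 (by linarith)
  have hL1 : w / Real.log |α| - 1 ≤ L := (NN_len S.h1 hs hw0).1
  have hw1 : 8 * q * (3 * u + 5 * q) + 2 ≤ w / Real.log |α| := by
    rw [le_div_iff₀ hl]; linarith
  have hE := hu s
  set E := Real.exp s / |α ^ (N + u)| with hEdef
  have hE0 : 0 ≤ E := by positivity
  have hE14 : E ≤ 1 / 14 := hE.trans (by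
    rw [div_le_div_iff₀ (by positivity) (by norm_num)]; linarith)
  have hT := Real.exp_pos s
  have pt : ∀ n ∈ Finset.Ico N N',
      (if ∃ i, n = N + u + q * i then (1 / 2 : ℝ) else 0) - 40 * E -
        (if n < N + u + 2 * q then (2 : ℝ) else 0) ≤
      (FF x (Real.exp s) (α ^ (N + u)) (α ^ q) N' (α ^ n)).re := by
    intro n hn
    by_cases h1 : ∃ i, n = N + u + q * i
    · rw [if_pos h1]
      obtain ⟨i, rfl⟩ := h1
      have hi : i < N' := by
        have := (Finset.mem_Ico.1 hn).2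
        have : i ≤ q * i := Nat.le_mul_of_pos_left i S.hq
        omega
      have := half' (x := x) hT S.h8 (S.ne (N + u)) hi
      rw [← pow_mul, ← pow_add] at this
      split_ifs <;> linarith
    · rw [if_neg h1]
      have h3 := Complex.abs_re_le_norm (FF x (Real.exp s) (α ^ (N + u)) (α ^ q) N' (α ^ n))
      by_cases h2 : n < N + u + 2 * q
      · rw [if_pos h2]
        have := FF_le_two (x := x) hT S.h8 (S.ne (N + u)) hE14 N' (α ^ n)
        linarith [(abs_le.1 (h3.trans this)).1]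
      · rw [if_neg h2]
        have := far3 (x := x) hT S.h8 (S.ne (N + u)) N'
          (S.not_near (not_lt.1 h2) fun i hi => h1 ⟨i, hi⟩)
        linarith [(abs_le.1 (h3.trans this)).1]
  refine le_trans ?_ (Finset.sum_le_sum pt)
  rw [Finset.sum_sub_distrib, Finset.sum_sub_distrib, Finset.sum_const, Nat.card_Ico,
    ← Finset.sum_filter, ← Finset.sum_filter, Finset.sum_const, Finset.sum_const]
  simp only [nsmul_eq_mul]
  have c1 : (L - u) / q ≤ ((Finset.Ico N N').filter fun n => ∃ i, n = N + u + q * i).card := by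
    have := Finset.card_le_card_of_injOn (s := Finset.range ((L - u) / q))
      (t := (Finset.Ico N N').filter fun n => ∃ i, n = N + u + q * i) (fun i => N + u + q * i)
      (by
        intro i hi
        have hi' : i < (L - u) / q := by simpa using hi
        have h2 : q * (i + 1) ≤ L - u :=
          (Nat.mul_le_mul_left q hi').trans (Nat.mul_div_le _ _)
        have h3 := S.hq
        simp only [Finset.coe_filter, Finset.mem_Ico, mem_ofPred_eq]
        refine ⟨⟨by omega, ?_⟩, i, rfl⟩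
        rw [mul_add] at h2
        omega)
      (by
        intro i _ k _ hik
        have : q * i = q * k := by simpa using hik
        exact Nat.eq_of_mul_eq_mul_left S.hq this)
    simpa using this
  have c1' : ((L : ℝ) - u) / q - 1 ≤
      ((Finset.Ico N N').filter fun n => ∃ i, n = N + u + q * i).card := by
    have h1 : (((L - u) / q : ℕ) : ℝ) ≤
      ((Finset.Ico N N').filter fun n => ∃ i, n = N + u + q * i).card := by exact_mod_cast c1
    refine le_trans ?_ h1
    have h2 : L - u < q * ((L - u) / q + 1) := Nat.lt_mul_div_succ _ S.hq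
    have h3 : L < q * ((L - u) / q + 1) + u := by omega
    have h4 : (L : ℝ) < q * ((((L - u) / q : ℕ) : ℝ) + 1) + u := by exact_mod_cast h3
    rw [sub_le_iff_le_add, div_le_iff₀ hq]
    linarith
  have c2 : ((Finset.Ico N N').filter fun n => n < N + u + 2 * q).card ≤ u + 2 * q := by
    have : ((Finset.Ico N N').filter fun n => n < N + u + 2 * q) ⊆
        Finset.Ico N (N + u + 2 * q) := by
      intro n hn
      simp only [Finset.mem_filter, Finset.mem_Ico] at hn ⊢
      exact ⟨hn.1.1, hn.2⟩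
    have := Finset.card_le_card this
    rw [Nat.card_Ico] at this
    omega
  have c2' : (((Finset.Ico N N').filter fun n => n < N + u + 2 * q).card : ℝ) ≤ u + 2 * q := by
    exact_mod_cast c2
  have hL0 : (0 : ℝ) ≤ L := Nat.cast_nonneg _
  have c3 : (L : ℝ) * (40 * E) ≤ L / (8 * q) := by
    have : 40 * E ≤ 1 / (8 * q) := by
      have : 1 / (8 * (q : ℝ)) = 40 * (1 / (320 * q)) := by field_simp; norm_num
      linarith
    calc (L : ℝ) * (40 * E) ≤ L * (1 / (8 * q)) := mul_le_mul_of_nonneg_left this hL0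
      _ = _ := by ring
  have c4 : w / (8 * q * Real.log |α|) = (w / Real.log |α|) / (8 * q) := by field_simp
  have hu0 : (0 : ℝ) ≤ u := Nat.cast_nonneg _
  have c5 : (u : ℝ) / q ≤ u := div_le_self hu0 hq1
  have c6 : (w / Real.log |α|) / (8 * q) ≤ 2 * (L / (8 * q)) := by
    rw [← mul_div_assoc]
    refine div_le_div_of_nonneg_right ?_ (by positivity)
    have : 0 ≤ 8 * (q : ℝ) * (3 * u + 5 * q) := by positivity
    linarith
  have c7 : 3 * (u : ℝ) + 5 * q ≤ L / (8 * q) := by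
    rw [le_div_iff₀ (by positivity)]; linarith
  have c8 : ((L : ℝ) - u) / q = 8 * (L / (8 * q)) - u / q := by field_simp
  rw [c4, ← hL]
  linarith

end alpha

lemma log_lip {z r m : ℝ} (hm : 0 < m) (hz : m ≤ z) (hr : m ≤ r) :
    |Real.log z - Real.log r| ≤ |z - r| / m := by
  have key : ∀ a b : ℝ, m ≤ a → m ≤ b → Real.log a - Real.log b ≤ |a - b| / m := by
    intro a b ha hb
    have hb0 : 0 < b := by linarith
    rw [← Real.log_div (by linarith) hb0.ne']
    refine (Real.log_le_sub_one_of_pos (div_pos (by linarith) hb0)).trans ?_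
    have : a / b - 1 = (a - b) / b := by field_simp
    rw [this]
    exact (div_le_div_of_nonneg_right (le_abs_self _) hb0.le).trans
      (div_le_div_of_nonneg_left (abs_nonneg _) hm hb)
  rw [abs_le]
  refine ⟨?_, key z r hz hr⟩
  have := key r z hr hz
  rw [abs_sub_comm] at this
  linarith

lemma near_log {lam A : ℝ} (hA : 8 ≤ A) (hl : lam ≠ 0) {K D : ℕ} (hD : 2 ≤ D) {t y : ℝ}
    (h : Near lam A K t) (hy : |lam| * A ^ D < y) (hty : abs (y - |t|) ≤ y * (1 / A ^ D / 4)) :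
    ∃ r ∈ Sig A D, ∃ J : ℕ,
      |(Real.log y - Real.log |lam|) / Real.log A - J - Real.log |r| / Real.log A| ≤
        4 * A / A ^ D := by
  have h0 : 0 < |lam| := abs_pos.2 hl
  have hA0 : 0 < A := by linarith
  have hAD : A * 8 ≤ A ^ D := by
    have : A ^ 2 ≤ A ^ D := pow_le_pow_right₀ (by linarith) hD
    nlinarith
  have hy0 : 0 < y := lt_trans (by positivity) hy
  set ρ := 1 / A ^ D / 4 with hρ
  have hρ0 : 0 < ρ := by positivity
  have hρ1 : ρ * (32 * A) ≤ 1 := by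
    rw [hρ, div_div, div_mul_eq_mul_div, div_le_one (by positivity)]; linarith
  have hρ2 : ρ ≤ 1 / 2 := by nlinarith
  obtain ⟨t1, t2⟩ := abs_le.1 hty
  have t3 : y / 2 ≤ |t| := by nlinarith
  have t4 : |t| ≤ 2 * y := by nlinarith
  obtain ⟨j, r, hr, h1, h2, h3⟩ := near_struct hA hl h D (by linarith)
  refine ⟨r, hr, j + D, ?_⟩
  set P := |lam| * A ^ (j + D) with hP
  have hP0 : 0 < P := by positivity
  have h4 : abs (|t| - |r| * P) ≤ P * ρ := by
    have := abs_abs_sub_abs_le_abs_sub t (r * (lam * A ^ (j + D)))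
    rw [abs_mul, abs_freq hA] at this
    refine this.trans (h3.trans (le_of_eq ?_))
    rw [hP, hρ, pow_add]; field_simp
  have h5 : y ≤ P := by linarith
  have h6 : abs (y / P - |r|) ≤ 2 * ρ := by
    have e : y / P - |r| = ((y - |t|) + (|t| - |r| * P)) / P := by field_simp; ring
    rw [e, abs_div, abs_of_pos hP0, div_le_iff₀ hP0]
    refine (abs_add_le _ _).trans ?_
    nlinarith
  have h7 : 1 / (4 * A) ≤ y / P := by
    rw [div_le_div_iff₀ (by positivity) hP0]
    nlinarith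
  have h8 : 2 * ρ ≤ 1 / (8 * A) := by
    rw [le_div_iff₀ (by positivity)]; nlinarith
  have h9 : 1 / (4 * A) = 2 * (1 / (8 * A)) := by field_simp; norm_num
  have hm : 0 < 1 / (8 * A) := by positivity
  have h10 := log_lip hm (z := y / P) (r := |r|) (by linarith) (by linarith [(abs_le.1 h6).2])
  have hlA : 1 ≤ Real.log A := by
    rw [Real.le_log_iff_exp_le hA0]
    linarith [Real.exp_one_lt_d9]
  have e1 : (Real.log y - Real.log |lam|) / Real.log A - ((j + D : ℕ) : ℝ) -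
      Real.log |r| / Real.log A = (Real.log (y / P) - Real.log |r|) / Real.log A := by
    rw [Real.log_div hy0.ne' hP0.ne', hP, Real.log_mul h0.ne' (by positivity), Real.log_pow]
    field_simp
    ring
  rw [e1, abs_div, abs_of_pos (show 0 < Real.log A by linarith)]
  refine (div_le_self (abs_nonneg _) hlA).trans (h10.trans ?_)
  rw [div_le_iff₀ hm]
  refine h6.trans (le_of_eq ?_)
  rw [hρ]; field_simp; norm_num

lemma pair_sum (I X : Finset ℕ) (G : ℕ → ℕ → ℝ) (e : ℝ) (d : ℕ) (he : 0 ≤ e)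
    (h2 : ∀ n m, G n m ≤ 2)
    (h : ∀ n ∈ I, ∀ m ∈ I, n ∉ X → m ∉ X → (m + d ≤ n ∨ n + d ≤ m) → G n m ≤ e) :
    ∑ n ∈ I, ∑ m ∈ I, G n m ≤ I.card * (I.card * e + 2 * (2 * d + 1) + 4 * X.card) := by
  classical
  have pt : ∀ n ∈ I, ∀ m ∈ I, G n m ≤ e + (if m ∈ Finset.Icc (n - d) (n + d) then (2 : ℝ) else 0)
      + (if n ∈ X then (2 : ℝ) else 0) + (if m ∈ X then (2 : ℝ) else 0) := by
    intro n hn m hm
    have := h2 n m
    by_cases c1 : m ∈ Finset.Icc (n - d) (n + d)
    · rw [if_pos c1]; split_ifs <;> linarith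
    by_cases c2 : n ∈ X
    · rw [if_pos c2]; split_ifs <;> linarith
    by_cases c3 : m ∈ X
    · rw [if_pos c3]; split_ifs <;> linarith
    rw [if_neg c1, if_neg c2, if_neg c3]
    have := h n hn m hm c2 c3 (by
      simp only [Finset.mem_Icc] at c1
      omega)
    linarith
  have cX : ∑ m ∈ I, (if m ∈ X then (2 : ℝ) else 0) ≤ 2 * X.card := by
    rw [← Finset.sum_filter, Finset.sum_const, nsmul_eq_mul, mul_comm]
    have : (I.filter fun m => m ∈ X).card ≤ X.card :=
      Finset.card_le_card fun m hm => (Finset.mem_filter.1 hm).2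
    have : ((I.filter fun m => m ∈ X).card : ℝ) ≤ X.card := by exact_mod_cast this
    linarith
  have cD : ∀ n, ∑ m ∈ I, (if m ∈ Finset.Icc (n - d) (n + d) then (2 : ℝ) else 0) ≤
      2 * (2 * d + 1) := by
    intro n
    rw [← Finset.sum_filter, Finset.sum_const, nsmul_eq_mul, mul_comm]
    have h1 : (I.filter fun m => m ∈ Finset.Icc (n - d) (n + d)).card ≤ 2 * d + 1 := by
      refine (Finset.card_le_card fun m hm => (Finset.mem_filter.1 hm).2).trans ?_
      rw [Nat.card_Icc]; omega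
    have : ((I.filter fun m => m ∈ Finset.Icc (n - d) (n + d)).card : ℝ) ≤ 2 * d + 1 := by
      exact_mod_cast h1
    linarith
  have row : ∀ n ∈ I, ∑ m ∈ I, G n m ≤ (I.card * e + 2 * (2 * d + 1) + 2 * X.card) +
      I.card * (if n ∈ X then (2 : ℝ) else 0) := by
    intro n hn
    refine (Finset.sum_le_sum (pt n hn)).trans ?_
    rw [Finset.sum_add_distrib, Finset.sum_add_distrib, Finset.sum_add_distrib, Finset.sum_const,
      Finset.sum_const, nsmul_eq_mul, nsmul_eq_mul]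
    linarith [cD n]
  refine (Finset.sum_le_sum row).trans ?_
  rw [Finset.sum_add_distrib, Finset.sum_const, nsmul_eq_mul, ← Finset.mul_sum]
  have := mul_le_mul_of_nonneg_left cX (Nat.cast_nonneg (α := ℝ) I.card)
  linarith

lemma Step.beta_part {α : ℝ} {q : ℕ} (S : Step α q) {β : ℝ} (hβ : 1 < |β|) {h : ℤ} (hh : h ≠ 0)
    (hind : Irrational (Real.log |β| / Real.log |α|)) {η : ℝ} (hη : 0 < η) :
    ∀ᶠ u : ℕ in atTop, ∀ᶠ w : ℝ in atTop, ∀ s, 0 ≤ s → ∀ (x : ℝ) (K : ℕ),
      ∑ n ∈ Finset.Ico (NN β s) (NN β (s + w)), ∑ m ∈ Finset.Ico (NN β s) (NN β (s + w)),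
        ‖FF x (Real.exp s) (α ^ (NN α s + u)) (α ^ q) K (h * (β ^ n - β ^ m))‖ ≤ η * w ^ 2 := by
  classical
  have hla := Real.log_pos S.h1
  have hlb := Real.log_pos hβ
  have hb0 : 0 < |β| := by linarith
  have ha0 : 0 < |α| := by linarith [S.h1]
  have hA := S.h8
  set A := α ^ q with hAdef
  have hA0 : 0 < A := by linarith
  have hlA : Real.log A = q * Real.log |α| := by rw [hAdef, S.he, Real.log_pow]
  have hq : (q : ℝ) ≠ 0 := by exact_mod_cast S.hq.ne'
  set θ := Real.log |β| / Real.log A with hθ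
  have hθi : Irrational θ := by
    have : θ = Real.log |β| / Real.log |α| / q := by rw [hθ, hlA]; field_simp
    rw [this]
    exact hind.div_natCast S.hq.ne'
  set C := 1 / Real.log |β| + 1 with hC
  have hC0 : 0 < C := by positivity
  set η' := η / (6 * C ^ 2) with hη'
  have hη'0 : 0 < η' := by positivity
  obtain ⟨D, hD2, hD⟩ : ∃ D : ℕ, 2 ≤ D ∧ (3 / 8 : ℝ) ^ D ≤ η' / (12 * A) := by
    have := (tendsto_pow_atTop_nhds_zero_of_lt_one (r := (3 / 8 : ℝ)) (by norm_num)
      (by norm_num)).eventually (ge_mem_nhds (show 0 < η' / (12 * A) by positivity))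
    exact ((eventually_ge_atTop 2).and this).exists
  set δ := 4 * A / A ^ D with hδ
  have hδ0 : 0 < δ := by positivity
  have hδ1 : 3 ^ D * (2 * δ + δ) ≤ η' := by
    have h1 : (8 : ℝ) ^ D ≤ A ^ D := pow_le_pow_left₀ (by norm_num) hA D
    have h2 : δ ≤ 4 * A / 8 ^ D := div_le_div_of_nonneg_left (by positivity) (by positivity) h1
    rw [le_div_iff₀ (by positivity), div_pow] at hD
    calc (3 : ℝ) ^ D * (2 * δ + δ) ≤ 3 ^ D * (3 * (4 * A / 8 ^ D)) :=
          mul_le_mul_of_nonneg_left (by linarith) (by positivity)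
      _ = 3 ^ D / 8 ^ D * (12 * A) := by ring
      _ ≤ η' := hD
  obtain ⟨M₀, hM₀⟩ := rot_count hθi 0 (2 * δ) (by positivity) δ hδ0
  obtain ⟨d, hd⟩ := pow_unbounded_of_one_lt (4 * A ^ D) hβ
  filter_upwards [S.ev_E (E := min (1 / 14) (η' / 40)) (by positivity)] with u hu
  obtain ⟨v, hv⟩ := pow_unbounded_of_one_lt (|α| ^ (u + 1) * A ^ D) hβ
  set L₀ : ℝ := max M₀ ((2 * (2 * d + 1) + 4 * v) / η') with hL₀
  filter_upwards [eventually_ge_atTop (max 1 (Real.log |β| * (L₀ + 1)))] with w hw s hs x K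
  have hw1 : 1 ≤ w := (le_max_left _ _).trans hw
  have hw2 : L₀ + 1 ≤ w / Real.log |β| := by
    rw [le_div_iff₀ hlb]; linarith [le_max_right 1 (Real.log |β| * (L₀ + 1))]
  set M := NN β s with hM
  set M' := NN β (s + w) with hM'
  set L := M' - M with hL
  obtain ⟨hL1, hL2⟩ := NN_len hβ hs (show 0 ≤ w by linarith)
  rw [← hM, ← hM', ← hL] at hL1 hL2
  have hL3 : (L : ℝ) ≤ C * w := by
    rw [hC, add_mul, one_div, mul_comm _ w, ← div_eq_mul_inv]; linarith
  have hLM : M₀ ≤ L := by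
    have : (M₀ : ℝ) ≤ L := by linarith [le_max_left (M₀ : ℝ) ((2 * (2 * d + 1) + 4 * v) / η')]
    exact_mod_cast this
  have hLv : 2 * (2 * (d : ℝ) + 1) + 4 * v ≤ η' * L := by
    have : (2 * (2 * (d : ℝ) + 1) + 4 * v) / η' ≤ L := by
      linarith [le_max_right (M₀ : ℝ) ((2 * (2 * d + 1) + 4 * v) / η')]
    rw [div_le_iff₀ hη'0] at this
    linarith
  set lam := α ^ (NN α s + u) with hlam
  have hl : lam ≠ 0 := S.ne _
  have hT := Real.exp_pos s
  have hE1 : Real.exp s / |lam| ≤ 1 / 14 := (hu s).trans (min_le_left _ _)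
  have hE2 : Real.exp s / |lam| ≤ η' / 40 := (hu s).trans (min_le_right _ _)
  have hh1 : (1 : ℝ) ≤ |(h : ℝ)| := by
    have : 1 ≤ |h| := Int.one_le_abs hh
    exact_mod_cast this
  let x₀ : ℝ → ℝ := fun r => (Real.log |(h : ℝ)| - Real.log |lam|) / Real.log A + M * θ -
    Real.log |r| / Real.log A + δ
  let Y : ℝ → Finset ℕ := fun r => (Finset.range L).filter fun k =>
    ∃ J : ℤ, 0 ≤ x₀ r + k * θ - J ∧ x₀ r + k * θ - J ≤ 0 + 2 * δ
  have hY : ∀ r, ((Y r).card : ℝ) ≤ (2 * δ + δ) * L := fun r =>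
    hM₀ L hLM (x₀ r) (Y r) (Finset.filter_subset _ _) fun k hk => (Finset.mem_filter.1 hk).2
  let X : Finset ℕ := Finset.Ico M (M + v) ∪ (Sig A D).biUnion fun r => (Y r).image (M + ·)
  have hX : (X.card : ℝ) ≤ v + η' * L := by
    have h1 := Finset.card_union_le (Finset.Ico M (M + v))
      ((Sig A D).biUnion fun r => (Y r).image (M + ·))
    rw [Nat.card_Ico, Nat.add_sub_cancel_left] at h1
    have h2 := Finset.card_biUnion_le (s := Sig A D) (t := fun r => (Y r).image (M + ·))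
    have h3 : (∑ r ∈ Sig A D, (((Y r).image (M + ·)).card : ℝ)) ≤
        (Sig A D).card * ((2 * δ + δ) * L) := by
      rw [← nsmul_eq_mul]
      refine Finset.sum_le_card_nsmul _ _ _ fun r _ => le_trans ?_ (hY r)
      exact_mod_cast Finset.card_image_le
    have h4 : ((Sig A D).card : ℝ) ≤ 3 ^ D := by exact_mod_cast Sig_card A D
    have h5 : (X.card : ℝ) ≤ v + ∑ r ∈ Sig A D, (((Y r).image (M + ·)).card : ℝ) := by
      have : X.card ≤ v + ∑ r ∈ Sig A D, ((Y r).image (M + ·)).card := by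
        simp only [X]; omega
      exact_mod_cast this
    have h6 : ((Sig A D).card : ℝ) * ((2 * δ + δ) * L) ≤ 3 ^ D * ((2 * δ + δ) * L) :=
      mul_le_mul_of_nonneg_right h4 (by positivity)
    have h7 : 3 ^ D * (2 * δ + δ) * L ≤ η' * L :=
      mul_le_mul_of_nonneg_right hδ1 (Nat.cast_nonneg _)
    linarith [mul_assoc ((3 : ℝ) ^ D) (2 * δ + δ) L]
  have key : ∀ n ∈ Finset.Ico M M', n ∉ X → ∀ m, m + d ≤ n → ∀ t : ℝ,
      |t| = |(h : ℝ)| * |β ^ n - β ^ m| → ¬ Near lam A K t := by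
    intro n hn hnX m hm t ht hnear
    obtain ⟨n1, n2⟩ := Finset.mem_Ico.1 hn
    have n3 : M + v ≤ n := by
      by_contra hc
      exact hnX (Finset.mem_union_left _ (Finset.mem_Ico.2 ⟨n1, not_le.1 hc⟩))
    obtain ⟨r, hr, J, hJ⟩ := near_log hA hl hD2 hnear (y := |(h : ℝ)| * |β| ^ n) (by
        have p1 : |lam| ≤ Real.exp s * |α| ^ (u + 1) := by
          rw [hlam, abs_pow, pow_add, pow_succ', ← mul_assoc]
          exact mul_le_mul_of_nonneg_right (NN_upper S.h1 hs) (by positivity)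
        have p2 : Real.exp s * |β| ^ v ≤ |β| ^ n := by
          refine le_trans ?_ (pow_le_pow_right₀ hβ.le n3)
          rw [pow_add]
          exact mul_le_mul_of_nonneg_right (NN_lower hβ s) (by positivity)
        have p3 : |β| ^ n ≤ |(h : ℝ)| * |β| ^ n := le_mul_of_one_le_left (by positivity) hh1
        have p4 : |lam| * A ^ D ≤ Real.exp s * |α| ^ (u + 1) * A ^ D :=
          mul_le_mul_of_nonneg_right p1 (by positivity)
        have p5 := mul_lt_mul_of_pos_left hv hT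
        linarith [mul_assoc (Real.exp s) (|α| ^ (u + 1)) (A ^ D)])
      (by
        rw [ht, ← mul_sub, abs_mul, abs_abs, mul_assoc]
        refine mul_le_mul_of_nonneg_left ?_ (abs_nonneg _)
        have p1 := abs_abs_sub_abs_le_abs_sub (β ^ n) (β ^ n - β ^ m)
        rw [sub_sub_cancel, abs_pow, abs_pow] at p1
        refine p1.trans ?_
        have p2 : |β| ^ m * |β| ^ d ≤ |β| ^ n := by
          rw [← pow_add]; exact pow_le_pow_right₀ hβ.le hm
        have p3 : |β| ^ m * (4 * A ^ D) ≤ |β| ^ m * |β| ^ d :=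
          mul_le_mul_of_nonneg_left hd.le (by positivity)
        rw [div_div, mul_one_div, le_div_iff₀ (by positivity)]
        linarith)
    apply hnX
    refine Finset.mem_union_right _ (Finset.mem_biUnion.2 ⟨r, hr,
      Finset.mem_image.2 ⟨n - M, Finset.mem_filter.2 ⟨Finset.mem_range.2 (by omega), J, ?_⟩,
        by omega⟩⟩)
    have e : x₀ r + ((n - M : ℕ) : ℝ) * θ - ((J : ℤ) : ℝ) =
        ((Real.log (|(h : ℝ)| * |β| ^ n) - Real.log |lam|) / Real.log A - J -
          Real.log |r| / Real.log A) + δ := by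
      rw [Nat.cast_sub n1, Real.log_mul (by positivity) (by positivity), Real.log_pow, hθ]
      simp only [x₀, hθ]
      push_cast
      ring
    rw [e]
    obtain ⟨j1, j2⟩ := abs_le.1 hJ
    constructor <;> linarith
  have := pair_sum (Finset.Ico M M') X
    (fun n m => ‖FF x (Real.exp s) lam A K (h * (β ^ n - β ^ m))‖) η' d hη'0.le
    (fun n m => FF_le_two hT hA hl hE1 K _) (by
      intro n hn m hm hnX hmX hd
      refine (far3 hT hA hl K ?_).trans (by linarith)
      rcases hd with hd | hd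
      · exact key n hn hnX m hd _ (abs_mul _ _)
      · exact key m hm hmX n hd _ (by rw [abs_mul, abs_sub_comm]))
  refine this.trans ?_
  rw [Nat.card_Ico, ← hL]
  have hL0 : (0 : ℝ) ≤ L := Nat.cast_nonneg _
  have f1 : (L : ℝ) * (L * η' + 2 * (2 * d + 1) + 4 * X.card) ≤ L * (6 * η' * L) :=
    mul_le_mul_of_nonneg_left (by linarith) hL0
  have f2 : (L : ℝ) * L ≤ (C * w) * (C * w) := mul_self_le_mul_self hL0 hL3
  have f3 : 6 * η' * ((C * w) * (C * w)) = η * w ^ 2 := by rw [hη']; field_simp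
  nlinarith

end Pool.Agent.H365Z.Nor
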