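import Pool.Agent.H365Z.Nor.Weyl

/-! Riesz products on a short interval. -/

set_option autoImplicit false

open Filter Topology MeasureTheory Set

namespace Pool.Agent.H365Z.Nor

/-- the Riesz product with frequencies `lam * A ^ k`, `k < j` -/
noncomputable def rp (lam A : ℝ) (j : ℕ) (ξ : ℝ) : ℝ :=
  ∏ k ∈ Finset.range j, (1 + Real.cos (2 * Real.pi * (lam * A ^ k * ξ)))

lemma rp_nonneg (lam A : ℝ) (j : ℕ) (ξ : ℝ) : 0 ≤ rp lam A j ξ :=
  Finset.prod_nonneg fun k _ => by linarith [Real.neg_one_le_cos (2 * Real.pi * (lam * A ^ k * ξ))]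

lemma rp_cont (lam A : ℝ) (j : ℕ) : Continuous (rp lam A j) := by
  unfold rp
  fun_prop

/-- its Fourier transform on the interval `[x, x + 1/T]` -/
noncomputable def FF (x T lam A : ℝ) (j : ℕ) (t : ℝ) : ℂ :=
  (T : ℂ) * ∫ ξ in x..(x + 1 / T), ee (t * ξ) * (rp lam A j ξ : ℂ)

lemma integrand_cont (lam A : ℝ) (j : ℕ) (t : ℝ) :
    Continuous fun ξ : ℝ => ee (t * ξ) * (rp lam A j ξ : ℂ) :=
  (ee_cont.comp (by fun_prop)).mul (Complex.continuous_ofReal.comp (rp_cont lam A j))

variable {x T lam A : ℝ}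

lemma FF_succ (j : ℕ) (t : ℝ) : FF x T lam A (j + 1) t =
    FF x T lam A j t + (FF x T lam A j (t + lam * A ^ j) + FF x T lam A j (t - lam * A ^ j)) / 2 := by
  have e : ∀ ξ : ℝ, ee (t * ξ) * (rp lam A (j + 1) ξ : ℂ) =
      ee (t * ξ) * (rp lam A j ξ : ℂ) + (1 / 2 : ℂ) * (ee ((t + lam * A ^ j) * ξ) * (rp lam A j ξ : ℂ)
        + ee ((t - lam * A ^ j) * ξ) * (rp lam A j ξ : ℂ)) := by
    intro ξ
    have h1 : (rp lam A (j + 1) ξ : ℂ) = (rp lam A j ξ : ℂ) *
        (1 + (ee (lam * A ^ j * ξ) + ee (-(lam * A ^ j * ξ))) / 2) := by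
      rw [← cos_eq]
      unfold rp
      rw [Finset.prod_range_succ]
      push_cast
      ring
    rw [h1, add_mul t, sub_mul t, sub_eq_add_neg, ee_add, ee_add]
    ring
  unfold FF
  simp only [e]
  have hc : Continuous fun ξ : ℝ => (1 / 2 : ℂ) * (ee ((t + lam * A ^ j) * ξ) * (rp lam A j ξ : ℂ)
        + ee ((t - lam * A ^ j) * ξ) * (rp lam A j ξ : ℂ)) :=
    continuous_const.mul ((integrand_cont lam A j _).add (integrand_cont lam A j _))
  rw [intervalIntegral.integral_add ((integrand_cont lam A j t).intervalIntegrable _ _)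
    (hc.intervalIntegrable _ _), intervalIntegral.integral_const_mul,
    intervalIntegral.integral_add ((integrand_cont lam A j _).intervalIntegrable _ _)
      ((integrand_cont lam A j _).intervalIntegrable _ _)]
  ring

lemma FF_zero_zero (hT : 0 < T) : FF x T lam A 0 0 = 1 := by
  have : (T : ℂ) ≠ 0 := by exact_mod_cast hT.ne'
  simp [FF, rp, ee_zero]
  field_simp

lemma FF_zero_le (hT : 0 < T) {t : ℝ} (ht : t ≠ 0) : ‖FF x T lam A 0 t‖ ≤ T / |t| := by
  have hc : (Complex.I * (2 * Real.pi * t : ℝ) : ℂ) ≠ 0 := by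
    refine mul_ne_zero Complex.I_ne_zero ?_
    have : (2 * Real.pi * t : ℝ) ≠ 0 := by positivity
    exact_mod_cast this
  have e : ∀ ξ : ℝ, ee (t * ξ) = Complex.exp (Complex.I * (2 * Real.pi * t : ℝ) * ξ) := by
    intro ξ; unfold ee; congr 1; push_cast; ring
  have h := integral_exp_mul_complex (a := x) (b := x + 1 / T) hc
  simp only [← e] at h
  simp only [FF, rp, Finset.range_zero, Finset.prod_empty, Complex.ofReal_one, mul_one]
  rw [h, norm_mul, norm_div, Complex.norm_real, Real.norm_of_nonneg hT.le, norm_mul, Complex.norm_I,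
    one_mul, Complex.norm_real, Real.norm_eq_abs, abs_mul,
    abs_of_pos (by positivity : (0 : ℝ) < 2 * Real.pi), ← mul_div_assoc]
  have h2 : ‖ee (t * (x + 1 / T)) - ee (t * x)‖ ≤ 2 := by
    refine (norm_sub_le _ _).trans ?_
    rw [norm_ee, norm_ee]; norm_num
  have h3 : 0 < |t| := abs_pos.2 ht
  rw [div_le_div_iff₀ (by positivity) h3]
  have h4 : T * ‖ee (t * (x + 1 / T)) - ee (t * x)‖ ≤ T * 2 := mul_le_mul_of_nonneg_left h2 hT.le
  nlinarith [Real.pi_gt_three, mul_pos hT h3, mul_le_mul_of_nonneg_right h4 h3.le]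

lemma abs_freq (hA : 8 ≤ A) (j : ℕ) : |lam * A ^ j| = |lam| * A ^ j := by
  rw [abs_mul, abs_of_pos (pow_pos (show (0 : ℝ) < A by linarith) j)]

lemma norm_step (a b c : ℂ) : ‖a + (b + c) / 2‖ ≤ ‖a‖ + (‖b‖ + ‖c‖) / 2 := by
  refine (norm_add_le _ _).trans ?_
  rw [norm_div, Complex.norm_two]
  linarith [norm_add_le b c]

lemma bound1 (hT : 0 < T) (hA : 8 ≤ A) (j : ℕ) : ∀ t : ℝ, |lam| * A ^ j / 7 < |t| →
    ‖FF x T lam A j t‖ ≤ 2 ^ j * T / (|t| - |lam| * A ^ j / 7) := by
  induction j with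
  | zero =>
    intro t ht
    have h0 : 0 ≤ |lam| := abs_nonneg _
    simp only [pow_zero, mul_one, one_mul] at ht ⊢
    have ht0 : t ≠ 0 := by
      rintro rfl
      rw [abs_zero] at ht
      linarith
    exact (FF_zero_le hT ht0).trans (div_le_div_of_nonneg_left hT.le (by linarith) (by linarith))
  | succ j ih =>
    intro t ht
    have hp : 0 ≤ |lam| * A ^ j := mul_nonneg (abs_nonneg _) (pow_nonneg (by linarith) j)
    have hq : |lam| * A ^ j * 8 ≤ |lam| * A ^ (j + 1) := by
      rw [pow_succ, ← mul_assoc]; exact mul_le_mul_of_nonneg_left hA hp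
    have key : ∀ u : ℝ, |t| - |lam| * A ^ j ≤ |u| →
        ‖FF x T lam A j u‖ ≤ 2 ^ j * T / (|t| - |lam| * A ^ (j + 1) / 7) := by
      intro u hu
      exact (ih u (by linarith)).trans
        (div_le_div_of_nonneg_left (by positivity) (by linarith) (by linarith))
    have a1 := key t (by linarith)
    have a2 := key (t + lam * A ^ j) (by
      have := abs_sub (t + lam * A ^ j) (lam * A ^ j)
      rw [add_sub_cancel_right, abs_freq hA] at this
      linarith)
    have a3 := key (t - lam * A ^ j) (by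
      have := abs_add_le (t - lam * A ^ j) (lam * A ^ j)
      rw [sub_add_cancel, abs_freq hA] at this
      linarith)
    rw [FF_succ]
    refine (norm_step _ _ _).trans ?_
    have : 2 ^ (j + 1) * T / (|t| - |lam| * A ^ (j + 1) / 7) =
        2 * (2 ^ j * T / (|t| - |lam| * A ^ (j + 1) / 7)) := by ring
    linarith

lemma far1 (hT : 0 < T) (hA : 8 ≤ A) (hl : lam ≠ 0) (j : ℕ) {t : ℝ}
    (ht : |lam| * A ^ j / 4 ≤ |t|) :
    ‖FF x T lam A j t‖ ≤ 10 * (1 / 4) ^ j * (T / |lam|) := by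
  have h0 : 0 < |lam| := abs_pos.2 hl
  have hp : 0 < |lam| * A ^ j := mul_pos h0 (pow_pos (by linarith) j)
  refine (bound1 hT hA j t (by linarith)).trans ?_
  have h1 : (8 : ℝ) ^ j ≤ A ^ j := pow_le_pow_left₀ (by norm_num) hA j
  have h2 : |lam| * 8 ^ j / 10 ≤ |t| - |lam| * A ^ j / 7 := by
    have := mul_le_mul_of_nonneg_left h1 h0.le
    linarith
  refine (div_le_div_of_nonneg_left (by positivity) (by positivity) h2).trans (le_of_eq ?_)
  have h3 : (8 : ℝ) ^ j = 2 ^ j * 4 ^ j := by rw [← mul_pow]; norm_num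
  rw [h3, one_div, inv_pow]
  field_simp

/-- `t` is near the spectrum of the Riesz product -/
def Near (lam A : ℝ) : ℕ → ℝ → Prop
  | 0, t => |t| ≤ |lam| / 4
  | j + 1, t => Near lam A j t ∨ Near lam A j (t + lam * A ^ j) ∨ Near lam A j (t - lam * A ^ j)

lemma far2 (hT : 0 < T) (hA : 8 ≤ A) (hl : lam ≠ 0) (j : ℕ) : ∀ t : ℝ, ¬ Near lam A j t →
    ‖FF x T lam A j t‖ ≤ (40 - 27 * (1 / 4) ^ j) * (T / |lam|) := by
  have h0 : 0 < |lam| := abs_pos.2 hl
  have hE : 0 < T / |lam| := by positivity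
  induction j with
  | zero =>
    intro t ht
    have := far1 (x := x) hT hA hl 0 (t := t) (by
      simp only [Near, not_le] at ht
      simpa using ht.le)
    simp only [pow_zero] at this ⊢
    linarith
  | succ j ih =>
    intro t ht
    simp only [Near, not_or] at ht
    obtain ⟨n1, n2, n3⟩ := ht
    have a1 := ih _ n1
    have a2 := ih _ n2
    have a3 := ih _ n3
    have hp : 0 < |lam| * A ^ j := mul_pos h0 (pow_pos (by linarith) j)
    have hq : (0 : ℝ) < (1 / 4) ^ j := by positivity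
    have hq1 : ((1 : ℝ) / 4) ^ j ≤ 1 := pow_le_one₀ (by norm_num) (by norm_num)
    have hqE : 0 < (1 / 4 : ℝ) ^ j * (T / |lam|) := by positivity
    have hqE1 : (1 / 4 : ℝ) ^ j * (T / |lam|) ≤ T / |lam| := mul_le_of_le_one_left hE.le hq1
    have d1 := abs_sub (t + lam * A ^ j) t
    have d2 := abs_sub t (t - lam * A ^ j)
    have d3 := abs_sub (t + lam * A ^ j) (t - lam * A ^ j)
    rw [add_sub_cancel_left, abs_freq hA] at d1
    rw [sub_sub_cancel, abs_freq hA] at d2
    rw [show t + lam * A ^ j - (t - lam * A ^ j) = 2 * (lam * A ^ j) by ring, abs_mul,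
      abs_freq hA, abs_two] at d3
    rw [FF_succ, pow_succ]
    refine (norm_step _ _ _).trans ?_
    by_cases c1 : |lam| * A ^ j / 4 ≤ |t|
    · have b1 := far1 (x := x) hT hA hl j c1
      by_cases c2 : |lam| * A ^ j / 4 ≤ |t + lam * A ^ j|
      · have b2 := far1 (x := x) hT hA hl j c2
        nlinarith
      · have b3 := far1 (x := x) hT hA hl j (t := t - lam * A ^ j) (by linarith)
        nlinarith
    · have b2 := far1 (x := x) hT hA hl j (t := t + lam * A ^ j) (by linarith)
      have b3 := far1 (x := x) hT hA hl j (t := t - lam * A ^ j) (by linarith)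
      nlinarith

lemma far3 (hT : 0 < T) (hA : 8 ≤ A) (hl : lam ≠ 0) (j : ℕ) {t : ℝ} (h : ¬ Near lam A j t) :
    ‖FF x T lam A j t‖ ≤ 40 * (T / |lam|) := by
  have h0 : 0 < |lam| := abs_pos.2 hl
  refine (far2 hT hA hl j t h).trans (mul_le_mul_of_nonneg_right ?_ (by positivity))
  have : (0 : ℝ) < (1 / 4) ^ j := by positivity
  linarith

lemma mass (hT : 0 < T) (hA : 8 ≤ A) (hl : lam ≠ 0) (j : ℕ) :
    ‖FF x T lam A j 0 - 1‖ ≤ (14 - 14 * (1 / 4) ^ j) * (T / |lam|) := by
  have h0 : 0 < |lam| := abs_pos.2 hl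
  induction j with
  | zero => simp [FF_zero_zero hT]
  | succ j ih =>
    have hp : 0 < |lam| * A ^ j := mul_pos h0 (pow_pos (by linarith) j)
    have b2 := far1 (x := x) hT hA hl j (t := 0 + lam * A ^ j) (by
      rw [zero_add, abs_freq hA]; linarith)
    have b3 := far1 (x := x) hT hA hl j (t := 0 - lam * A ^ j) (by
      rw [zero_sub, abs_neg, abs_freq hA]; linarith)
    rw [FF_succ, add_sub_right_comm, pow_succ]
    refine (norm_step _ _ _).trans ?_
    have hqE : 0 < (1 / 4 : ℝ) ^ j * (T / |lam|) := by positivity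
    nlinarith

lemma mass' (hT : 0 < T) (hA : 8 ≤ A) (hl : lam ≠ 0) (j : ℕ) :
    ‖FF x T lam A j 0 - 1‖ ≤ 14 * (T / |lam|) := by
  have h0 : 0 < |lam| := abs_pos.2 hl
  refine (mass hT hA hl j).trans (mul_le_mul_of_nonneg_right ?_ (by positivity))
  have : (0 : ℝ) < (1 / 4) ^ j := by positivity
  linarith

lemma FF_zero_eq (j : ℕ) :
    FF x T lam A j 0 = ((T * ∫ ξ in x..(x + 1 / T), rp lam A j ξ : ℝ) : ℂ) := by
  simp only [FF, zero_mul, ee_zero, one_mul]
  rw [intervalIntegral.integral_ofReal]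
  push_cast
  rfl

lemma FF_le_mass (hT : 0 < T) (j : ℕ) (t : ℝ) :
    ‖FF x T lam A j t‖ ≤ T * ∫ ξ in x..(x + 1 / T), rp lam A j ξ := by
  unfold FF
  rw [norm_mul, Complex.norm_real, Real.norm_of_nonneg hT.le]
  refine mul_le_mul_of_nonneg_left ?_ hT.le
  have hx : x ≤ x + 1 / T := by have : 0 < 1 / T := by positivity
                                linarith
  refine (intervalIntegral.norm_integral_le_integral_norm hx).trans (le_of_eq ?_)
  refine intervalIntegral.integral_congr fun ξ _ => ?_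
  simp only [norm_mul, norm_ee, one_mul, Complex.norm_real]
  exact Real.norm_of_nonneg (rp_nonneg _ _ _ _)

lemma mass_real (hT : 0 < T) (hA : 8 ≤ A) (hl : lam ≠ 0) (j : ℕ) :
    |T * (∫ ξ in x..(x + 1 / T), rp lam A j ξ) - 1| ≤ 14 * (T / |lam|) := by
  have := mass' (x := x) hT hA hl j
  rw [FF_zero_eq, ← Complex.ofReal_one, ← Complex.ofReal_sub, Complex.norm_real] at this
  exact this

lemma FF_le_two (hT : 0 < T) (hA : 8 ≤ A) (hl : lam ≠ 0) (hE : T / |lam| ≤ 1 / 14) (j : ℕ)
    (t : ℝ) : ‖FF x T lam A j t‖ ≤ 2 := by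
  have h1 := FF_le_mass (x := x) (lam := lam) (A := A) hT j t
  have h2 := (abs_le.1 (mass_real (x := x) hT hA hl j)).2
  linarith

lemma half (hT : 0 < T) (hA : 8 ≤ A) (hl : lam ≠ 0) (i : ℕ) : ∀ j, i < j →
    ‖FF x T lam A j (lam * A ^ i) - 1 / 2‖ ≤ (40 - 27 * (1 / 4) ^ j) * (T / |lam|) := by
  have h0 : 0 < |lam| := abs_pos.2 hl
  have hE : 0 < T / |lam| := by positivity
  have hpi : 0 < |lam| * A ^ i := mul_pos h0 (pow_pos (by linarith) i)
  intro j hj
  induction j, hj using Nat.le_induction with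
  | base =>
    have b1 := far1 (x := x) hT hA hl i (t := lam * A ^ i) (by rw [abs_freq hA]; linarith)
    have b2 := far1 (x := x) hT hA hl i (t := lam * A ^ i + lam * A ^ i) (by
      rw [← two_mul, abs_mul, abs_freq hA, abs_two]; linarith)
    have b3 := mass' (x := x) hT hA hl i
    have hq1 : ((1 : ℝ) / 4) ^ i ≤ 1 := pow_le_one₀ (by norm_num) (by norm_num)
    have hqE1 : (1 / 4 : ℝ) ^ i * (T / |lam|) ≤ T / |lam| := mul_le_of_le_one_left hE.le hq1
    rw [FF_succ, sub_self, pow_succ]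
    have e : FF x T lam A i (lam * A ^ i) +
        (FF x T lam A i (lam * A ^ i + lam * A ^ i) + FF x T lam A i 0) / 2 - 1 / 2 =
        FF x T lam A i (lam * A ^ i) +
        (FF x T lam A i (lam * A ^ i + lam * A ^ i) + (FF x T lam A i 0 - 1)) / 2 := by ring
    rw [e]
    refine (norm_step _ _ _).trans ?_
    nlinarith
  | succ j hj ih =>
    have hp : |lam| * A ^ i * 8 ≤ |lam| * A ^ j := by
      have h1 : A ^ (i + 1) ≤ A ^ j := pow_le_pow_right₀ (by linarith) hj
      have h2 : A ^ i * 8 ≤ A ^ (i + 1) := by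
        rw [pow_succ]; exact mul_le_mul_of_nonneg_left hA (pow_nonneg (by linarith) i)
      rw [mul_assoc]
      exact mul_le_mul_of_nonneg_left (h2.trans h1) h0.le
    have b2 := far1 (x := x) hT hA hl j (t := lam * A ^ i + lam * A ^ j) (by
      have := abs_sub (lam * A ^ i + lam * A ^ j) (lam * A ^ i)
      rw [add_sub_cancel_left, abs_freq hA, abs_freq hA] at this
      linarith)
    have b3 := far1 (x := x) hT hA hl j (t := lam * A ^ i - lam * A ^ j) (by
      have := abs_sub (lam * A ^ i) (lam * A ^ i - lam * A ^ j)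
      rw [sub_sub_cancel, abs_freq hA, abs_freq hA] at this
      linarith)
    rw [FF_succ, add_sub_right_comm, pow_succ]
    refine (norm_step _ _ _).trans ?_
    have hqE : 0 < (1 / 4 : ℝ) ^ j * (T / |lam|) := by positivity
    nlinarith

lemma half' (hT : 0 < T) (hA : 8 ≤ A) (hl : lam ≠ 0) {i j : ℕ} (h : i < j) :
    1 / 2 - 40 * (T / |lam|) ≤ (FF x T lam A j (lam * A ^ i)).re := by
  have h0 : 0 < |lam| := abs_pos.2 hl
  have h1 := half (x := x) hT hA hl i j h
  have h2 := Complex.abs_re_le_norm (FF x T lam A j (lam * A ^ i) - 1 / 2)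
  have h3 : (FF x T lam A j (lam * A ^ i) - 1 / 2).re = (FF x T lam A j (lam * A ^ i)).re - 1 / 2 := by
    simp
  rw [h3] at h2
  have hqE : 0 < (1 / 4 : ℝ) ^ j * (T / |lam|) := by positivity
  have := (abs_le.1 (h2.trans h1)).1
  nlinarith

lemma near_le (hA : 8 ≤ A) (j : ℕ) : ∀ t : ℝ, Near lam A j t → |t| ≤ |lam| * A ^ j / 4 := by
  induction j with
  | zero => intro t h; simpa [Near] using h
  | succ j ih =>
    intro t h
    have hp : 0 ≤ |lam| * A ^ j := mul_nonneg (abs_nonneg _) (pow_nonneg (by linarith) j)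
    have hq : |lam| * A ^ j * 8 ≤ |lam| * A ^ (j + 1) := by
      rw [pow_succ, ← mul_assoc]; exact mul_le_mul_of_nonneg_left hA hp
    rcases h with h | h | h
    · linarith [ih _ h]
    · have := abs_sub (t + lam * A ^ j) (lam * A ^ j)
      rw [add_sub_cancel_right, abs_freq hA] at this
      linarith [ih _ h]
    · have := abs_add_le (t - lam * A ^ j) (lam * A ^ j)
      rw [sub_add_cancel, abs_freq hA] at this
      linarith [ih _ h]

lemma near_mono {t : ℝ} {j k : ℕ} (hjk : j ≤ k) (h : Near lam A j t) : Near lam A k t := by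
  induction k, hjk using Nat.le_induction with
  | base => exact h
  | succ k _ ih => exact Or.inl ih

lemma near_down (hA : 8 ≤ A) (hl : lam ≠ 0) {t : ℝ} {J K : ℕ} (h : Near lam A K t)
    (ht : |t| ≤ |lam| * A ^ J / 2) : Near lam A J t := by
  have h0 : 0 < |lam| := abs_pos.2 hl
  rcases le_total K J with hJ | hJ
  · exact near_mono hJ h
  induction K, hJ using Nat.le_induction with
  | base => exact h
  | succ k hk ih =>
    have h1 : |lam| * A ^ J ≤ |lam| * A ^ k :=
      mul_le_mul_of_nonneg_left (pow_le_pow_right₀ (by linarith) hk) h0.le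
    have hp : 0 < |lam| * A ^ k := mul_pos h0 (pow_pos (by linarith) k)
    rcases h with h | h | h
    · exact ih h
    · have h2 := near_le hA _ _ h
      have := abs_sub (t + lam * A ^ k) t
      rw [add_sub_cancel_left, abs_freq hA] at this
      linarith
    · have h2 := near_le hA _ _ h
      have := abs_sub t (t - lam * A ^ k)
      rw [sub_sub_cancel, abs_freq hA] at this
      linarith

/-- the leading digit patterns -/
noncomputable def Sig (A : ℝ) : ℕ → Finset ℝ
  | 0 => {0}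
  | D + 1 => (Sig A D).image (fun s => s / A) ∪ ((Sig A D).image (fun s => (-1 + s) / A) ∪
      (Sig A D).image (fun s => (1 + s) / A))

lemma Sig_card (A : ℝ) (D : ℕ) : (Sig A D).card ≤ 3 ^ D := by
  induction D with
  | zero => simp [Sig]
  | succ D ih =>
    have h1 := Finset.card_image_le (s := Sig A D) (f := fun s => s / A)
    have h2 := Finset.card_image_le (s := Sig A D) (f := fun s => (-1 + s) / A)
    have h3 := Finset.card_image_le (s := Sig A D) (f := fun s => (1 + s) / A)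
    unfold Sig
    refine (Finset.card_union_le _ _).trans ?_
    have h4 := Finset.card_union_le ((Sig A D).image (fun s => (-1 + s) / A))
      ((Sig A D).image (fun s => (1 + s) / A))
    rw [pow_succ]
    omega

lemma near_sig (hA : 8 ≤ A) (j D : ℕ) : ∀ t : ℝ, Near lam A (j + D) t →
    ∃ s ∈ Sig A D, |t - s * (lam * A ^ (j + D))| ≤ |lam| * A ^ j / 4 := by
  have hA0 : A ≠ 0 := by linarith
  induction D with
  | zero => intro t h; exact ⟨0, by simp [Sig], by simpa using near_le hA j t h⟩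
  | succ D ih =>
    intro t h
    have h' : Near lam A (j + D) t ∨ Near lam A (j + D) (t + lam * A ^ (j + D)) ∨
      Near lam A (j + D) (t - lam * A ^ (j + D)) := h
    rcases h' with h | h | h
    · obtain ⟨s, hs, h1⟩ := ih _ h
      refine ⟨s / A, Finset.mem_union.2 (Or.inl (Finset.mem_image.2 ⟨s, hs, rfl⟩)), ?_⟩
      rwa [show t - s / A * (lam * A ^ (j + (D + 1))) = t - s * (lam * A ^ (j + D)) by
        rw [← add_assoc, pow_succ]; field_simp]
    · obtain ⟨s, hs, h1⟩ := ih _ h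
      refine ⟨(-1 + s) / A, Finset.mem_union.2 (Or.inr (Finset.mem_union.2
        (Or.inl (Finset.mem_image.2 ⟨s, hs, rfl⟩)))), ?_⟩
      rwa [show t - (-1 + s) / A * (lam * A ^ (j + (D + 1))) =
          t + lam * A ^ (j + D) - s * (lam * A ^ (j + D)) by
        rw [← add_assoc, pow_succ]; field_simp; ring]
    · obtain ⟨s, hs, h1⟩ := ih _ h
      refine ⟨(1 + s) / A, Finset.mem_union.2 (Or.inr (Finset.mem_union.2
        (Or.inr (Finset.mem_image.2 ⟨s, hs, rfl⟩)))), ?_⟩
      rwa [show t - (1 + s) / A * (lam * A ^ (j + (D + 1))) =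
          t - lam * A ^ (j + D) - s * (lam * A ^ (j + D)) by
        rw [← add_assoc, pow_succ]; field_simp; ring]

lemma near_struct (hA : 8 ≤ A) (hl : lam ≠ 0) {K : ℕ} {t : ℝ} (h : Near lam A K t) (D : ℕ)
    (ht : |lam| * A ^ D / 2 < |t|) : ∃ j : ℕ, ∃ s ∈ Sig A D,
      |lam| * A ^ (j + D) < 2 * A * |t| ∧ |t| ≤ |lam| * A ^ (j + D) / 2 ∧
      |t - s * (lam * A ^ (j + D))| ≤ |lam| * A ^ j / 4 := by
  classical
  have h0 : 0 < |lam| := abs_pos.2 hl
  have hex : ∃ J : ℕ, |t| ≤ |lam| * A ^ (J + D) / 2 := by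
    obtain ⟨J, hJ⟩ := pow_unbounded_of_one_lt (2 * |t| / |lam|) (show 1 < A by linarith)
    refine ⟨J, ?_⟩
    rw [div_lt_iff₀ h0] at hJ
    have : A ^ J ≤ A ^ (J + D) := pow_le_pow_right₀ (by linarith) (Nat.le_add_right _ _)
    nlinarith
  have h1 := Nat.find_spec hex
  have h2 : Nat.find hex ≠ 0 := by
    intro h3
    rw [h3, zero_add] at h1
    linarith
  obtain ⟨j, hj⟩ := Nat.exists_eq_succ_of_ne_zero h2
  have h3 := Nat.find_min hex (show j < Nat.find hex by omega)
  obtain ⟨s, hs, h4⟩ := near_sig hA (Nat.find hex) D t (near_down hA hl h h1)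
  refine ⟨Nat.find hex, s, hs, ?_, h1, h4⟩
  rw [hj, show j.succ + D = j + D + 1 by omega, pow_succ]
  push Not at h3
  nlinarith

end Pool.Agent.H365Z.Nor
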