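import Mathlib
import Pool.Agent.H705R2.Weyl

/-! Weyl's criterion, in both directions and along an arbitrary filter. -/

set_option autoImplicit false

open Filter Topology MeasureTheory Set

namespace Pool.Agent.H365Z.Nor

open Pool.Agent.H705R2 (Circ integral_fourier_eq_zero)

/-- `exp (2 π i x)` -/
noncomputable def ee (x : ℝ) : ℂ := Complex.exp (Complex.I * ((2 * Real.pi * x : ℝ) : ℂ))

lemma ee_add (x y : ℝ) : ee (x + y) = ee x * ee y := by
  unfold ee
  rw [← Complex.exp_add]
  congr 1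
  push_cast
  ring

lemma norm_ee (x : ℝ) : ‖ee x‖ = 1 := by
  unfold ee
  rw [mul_comm]
  exact Complex.norm_exp_ofReal_mul_I _

lemma ee_zero : ee 0 = 1 := by simp [ee]

lemma ee_int (n : ℤ) : ee n = 1 := by
  unfold ee
  have := Complex.exp_int_mul_two_pi_mul_I n
  rw [← this]
  congr 1
  push_cast
  ring

lemma ee_neg (x : ℝ) : ee (-x) = (starRingEnd ℂ) (ee x) := by
  unfold ee
  rw [← Complex.exp_conj, map_mul, Complex.conj_ofReal, Complex.conj_I]
  congr 1
  push_cast
  ring

lemma ee_cont : Continuous ee := by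
  unfold ee
  fun_prop

lemma ee_lip (x y : ℝ) : ‖ee x - ee y‖ ≤ 7 * |x - y| := by
  have h : ee x - ee y = ee y * (ee (x - y) - 1) := by
    rw [mul_sub, ← ee_add]; simp
  rw [h, norm_mul, norm_ee, one_mul]
  refine Real.norm_exp_I_mul_ofReal_sub_one_le.trans ?_
  rw [Real.norm_eq_abs, abs_mul, abs_of_pos (by positivity : (0 : ℝ) < 2 * Real.pi)]
  exact mul_le_mul_of_nonneg_right (by linarith [Real.pi_lt_d2]) (abs_nonneg _)

lemma ee_nsmul (x : ℝ) (n : ℕ) : ee (n * x) = ee x ^ n := by
  induction n with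
  | zero => simp [ee_zero]
  | succ n ih => push_cast; rw [add_mul, one_mul, ee_add, ih, pow_succ]

lemma ee_ne_one {x : ℝ} (hx : ∀ n : ℤ, x ≠ n) : ee x ≠ 1 := by
  intro h
  unfold ee at h
  rw [Complex.exp_eq_one_iff] at h
  obtain ⟨n, hn⟩ := h
  apply hx n
  have h2 : ((2 * Real.pi * x : ℝ) : ℂ) = ((2 * Real.pi * n : ℝ) : ℂ) := by
    have hI : (Complex.I : ℂ) ≠ 0 := Complex.I_ne_zero
    apply mul_left_cancel₀ hI
    rw [hn]; push_cast; ring
  have h3 : 2 * Real.pi * x = 2 * Real.pi * n := by exact_mod_cast h2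
  exact mul_left_cancel₀ (by positivity) h3

lemma re_ee (x : ℝ) : (ee x).re = Real.cos (2 * Real.pi * x) := by
  unfold ee
  rw [mul_comm, Complex.exp_ofReal_mul_I_re]

lemma cos_eq (x : ℝ) : ((Real.cos (2 * Real.pi * x) : ℝ) : ℂ) = (ee x + ee (-x)) / 2 := by
  rw [ee_neg, Complex.add_conj, re_ee]
  push_cast
  ring

/-- uniform distribution modulo one -/
def UD (x : ℕ → ℝ) : Prop :=
  ∀ a b : ℝ, 0 ≤ a → a ≤ b → b ≤ 1 →
    Tendsto (fun N : ℕ =>
      (((Finset.range N).filter (fun n => a ≤ Int.fract (x n) ∧ Int.fract (x n) < b)).card : ℝ)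
        / (N : ℝ)) atTop (𝓝 (b - a))

/-- Weyl's condition -/
def WeylC (x : ℕ → ℝ) : Prop :=
  ∀ h : ℤ, h ≠ 0 →
    Tendsto (fun N : ℕ => (∑ n ∈ Finset.range N, ee (h * x n)) / (N : ℂ)) atTop (𝓝 0)

section filt
variable {ι : Type*} (l : Filter ι) (y : ι → ℕ → ℝ) (M : ι → ℕ)

/-- average along a sequence -/
noncomputable def av (y : ℕ → ℝ) (h : Circ → ℂ) (M : ℕ) : ℂ :=
  (∑ m ∈ Finset.range M, h (y m : Circ)) / M

lemma av_norm_sub_le (y : ℕ → ℝ) (f g : C(Circ, ℂ)) (M : ℕ) :
    ‖av y f M - av y g M‖ ≤ ‖f - g‖ := by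
  unfold av
  rcases Nat.eq_zero_or_pos M with rfl | hM
  · simp
  rw [← sub_div, ← Finset.sum_sub_distrib, norm_div, Complex.norm_natCast]
  rw [div_le_iff₀ (by exact_mod_cast hM)]
  calc ‖∑ m ∈ Finset.range M, (f (y m : Circ) - g (y m : Circ))‖
      ≤ ∑ m ∈ Finset.range M, ‖f (y m : Circ) - g (y m : Circ)‖ := norm_sum_le _ _
    _ ≤ ∑ _m ∈ Finset.range M, ‖f - g‖ := by
        gcongr with m _
        exact (f - g).norm_coe_le_norm _
    _ = ‖f - g‖ * M := by simp [mul_comm]

theorem weyl_seq (hM : ∀ᶠ i in l, 0 < M i)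
    (hy : ∀ h : ℤ, h ≠ 0 →
      Tendsto (fun i => (∑ n ∈ Finset.range (M i), ee (h * y i n)) / (M i : ℂ)) l (𝓝 0))
    (h : C(Circ, ℂ)) :
    Tendsto (fun i => av (y i) h (M i)) l (𝓝 (∫ x : Circ, h x)) := by
  have hmem : ∀ f ∈ (Submodule.span ℂ (range <| @fourier 1)),
      Tendsto (fun i => av (y i) f (M i)) l (𝓝 (∫ x : Circ, f x)) := by
    intro f hf
    induction hf using Submodule.span_induction with
    | mem f hf =>
      obtain ⟨n, rfl⟩ := hf
      by_cases hn : n = 0
      · subst hn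
        have : ∀ i, 0 < M i → av (y i) (fun x => (fourier 0 x : ℂ)) (M i) = 1 := by
          intro i hM
          unfold av
          simp only [fourier_zero, Finset.sum_const, Finset.card_range, nsmul_eq_mul, mul_one]
          have : (M i : ℂ) ≠ 0 := by exact_mod_cast hM.ne'
          field_simp
        have hint : ∫ x : Circ, (fourier 0 x : ℂ) = 1 := by
          simp [Measure.real]
        rw [hint]
        refine Tendsto.congr' ?_ tendsto_const_nhds
        filter_upwards [hM] with i hi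
        exact (this i hi).symm
      · rw [integral_fourier_eq_zero hn]
        refine (hy n hn).congr fun i => ?_
        unfold av
        congr 1
        refine Finset.sum_congr rfl fun m _ => ?_
        rw [fourier_coe_apply]
        unfold ee
        congr 1
        push_cast
        ring
    | zero =>
      simpa [av] using tendsto_const_nhds
    | add f g hf hg ihf ihg =>
      have hi : ∫ x : Circ, (f + g) x = (∫ x : Circ, f x) + ∫ x : Circ, g x := by
        have := integral_add (μ := (volume : Measure Circ)) (f := f) (g := g)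
          (f.continuous.integrable_of_hasCompactSupport (HasCompactSupport.of_compactSpace _))
          (g.continuous.integrable_of_hasCompactSupport (HasCompactSupport.of_compactSpace _))
        simpa using this
      rw [hi]
      refine (ihf.add ihg).congr (fun i => ?_)
      unfold av
      rw [← add_div, ← Finset.sum_add_distrib]; rfl
    | smul c f hf ihf =>
      have hi : ∫ x : Circ, (c • f) x = c * (∫ x : Circ, f x) := by
        simp [integral_const_mul]
      rw [hi]
      refine (ihf.const_mul c).congr (fun i => ?_)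
      unfold av
      simp only [ContinuousMap.coe_smul, Pi.smul_apply, smul_eq_mul]
      rw [← Finset.mul_sum, mul_div_assoc]
  rw [Metric.tendsto_nhds]
  intro ε hε
  have hcl : h ∈ (Submodule.span ℂ (range <| @fourier 1)).topologicalClosure := by
    rw [span_fourier_closure_eq_top]; trivial
  rw [← SetLike.mem_coe, Submodule.topologicalClosure_coe, Metric.mem_closure_iff] at hcl
  obtain ⟨f, hf, hfd⟩ := hcl (ε / 3) (by positivity)
  have := Metric.tendsto_nhds.1 (hmem f hf) (ε / 3) (by positivity)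
  filter_upwards [this] with i h1
  have h2 : ‖av (y i) h (M i) - av (y i) f (M i)‖ ≤ ‖h - f‖ := av_norm_sub_le _ h f _
  have h3 : ‖(∫ x : Circ, f x) - ∫ x : Circ, h x‖ ≤ ‖h - f‖ := by
    rw [← integral_sub
      (f.continuous.integrable_of_hasCompactSupport (HasCompactSupport.of_compactSpace _))
      (h.continuous.integrable_of_hasCompactSupport (HasCompactSupport.of_compactSpace _))]
    calc ‖∫ x : Circ, (f x - h x)‖ ≤ ‖h - f‖ * (volume : Measure Circ).real univ := by
          apply norm_integral_le_of_norm_le_const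
          filter_upwards with x
          rw [norm_sub_rev]
          exact (h - f).norm_coe_le_norm x
      _ = ‖h - f‖ := by simp [Measure.real]
  have h4 : ‖h - f‖ < ε / 3 := by rw [← dist_eq_norm]; exact hfd
  calc dist (av (y i) h (M i)) (∫ x : Circ, h x)
      ≤ dist (av (y i) h (M i)) (av (y i) f (M i)) + dist (av (y i) f (M i)) (∫ x : Circ, f x)
        + dist (∫ x : Circ, f x) (∫ x : Circ, h x) := dist_triangle4 _ _ _ _
    _ < ε / 3 + ε / 3 + ε / 3 := by
        rw [dist_eq_norm, dist_eq_norm (∫ x : Circ, f x)]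
        linarith
    _ = ε := by ring

theorem lower (hM : ∀ᶠ i in l, 0 < M i)
    (hy : ∀ h : ℤ, h ≠ 0 →
      Tendsto (fun i => (∑ n ∈ Finset.range (M i), ee (h * y i n)) / (M i : ℂ)) l (𝓝 0))
    (c L : ℝ) (hL1 : L ≤ 1) (P : ι → ℕ → Prop) [∀ i, DecidablePred (P i)]
    (hP : ∀ i n, (∃ k : ℤ, c < y i n - k ∧ y i n - k < c + L) → P i n) (ε : ℝ) (hε : 0 < ε) :
    ∀ᶠ i in l, L - ε ≤ (((Finset.range (M i)).filter (P i)).card : ℝ) / M i := by
  let z : Circ := ((c + L / 2 : ℝ) : Circ)
  obtain ⟨g, hg0, hg1, hg01⟩ := exists_continuous_zero_one_of_isClosed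
    (Metric.isOpen_ball (x := z) (ε := L / 2)).isClosed_compl
    (Metric.isClosed_closedBall (x := z) (ε := L / 2 - ε / 4))
    (by
      rw [disjoint_compl_left_iff_subset]
      exact Metric.closedBall_subset_ball (by linarith))
  let h : C(Circ, ℂ) := ⟨fun x => (g x : ℂ), by fun_prop⟩
  have hint : L - ε / 2 ≤ (∫ x : Circ, h x).re := by
    have h1 : ∫ x : Circ, h x = ((∫ x : Circ, g x : ℝ) : ℂ) := by
      simp only [h, ContinuousMap.coe_mk]
      exact integral_ofReal
    rw [h1, Complex.ofReal_re]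
    have hm : MeasurableSet (Metric.closedBall z (L / 2 - ε / 4)) := measurableSet_closedBall
    have h2 : ∫ x : Circ, (Metric.closedBall z (L / 2 - ε / 4)).indicator (fun _ => (1 : ℝ)) x ≤
        ∫ x : Circ, g x := by
      apply integral_mono
      · exact (integrable_indicator_iff hm).2 (integrableOn_const (by simp))
      · exact g.continuous.integrable_of_hasCompactSupport (HasCompactSupport.of_compactSpace _)
      · intro x
        by_cases hx : x ∈ Metric.closedBall z (L / 2 - ε / 4)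
        · simp only [hx, indicator_of_mem]
          exact le_of_eq (hg1 hx).symm
        · simp only [hx, not_false_eq_true, indicator_of_notMem]
          exact (hg01 x).1
    rw [integral_indicator hm] at h2
    simp only [integral_const, MeasurableSet.univ, measureReal_restrict_apply, univ_inter,
      smul_eq_mul, mul_one] at h2
    refine le_trans ?_ h2
    rw [Measure.real, AddCircle.volume_closedBall, ENNReal.toReal_ofReal']
    refine le_trans ?_ (le_max_left _ _)
    apply le_min <;> linarith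
  have hw' : Tendsto (fun i => (av (y i) h (M i)).re) l (𝓝 (∫ x : Circ, h x).re) :=
    (Complex.continuous_re.tendsto _).comp (weyl_seq l y M hM hy h)
  have hev : ∀ᶠ i in l, L - ε < (av (y i) h (M i)).re := by
    apply hw'.eventually_const_lt
    linarith
  filter_upwards [hev] with i hi
  refine hi.le.trans ?_
  unfold av
  have : (∑ m ∈ Finset.range (M i), h (y i m : Circ)) / (M i : ℂ) =
      (((∑ m ∈ Finset.range (M i), g (y i m : Circ)) / M i : ℝ) : ℂ) := by
    push_cast; rfl
  rw [this, Complex.ofReal_re]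
  gcongr
  rw [Finset.card_filter]
  push_cast
  gcongr with m _
  split_ifs with hm
  · exact (hg01 _).2
  · apply le_of_eq
    apply hg0
    intro hb
    apply hm
    apply hP
    rw [Metric.mem_ball, dist_eq_norm, ← AddCircle.coe_sub, UnitAddCircle.norm_eq, abs_lt] at hb
    exact ⟨round (y i m - (c + L / 2)), by linarith [hb.1], by linarith [hb.2]⟩

theorem upper (hM : ∀ᶠ i in l, 0 < M i)
    (hy : ∀ h : ℤ, h ≠ 0 →
      Tendsto (fun i => (∑ n ∈ Finset.range (M i), ee (h * y i n)) / (M i : ℂ)) l (𝓝 0))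
    (c L : ℝ) (hL0 : 0 ≤ L) (P : ι → ℕ → Prop) [∀ i, DecidablePred (P i)]
    (hP : ∀ i n, P i n → ∃ k : ℤ, c ≤ y i n - k ∧ y i n - k ≤ c + L) (ε : ℝ) (hε : 0 < ε) :
    ∀ᶠ i in l, (((Finset.range (M i)).filter (P i)).card : ℝ) / M i ≤ L + ε := by
  have h := lower l y M hM hy (c + L) (1 - L) (by linarith) (fun i n => ¬ P i n) (by
    rintro i n ⟨k, h1, h2⟩ hp
    obtain ⟨k', h3, h4⟩ := hP i n hp
    have a1 : (k : ℝ) < k' := by linarith
    have a2 : (k' : ℝ) < k + 1 := by linarith
    have b1 : k < k' := by exact_mod_cast a1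
    have b2 : k' < k + 1 := by exact_mod_cast a2
    omega) ε hε
  filter_upwards [h, hM] with i h1 h2
  have h3 := Finset.card_filter_add_card_filter_not (s := Finset.range (M i)) (P i)
  rw [Finset.card_range] at h3
  have h4 : (((Finset.range (M i)).filter (P i)).card : ℝ) +
      (((Finset.range (M i)).filter fun n => ¬ P i n).card : ℝ) = M i := by exact_mod_cast h3
  have h5 : (0 : ℝ) < M i := by exact_mod_cast h2
  rw [le_div_iff₀ h5] at h1
  rw [div_le_iff₀ h5]
  nlinarith

end filt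

theorem UD_of_weyl {x : ℕ → ℝ} (hx : WeylC x) : UD x := by
  intro a b ha hab hb
  rw [Metric.tendsto_nhds]
  intro ε hε
  have h1 := lower atTop (fun _ => x) id (eventually_gt_atTop 0) hx a (b - a) (by linarith)
    (fun _ n => a ≤ Int.fract (x n) ∧ Int.fract (x n) < b) (by
      rintro _ n ⟨k, h1, h2⟩
      have : Int.fract (x n) = x n - k := by
        rw [Int.fract_eq_iff]
        exact ⟨by linarith, by linarith, k, by ring⟩
      rw [this]
      exact ⟨h1.le, by linarith⟩) (ε / 2) (by positivity)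
  have h2 := upper atTop (fun _ => x) id (eventually_gt_atTop 0) hx a (b - a) (by linarith)
    (fun _ n => a ≤ Int.fract (x n) ∧ Int.fract (x n) < b) (by
      rintro _ n ⟨h1, h2⟩
      exact ⟨⌊x n⌋, h1, by have : Int.fract (x n) = x n - ⌊x n⌋ := rfl; linarith⟩)
    (ε / 2) (by positivity)
  filter_upwards [h1, h2] with N h1 h2
  rw [Real.dist_eq, abs_lt]
  simp only [id] at h1 h2
  constructor <;> linarith

theorem weyl_of_UD {x : ℕ → ℝ} (hx : UD x) : WeylC x := by
  intro h hh
  rw [NormedAddGroup.tendsto_nhds_zero]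
  intro ε hε
  obtain ⟨m, hm⟩ := exists_nat_gt (max (|(h : ℝ)|) (7 * |(h : ℝ)| / (ε / 2)))
  have hm1 : |(h : ℝ)| < m := (le_max_left _ _).trans_lt hm
  have hm2 : 7 * |(h : ℝ)| / (ε / 2) < m := (le_max_right _ _).trans_lt hm
  have hm0 : (0 : ℝ) < m := lt_of_le_of_lt (abs_nonneg _) hm1
  set c : ℕ → ℕ → ℝ := fun i N => (((Finset.range N).filter
    (fun n => (i : ℝ) / m ≤ Int.fract (x n) ∧ Int.fract (x n) < ((i : ℝ) + 1) / m)).card : ℝ)
    with hc
  have hlim : Tendsto (fun N : ℕ => ∑ i ∈ Finset.range m, ((c i N / N : ℝ) : ℂ) * ee (i * (h / m)))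
      atTop (𝓝 (∑ i ∈ Finset.range m, ((1 / m : ℝ) : ℂ) * ee (i * (h / m)))) := by
    refine tendsto_finsetSum _ fun i hi => Tendsto.mul_const _ ?_
    refine (Complex.continuous_ofReal.tendsto _).comp ?_
    have hi' : (i : ℝ) + 1 ≤ m := by exact_mod_cast Finset.mem_range.1 hi
    have := hx (i / m) ((i + 1) / m) (by positivity) (by gcongr; linarith)
      (by rw [div_le_one hm0]; exact hi')
    have e : ((i : ℝ) + 1) / m - i / m = 1 / m := by ring
    rw [e] at this
    exact this
  have hz : ∑ i ∈ Finset.range m, ((1 / m : ℝ) : ℂ) * ee (i * (h / m)) = 0 := by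
    rw [← Finset.mul_sum]
    simp only [ee_nsmul]
    have hne : ee (h / m) ≠ 1 := by
      refine ee_ne_one fun n hn => ?_
      have h1 : |(n : ℝ)| < 1 := by
        rw [← hn, abs_div, abs_of_pos hm0, div_lt_one hm0]; exact hm1
      have h2 : n = 0 := by
        have : |n| < 1 := by exact_mod_cast h1
        exact Int.abs_lt_one_iff.1 this
      rw [h2, div_eq_iff hm0.ne'] at hn
      apply hh
      have : (h : ℝ) = 0 := by simpa using hn
      exact_mod_cast this
    rw [geom_sum_eq hne, ← ee_nsmul]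
    have : (m : ℝ) * (h / m) = h := by field_simp
    rw [this, ee_int]
    simp
  rw [hz, NormedAddGroup.tendsto_nhds_zero] at hlim
  filter_upwards [hlim (ε / 2) (by positivity), eventually_gt_atTop 0] with N h1 hN
  have hN' : (0 : ℝ) < N := by exact_mod_cast hN
  have hidx : ∀ n i, ⌊m * Int.fract (x n)⌋₊ = i ↔
      ((i : ℝ) / m ≤ Int.fract (x n) ∧ Int.fract (x n) < ((i : ℝ) + 1) / m) := by
    intro n i
    rw [Nat.floor_eq_iff (mul_nonneg hm0.le (Int.fract_nonneg _)), div_le_iff₀ hm0,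
      lt_div_iff₀ hm0, mul_comm]
  have e1 : ∑ i ∈ Finset.range m, ((c i N / N : ℝ) : ℂ) * ee (i * (h / m)) =
      (∑ n ∈ Finset.range N, ee ((⌊m * Int.fract (x n)⌋₊ : ℝ) * (h / m))) / N := by
    rw [← Finset.sum_fiberwise_of_maps_to (s := Finset.range N) (t := Finset.range m)
      (g := fun n => ⌊m * Int.fract (x n)⌋₊) (fun n _ => by
        rw [Finset.mem_range, Nat.floor_lt (mul_nonneg hm0.le (Int.fract_nonneg _))]
        nlinarith [Int.fract_lt_one (x n)]), Finset.sum_div]
    refine Finset.sum_congr rfl fun i _ => ?_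
    rw [Finset.sum_congr rfl (g := fun _ => ee (i * (h / m))) (fun n hn => by
      rw [(Finset.mem_filter.1 hn).2])]
    simp only [hc, Finset.sum_const, nsmul_eq_mul, hidx]
    push_cast
    ring
  rw [e1] at h1
  have e2 : ‖(∑ n ∈ Finset.range N, ee (h * x n)) / (N : ℂ) -
      (∑ n ∈ Finset.range N, ee ((⌊m * Int.fract (x n)⌋₊ : ℝ) * (h / m))) / N‖ ≤ ε / 2 := by
    rw [← sub_div, ← Finset.sum_sub_distrib, norm_div, Complex.norm_natCast, div_le_iff₀ hN']
    refine (norm_sum_le _ _).trans ?_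
    have : ∀ n ∈ Finset.range N,
        ‖ee (h * x n) - ee ((⌊m * Int.fract (x n)⌋₊ : ℝ) * (h / m))‖ ≤ ε / 2 := by
      intro n _
      have e3 : ee (h * x n) = ee (h * Int.fract (x n)) := by
        have : (h : ℝ) * x n = h * Int.fract (x n) + ((h * ⌊x n⌋ : ℤ) : ℝ) := by
          push_cast; rw [← mul_add, Int.fract_add_floor]
        rw [this, ee_add, ee_int, mul_one]
      rw [e3]
      refine (ee_lip _ _).trans ?_
      obtain ⟨k1, k2⟩ := (hidx n _).1 rfl
      have e4 : (h : ℝ) * Int.fract (x n) - (⌊m * Int.fract (x n)⌋₊ : ℝ) * (h / m) =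
          h * (Int.fract (x n) - (⌊m * Int.fract (x n)⌋₊ : ℝ) / m) := by ring
      rw [e4, abs_mul, abs_of_nonneg (sub_nonneg.2 k1)]
      have k3 : Int.fract (x n) - (⌊m * Int.fract (x n)⌋₊ : ℝ) / m ≤ 1 / m := by
        rw [add_div] at k2; linarith
      rw [div_lt_iff₀ (by positivity)] at hm2
      calc 7 * (|(h : ℝ)| * (Int.fract (x n) - (⌊m * Int.fract (x n)⌋₊ : ℝ) / m))
          ≤ 7 * (|(h : ℝ)| * (1 / m)) := by gcongr
        _ = 7 * |(h : ℝ)| / m := by ring
        _ ≤ ε / 2 := by rw [div_le_iff₀ hm0]; linarith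
    refine (Finset.sum_le_sum this).trans ?_
    simp [mul_comm]
  have := norm_add_le ((∑ n ∈ Finset.range N, ee (h * x n)) / (N : ℂ) -
      (∑ n ∈ Finset.range N, ee ((⌊m * Int.fract (x n)⌋₊ : ℝ) * (h / m))) / N)
    ((∑ n ∈ Finset.range N, ee ((⌊m * Int.fract (x n)⌋₊ : ℝ) * (h / m))) / N)
  rw [sub_add_cancel] at this
  linarith

theorem UD_iff {x : ℕ → ℝ} : UD x ↔ WeylC x := ⟨weyl_of_UD, UD_of_weyl⟩

/-- uniform bound for the visits of an irrational rotation to an arc -/
theorem rot_count {θ : ℝ} (hθ : Irrational θ) (c L : ℝ) (hL0 : 0 ≤ L) (ε : ℝ) (hε : 0 < ε) :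
    ∃ M₀ : ℕ, ∀ M, M₀ ≤ M → ∀ x : ℝ, ∀ S : Finset ℕ, S ⊆ Finset.range M →
      (∀ n ∈ S, ∃ k : ℤ, c ≤ x + n * θ - k ∧ x + n * θ - k ≤ c + L) →
      (S.card : ℝ) ≤ (L + ε) * M := by
  classical
  have hM : ∀ᶠ i : ℝ × ℕ in (⊤ : Filter ℝ) ×ˢ atTop, 0 < i.2 :=
    tendsto_snd.eventually (eventually_gt_atTop 0)
  have h := upper ((⊤ : Filter ℝ) ×ˢ atTop) (fun i n => i.1 + n * θ) (fun i => i.2) hM (by
      intro h hh
      have hne : ee (h * θ) ≠ 1 := ee_ne_one fun n => (hθ.intCast_mul hh).ne_int n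
      have hb : ∀ i : ℝ × ℕ, ‖(∑ n ∈ Finset.range i.2, ee (h * (i.1 + n * θ))) / (i.2 : ℂ)‖ ≤
          (2 / ‖ee (h * θ) - 1‖) / i.2 := by
        intro i
        rw [norm_div, Complex.norm_natCast]
        gcongr
        have : ∀ n : ℕ, ee (h * (i.1 + n * θ)) = ee (h * i.1) * ee (h * θ) ^ n := by
          intro n
          rw [← ee_nsmul, ← ee_add]; congr 1; ring
        simp only [this]
        rw [← Finset.mul_sum, geom_sum_eq hne, norm_mul, norm_ee, one_mul, norm_div]
        gcongr
        refine (norm_sub_le _ _).trans ?_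
        rw [norm_pow, norm_ee]; norm_num
      refine squeeze_zero_norm hb ?_
      exact (tendsto_const_div_atTop_nhds_zero_nat _).comp tendsto_snd)
    c L hL0 (fun i n => ∃ k : ℤ, c ≤ i.1 + n * θ - k ∧ i.1 + n * θ - k ≤ c + L)
    (fun _ _ h => h) ε hε
  rw [eventually_prod_iff] at h
  obtain ⟨pa, hpa, pb, hpb, h⟩ := h
  rw [eventually_top] at hpa
  obtain ⟨M₀, hM₀⟩ := eventually_atTop.1 (hpb.and (eventually_gt_atTop 0))
  refine ⟨M₀, fun M hM x S hS hS' => ?_⟩
  have h1 := h (hpa x) (hM₀ M hM).1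
  have h2 : (0 : ℝ) < M := by exact_mod_cast (hM₀ M hM).2
  rw [div_le_iff₀ h2] at h1
  refine le_trans ?_ h1
  exact_mod_cast Finset.card_le_card fun n hn => Finset.mem_filter.2 ⟨hS hn, hS' n hn⟩

end Pool.Agent.H365Z.Nor
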